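import Pool.Agent.Helper80.LD.CORw

/-!
# The inequality for the limits of the local values, with classes of cosets

As `core_i` of `Pool/Agent/Helper68/ZS/COI.lean` (helper68), from `core0_w` and `ver_wi`.
-/

set_option autoImplicit false
set_option linter.unusedSectionVars false

namespace Pool.Agent.SQ

open NumberField Filter Module MvPolynomial
open Pool.Agent.Helper64.Vojta (Pl nv sn above)
open Pool.Agent.V2
open Pool.Agent.Chart (fld dg crd hgt)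
open Pool.Agent.ZS (HQ mem_HQ)

universe u

variable {k : Type u} [Field k] [NumberField k]

/-- the sum over the index set -/
private theorem ksum80 {G : Type} [Fintype G] [DecidableEq G] {P : Type u} (S : Finset P) {r : ℕ} (lin : P → Prop) [DecidablePred lin]
    (T : P → Finset G) (R : P → Finset (Fin r)) (a : P → ℝ) (c : ℝ) (F : ↥S × (G ⊕ Fin r) → ℝ) :
    ∑ l : ↥S × (G ⊕ Fin r), (Sum.elim (fun g => if lin l.1 ∧ g ∈ T l.1 then a l.1 else 0)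
      (fun j => if ¬ lin l.1 ∧ j ∈ R l.1 then c else 0) l.2) * F l =
      ∑ v : S, if lin v then a v * ∑ g ∈ T v, F (v, Sum.inl g) else c * ∑ j ∈ R v, F (v, Sum.inr j) := by
  rw [Fintype.sum_prod_type]
  refine Finset.sum_congr rfl fun v _ => ?_
  rw [Fintype.sum_sum_type]
  simp only [Sum.elim_inl, Sum.elim_inr]
  by_cases hv : lin v
  · simp only [hv, not_true_eq_false, false_and, true_and, if_true, if_false, zero_mul, Finset.sum_const_zero, add_zero, ite_mul]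
    rw [Finset.mul_sum, ← Finset.sum_filter]
    refine Finset.sum_congr ?_ fun _ _ => rfl
    ext g
    simp
  · simp only [hv, not_false_eq_true, false_and, true_and, if_false, zero_mul, Finset.sum_const_zero, zero_add, ite_mul]
    rw [Finset.mul_sum, ← Finset.sum_filter]
    refine Finset.sum_congr ?_ fun _ _ => rfl
    ext g
    simp

/-- **The inequality.** The exceptional form `Q` is chosen first. -/
theorem core_iw {N n d q : ℕ} (hd : 0 < d) (I : Ideal (MvPolynomial (Fin (N + 1)) k)) [hIp : I.IsPrime]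
    (hI : ∀ p ∈ I, ∀ m, homogeneousComponent m p ∈ I)
    (hdim : Algebra.trdeg k (MvPolynomial (Fin (N + 1)) k ⧸ I) = n + 1)
    (f : Fin q → MvPolynomial (Fin (N + 1)) k) (hf : ∀ i, (f i).IsHomogeneous d) {Ξ : Type} [Fintype Ξ] {θ : Ξ → ℝ}
    (hθ : ∀ ξ, 0 ≤ θ ξ) (hθ1 : ∀ ξ, θ ξ ≤ 1) {ξ₁ : Ξ} (hξ₁ : θ ξ₁ = 1) {ε : ℝ} (hε : 0 < ε) :
    ∃ Q : MvPolynomial (Fin (N + 1)) k, Q ∉ I ∧ (∃ e, Q.IsHomogeneous e) ∧
      ∀ {G : Type} [Group G] [Fintype G] {D : SqG k G} (y : ∀ a, Fin (N + 1) → D.L a), Ptg D y →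
        (∀ a, ∀ p ∈ I, aeval (y a) p = 0) → (∀ a, aeval (y a) Q ≠ 0) →
        ∀ (S : Finset (Pl k)) (T0 : Pl k → Finset (Fin q)), (∀ v ∈ S, n + 1 ≤ (T0 v).card) →
        (∀ v ∈ S, ∀ J ⊆ T0 v, J.card = n + 1 → ∀ x : Fin (N + 1) → AlgebraicClosure k, (∀ p ∈ I, aeval x p = 0) →
          (∀ i ∈ J, aeval x (f i) = 0) → x = 0) → (∀ a, ∀ v ∈ S, ∀ i ∈ T0 v, aeval (y a) (f i) ≠ 0) →
        ∀ (L : Pl k → G → Fin q → ℝ), (∀ v ∈ S, ∀ g, ∀ i ∈ T0 v, 0 ≤ L v g i) →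
        (∀ v ∈ S, ∀ g, ∀ i ∈ T0 v, LB D (fun a => gam (D.s a) (D.N a) (y a) d (f i) v g) (L v g i)) →
        ∀ (Hs : Subgroup G), (∀ a, ∀ h ∈ Hs, ∀ j, D.s a h (y a j) = y a j) →
          ∀ (lin : Pl k → Prop) [DecidablePred lin] (Gd T : Pl k → Finset G),
          (∀ a, ∀ v ∈ S, lin v → ∀ u ∈ Gd v, ∀ g ∈ T v, ∀ z : D.L a, (∀ h ∈ Hs, D.s a h z = z) →
            D.N a v (D.s a (u * g) z) = D.N a v (D.s a g z)) →
          ∀ {r : ℕ} (ρ : Fin r → G), (∀ g, ∃! j, (ρ j)⁻¹ * g ∈ Hs) →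
          ∀ (Rp : Pl k → Finset (Fin r)) (cl : Pl k → Fin r → Fin r) (ξ : Pl k → Fin r → Ξ),
          (∀ v ∈ S, ¬ lin v → ∀ j, cl v j ∈ Rp v ∧ ξ v (cl v j) = ξ v j ∧
            ∑ i ∈ T0 v, L v (ρ (cl v j)) i = ∑ i ∈ T0 v, L v (ρ j) i) →
          (∀ a, ∀ v ∈ S, ¬ lin v → ∀ j, ∀ z : D.L a, (∀ h ∈ Hs, D.s a h z = z) →
            D.N a v (D.s a (ρ (cl v j)) z) = D.N a v (D.s a (ρ j) z)) →
          ∑ v ∈ S, (if lin v then ((Gd v).card : ℝ) * ∑ g ∈ T v, ((1 - ε) * Eq n 1 * ∑ i ∈ T0 v, L v g i) else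
            (Fintype.card G : ℝ) ^ 2 * ∑ j ∈ Rp v, (((1 - ε) * Eq n (θ (ξ v j)) -
              (1 - ((Finset.univ.filter fun j' => cl v j' = j).card : ℝ) / r) * θ (ξ v j)) *
                ∑ i ∈ T0 v, L v (ρ j) i)) ≤
            Fintype.card G * d := by
  classical
  obtain ⟨m, Q, hm, hQ, hQh, hcore⟩ := core0_w hd I hI hdim f hf hθ hθ1 hε
  refine ⟨Q, hQ, hQh, ?_⟩
  intro G _ _ D y hy hyI hyQ S T0 hT0 hgp hyf L hL0 hL Hs hH lin _ Gd T hC r ρ hρ Rp cl ξ hcl hclN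
  have hδ : 0 < d * m := Nat.mul_pos hd hm
  have hmR : (0 : ℝ) < m := by exact_mod_cast hm
  obtain ⟨V', hV', hpos, R, e, σ, heh, heV, heI, heS, hσB, hmain⟩ := hcore y hy hyI hyQ
    (Λ := ↥S × (G ⊕ Fin r)) (fun l => T0 l.1) (fun l => hT0 _ l.1.2) (fun l => hgp _ l.1.2) (fun a l => hyf a _ l.1.2)
    (fun l => l.1) (fun l => Sum.elim id ρ l.2) (fun l => Sum.elim (fun _ => ξ₁) (ξ l.1) l.2)
    (fun l => L l.1 (Sum.elim id ρ l.2))
    (fun l => hL0 _ l.1.2 _) (fun l => hL _ l.1.2 _)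
    (fun l => Sum.elim (fun g => if lin l.1 ∧ g ∈ T l.1 then ((Gd l.1).card : ℝ) else 0)
      (fun j => if ¬ lin l.1 ∧ j ∈ Rp l.1 then (Fintype.card G : ℝ) ^ 2 else 0) l.2) (fun l => by
      rcases l with ⟨v, g | j⟩
      · show (0 : ℝ) ≤ if lin v ∧ g ∈ T v then ((Gd v).card : ℝ) else 0
        split_ifs
        · exact Nat.cast_nonneg _
        · exact le_rfl
      · show (0 : ℝ) ≤ if ¬ lin v ∧ j ∈ Rp v then (Fintype.card G : ℝ) ^ 2 else 0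
        split_ifs
        · positivity
        · exact le_rfl)
  have hD0 : (0 : ℝ) < finrank k V' := by exact_mod_cast hpos
  rw [ksum80 S lin T Rp (fun v => ((Gd v).card : ℝ)) ((Fintype.card G : ℝ) ^ 2),
    ksum80 S lin T Rp (fun v => ((Gd v).card : ℝ)) ((Fintype.card G : ℝ) ^ 2)] at hmain
  simp only [Sum.elim_inl, Sum.elim_inr, id, hξ₁] at hmain
  -- families for all places
  have hf1 : ∀ (v : Pl k) (g : G), ∃ (n : ℕ) (e₁ : Fin n → MvPolynomial (Fin (N + 1)) k) (σ₁ : Fin n → ℝ),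
      (∀ i, (e₁ i).IsHomogeneous (d * m)) ∧ ∀ h : v ∈ S, (∀ i, Ideal.Quotient.mk (vanI D y) (e₁ i) ∈ V') ∧
      (LinearIndependent k fun i => Ideal.Quotient.mk (vanI D y) (e₁ i)) ∧
      (∀ i, e₁ i ∈ Submodule.span k {p : MvPolynomial (Fin (N + 1)) k | p.IsHomogeneous (d * m) ∧ (p ∈ vanI D y ∨
            LB D (fun a => gam (D.s a) (D.N a) (y a) (d * m) p v g) (σ₁ i))}) ∧
      ∑ i, σ₁ i = ∑ i, σ (⟨v, h⟩, Sum.inl g) i := by
    intro v g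
    by_cases h : v ∈ S
    · exact ⟨R (⟨v, h⟩, Sum.inl g), e (⟨v, h⟩, Sum.inl g), σ (⟨v, h⟩, Sum.inl g), heh _, fun _ =>
        ⟨heV _, heI _, heS (⟨v, h⟩, Sum.inl g), rfl⟩⟩
    · exact ⟨0, Fin.elim0, Fin.elim0, fun i => i.elim0, fun h' => absurd h' h⟩
  choose n₁ e₁ σ₁ he₁h he₁ using hf1
  have hf2 : ∀ (v : Pl k) (j : Fin r), ∃ (n : ℕ) (e₁ : Fin n → MvPolynomial (Fin (N + 1)) k) (σ₁ : Fin n → ℝ),
      (∀ i, (e₁ i).IsHomogeneous (d * m)) ∧ ∀ h : v ∈ S, (∀ i, Ideal.Quotient.mk (vanI D y) (e₁ i) ∈ V') ∧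
      (LinearIndependent k fun i => Ideal.Quotient.mk (vanI D y) (e₁ i)) ∧
      (∀ i, e₁ i ∈ Submodule.span k {p : MvPolynomial (Fin (N + 1)) k | p.IsHomogeneous (d * m) ∧ (p ∈ vanI D y ∨
            LB D (fun a => gam (D.s a) (D.N a) (y a) (d * m) p v (ρ j)) (σ₁ i))}) ∧
      (∀ i, σ₁ i ≤ m * θ (ξ v j) * ∑ i ∈ T0 v, L v (ρ j) i) ∧
      ∑ i, σ₁ i = ∑ i, σ (⟨v, h⟩, Sum.inr j) i := by
    intro v j
    by_cases h : v ∈ S
    · exact ⟨R (⟨v, h⟩, Sum.inr j), e (⟨v, h⟩, Sum.inr j), σ (⟨v, h⟩, Sum.inr j), heh _, fun _ =>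
        ⟨heV _, heI _, heS (⟨v, h⟩, Sum.inr j), fun i => hσB (⟨v, h⟩, Sum.inr j) i, rfl⟩⟩
    · exact ⟨0, Fin.elim0, Fin.elim0, fun i => i.elim0, fun h' => absurd h' h⟩
  choose n₂ e₂ σ₂ he₂h he₂ using hf2
  have hver := ver_wi hδ y hy S Hs hH lin Gd T hC ρ hρ
    (fun v j => m * θ (ξ v j) * ∑ i ∈ T0 v, L v (ρ j) i) (fun v hv j => mul_nonneg (mul_nonneg hmR.le (hθ _))
      (Finset.sum_nonneg fun i hi => hL0 v hv _ i hi)) Rp cl
    (fun v hv hl j => ⟨(hcl v hv hl j).1, by rw [(hcl v hv hl j).2.1, (hcl v hv hl j).2.2]⟩) hclN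
    V' hV' n₁ e₁ he₁h (fun v hv g => (he₁ v g hv).2.1)
    (fun v hv g => (he₁ v g hv).1) σ₁ (fun v hv g => (he₁ v g hv).2.2.1)
    n₂ e₂ he₂h (fun v hv j => (he₂ v j hv).2.1)
    (fun v hv j => (he₂ v j hv).1) σ₂ (fun v hv j => (he₂ v j hv).2.2.1) (fun v hv j => (he₂ v j hv).2.2.2.1)
  rw [← Finset.sum_coe_sort S] at hver ⊢
  obtain ⟨w, hw⟩ : ∃ w : Pl k → Fin r → ℝ, w = fun v j =>
    (1 - ((Finset.univ.filter fun j' => cl v j' = j).card : ℝ) / r) := ⟨_, rfl⟩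
  have hw' : ∀ v j, (1 - ((Finset.univ.filter fun j' => cl v j' = j).card : ℝ) / r) = w v j := fun v j => by rw [hw]
  simp only [hw'] at hver ⊢
  -- comparison
  have e1 : ∀ v : S, (if lin v then ((Gd v).card : ℝ) * ∑ g ∈ T v, ∑ i, σ₁ v g i else
      (Fintype.card G : ℝ) ^ 2 * ∑ j ∈ Rp v, (∑ i, σ₂ v j i - w v j * (m * θ (ξ v j) * ∑ i ∈ T0 v, L v (ρ j) i) * finrank k V')) =
      (if lin v then ((Gd v).card : ℝ) * ∑ g ∈ T v, ∑ i, σ (v, Sum.inl g) i else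
        (Fintype.card G : ℝ) ^ 2 * ∑ j ∈ Rp v, ∑ i, σ (v, Sum.inr j) i) -
      finrank k V' * (m * if lin v then 0 else (Fintype.card G : ℝ) ^ 2 * ∑ j ∈ Rp v, w v j * θ (ξ v j) * ∑ i ∈ T0 v, L v (ρ j) i) := by
    intro v
    by_cases hv : lin v
    · rw [if_pos hv, if_pos hv, if_pos hv, mul_zero, mul_zero, sub_zero]
      congr 1
      exact Finset.sum_congr rfl fun g _ => (he₁ v g v.2).2.2.2
    · rw [if_neg hv, if_neg hv, if_neg hv, Finset.sum_sub_distrib, mul_sub]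
      congr 1
      · congr 1
        exact Finset.sum_congr rfl fun j _ => (he₂ v j v.2).2.2.2.2
      · have e4 : ∀ j, w v j * (m * θ (ξ v j) * ∑ i ∈ T0 v, L v (ρ j) i) * finrank k V' =
            finrank k V' * m * (w v j * θ (ξ v j) * ∑ i ∈ T0 v, L v (ρ j) i) := fun j => by ring
        rw [Finset.sum_congr rfl fun j _ => e4 j, ← Finset.mul_sum]
        ring
  rw [Finset.sum_congr rfl fun v _ => e1 v, Finset.sum_sub_distrib, ← Finset.mul_sum, ← Finset.mul_sum] at hver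
  have e2 : ∀ v : S, (if lin v then ((Gd v).card : ℝ) * ∑ g ∈ T v, ((1 - ε) * Eq n 1 * ∑ i ∈ T0 v, L v g i) else
          (Fintype.card G : ℝ) ^ 2 * ∑ j ∈ Rp v, (((1 - ε) * Eq n (θ (ξ v j)) - w v j * θ (ξ v j)) * ∑ i ∈ T0 v, L v (ρ j) i)) =
      (if lin v then ((Gd v).card : ℝ) * ∑ g ∈ T v, ((1 - ε) * Eq n 1 * ∑ i ∈ T0 v, L v g i) else
        (Fintype.card G : ℝ) ^ 2 * ∑ j ∈ Rp v, ((1 - ε) * Eq n (θ (ξ v j)) * ∑ i ∈ T0 v, L v (ρ j) i)) -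
      (if lin v then 0 else (Fintype.card G : ℝ) ^ 2 * ∑ j ∈ Rp v, w v j * θ (ξ v j) * ∑ i ∈ T0 v, L v (ρ j) i) := by
    intro v
    by_cases hv : lin v
    · rw [if_pos hv, if_pos hv, if_pos hv, sub_zero]
    · rw [if_neg hv, if_neg hv, if_neg hv, ← mul_sub, ← Finset.sum_sub_distrib]
      congr 1
      exact Finset.sum_congr rfl fun j _ => by ring
  rw [Finset.sum_congr rfl fun v _ => e2 v, Finset.sum_sub_distrib]
  refine le_of_mul_le_mul_left ?_ (mul_pos hD0 hmR)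
  push_cast at hver
  have e3 : (finrank k V' : ℝ) * m * (Fintype.card G * d) = Fintype.card G * finrank k V' * (d * m) := by ring
  rw [e3, mul_sub, mul_assoc, mul_assoc]
  linarith

end Pool.Agent.SQ
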