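import Pool.Agent.Helper68.ZS.COI
import Pool.Agent.Helper80.LD.COIw

/-!
# The inequality along the ultrafilter, with classes of cosets

As `core_e` of `Pool/Agent/Helper68/ZS/COE.lean` (helper68), from `core_iw`.
-/

set_option autoImplicit false
set_option linter.unusedSectionVars false

namespace Pool.Agent.SQ

open NumberField Filter Module MvPolynomial
open Pool.Agent.Helper64.Vojta (Pl nv sn above)
open Pool.Agent.V2
open Pool.Agent.Chart (fld dg crd hgt)

universe u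

section

variable {k : Type u} [Field k] [NumberField k] {G : Type} [Group G] [Fintype G]

/-- the limits exist -/
private theorem lim80 (D : SqG k G) (F : ℕ → ℝ) : ∃ L : ℝ, (∃ C : ℝ, ∀ a, -C ≤ F a) →
    (∃ K : ℝ, ∀ᶠ a in (D.U : Filter ℕ), F a ≤ K * D.H a) → 0 ≤ L ∧ LB D F L ∧ UB D F L := by
  by_cases h : (∃ C : ℝ, ∀ a, -C ≤ F a) ∧ ∃ K : ℝ, ∀ᶠ a in (D.U : Filter ℕ), F a ≤ K * D.H a
  swap
  · exact ⟨0, fun h1 h2 => absurd ⟨h1, h2⟩ h⟩
  obtain ⟨⟨C, hC⟩, K, hK⟩ := h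
  have h0 : ∀ᶠ a in (D.U : Filter ℕ), 0 ≤ max 0 (F a) / D.H a ∧ max 0 (F a) / D.H a ≤ max 0 K := by
    filter_upwards [hK, D.H1.eventually_gt_atTop 0] with a h1 h2
    refine ⟨div_nonneg (le_max_left _ _) h2.le, ?_⟩
    rw [div_le_iff₀ h2]
    refine max_le (mul_nonneg (le_max_left _ _) h2.le) (h1.trans ?_)
    exact mul_le_mul_of_nonneg_right (le_max_right _ _) h2.le
  have h1 : (Ultrafilter.map (fun a => max 0 (F a) / D.H a) D.U : Filter ℝ) ≤ Filter.principal (Set.Icc 0 (max 0 K)) := by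
    rw [Ultrafilter.coe_map, le_principal_iff, mem_map]
    exact h0
  obtain ⟨L, hL, h2⟩ := isCompact_Icc.ultrafilter_le_nhds (Ultrafilter.map (fun a => max 0 (F a) / D.H a) D.U) h1
  have hT : Tendsto (fun a => max 0 (F a) / D.H a) (D.U : Filter ℕ) (nhds L) := h2
  have hclose : ∀ η : ℝ, 0 < η → ∀ᶠ a in (D.U : Filter ℕ), (L - η) * D.H a ≤ max 0 (F a) ∧ max 0 (F a) ≤ (L + η) * D.H a := by
    intro η hη
    filter_upwards [hT.eventually (Metric.ball_mem_nhds L hη), D.H1.eventually_gt_atTop 0] with a h3 h4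
    rw [Real.dist_eq, abs_lt] at h3
    constructor
    · rw [← le_div_iff₀ h4]
      linarith
    · rw [← div_le_iff₀ h4]
      linarith
  refine ⟨L, fun _ _ => ⟨hL.1, fun η hη => ?_, fun η hη => ?_⟩⟩
  · filter_upwards [hclose (η / 2) (half_pos hη), D.H1.eventually_ge_atTop (max 0 C / (η / 2))] with a h3 h4
    rw [div_le_iff₀ (half_pos hη)] at h4
    have h5 : max 0 (F a) ≤ F a + max 0 C := by
      rcases max_cases 0 (F a) with ⟨h, _⟩ | ⟨h, _⟩ <;> rw [h]
      · have := hC a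
        have := le_max_right 0 C
        linarith
      · have := le_max_left 0 C
        linarith
    have h6 : (L - η) * D.H a = (L - η / 2) * D.H a - D.H a * (η / 2) := by ring
    rw [h6]
    linarith [h3.1]
  · filter_upwards [hclose η hη] with a h3
    exact (le_max_right _ _).trans h3.2

/-- the local values are bounded by the height -/
private theorem up80 {N d : ℕ} {D : SqG k G} (y : ∀ a, Fin (N + 1) → D.L a) (hy : Ptg D y)
    (f : MvPolynomial (Fin (N + 1)) k) (hf : f.IsHomogeneous d) (hyf : ∀ a, aeval (y a) f ≠ 0) (v : Pl k) (g : G) :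
    (∃ C : ℝ, ∀ a, -C ≤ gam (D.s a) (D.N a) (y a) d f v g) ∧
    ∃ K : ℝ, ∀ᶠ a in (D.U : Filter ℕ), gam (D.s a) (D.N a) (y a) d f v g ≤ K * D.H a := by
  obtain ⟨C2, hC2, h2⟩ := gam_ge G f hf {v}
  obtain ⟨C1, h1⟩ := gam_sum G f hf {v}
  have hlow : ∀ a g, -C2 ≤ gam (D.s a) (D.N a) (y a) d f v g := fun a g =>
    h2 (D.L a) (D.s a) (D.N a) (D.qs a) (y a) (hyf a) v (Finset.mem_singleton_self v) g
  refine ⟨⟨C2, fun a => hlow a g⟩, d + 1, ?_⟩
  filter_upwards [D.H1.eventually_ge_atTop (C1 + Fintype.card G * C2)] with a ha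
  have h3 := h1 (D.L a) (D.s a) (D.N a) (D.qs a) (y a) (hy.1 a) (hyf a)
  rw [← hy.2 a, Finset.sum_singleton] at h3
  have h5 : gam (D.s a) (D.N a) (y a) d f v g + C2 ≤ ∑ g, (gam (D.s a) (D.N a) (y a) d f v g + C2) :=
    Finset.single_le_sum (f := fun g => gam (D.s a) (D.N a) (y a) d f v g + C2)
      (fun g _ => by linarith [hlow a g]) (Finset.mem_univ g)
  rw [Finset.sum_add_distrib, Finset.sum_const, Finset.card_univ, nsmul_eq_mul] at h5
  linarith

private theorem ub_zero {D : SqG k G} : UB D (fun _ => 0) 0 := by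
  intro η hη
  filter_upwards [D.H1.eventually_gt_atTop 0] with a h
  rw [zero_add]
  exact (mul_pos hη h).le

private theorem ub_add {D : SqG k G} {F F' : ℕ → ℝ} {L L' : ℝ} (h : UB D F L) (h' : UB D F' L') :
    UB D (fun a => F a + F' a) (L + L') := by
  intro η hη
  filter_upwards [h (η / 2) (half_pos hη), h' (η / 2) (half_pos hη)] with a h1 h2
  have h3 : (L + L' + η) * D.H a = (L + η / 2) * D.H a + (L' + η / 2) * D.H a := by ring
  rw [h3]
  exact add_le_add h1 h2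

private theorem ub_sum {D : SqG k G} {ι : Type*} (s : Finset ι) (F : ι → ℕ → ℝ) (L : ι → ℝ) (h : ∀ i ∈ s, UB D (F i) (L i)) :
    UB D (fun a => ∑ i ∈ s, F i a) (∑ i ∈ s, L i) := by
  classical
  induction s using Finset.induction_on with
  | empty =>
    simp only [Finset.sum_empty]
    exact ub_zero
  | insert i s hi ih =>
    simp only [Finset.sum_insert hi]
    exact ub_add (h i (Finset.mem_insert_self _ _)) (ih fun j hj => h j (Finset.mem_insert_of_mem hj))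

private theorem ub_mul {D : SqG k G} {F : ℕ → ℝ} {L c : ℝ} (hc : 0 ≤ c) (h : UB D F L) : UB D (fun a => c * F a) (c * L) := by
  rcases hc.eq_or_lt with rfl | hc
  · simp only [zero_mul]
    exact ub_zero
  · intro η hη
    filter_upwards [h (η / c) (div_pos hη hc)] with a h1
    have h2 : (c * L + η) * D.H a = c * ((L + η / c) * D.H a) := by
      field_simp
    rw [h2]
    exact mul_le_mul_of_nonneg_left h1 hc.le

omit [Fintype G] in
/-- elements with the same absolute value on the elements fixed by `Hs` -/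
theorem gam_cl80 {L : Type u} [Field L] [Algebra k L] {s : G →* (L ≃ₐ[k] L)} {M : Pl k → L → ℝ} {N : ℕ} {y : Fin (N + 1) → L}
    {d : ℕ} {f : MvPolynomial (Fin (N + 1)) k} {v : Pl k} {Hs : Subgroup G} (hH : ∀ h ∈ Hs, ∀ j, s h (y j) = y j) {g g' : G}
    (hg : ∀ z, (∀ h ∈ Hs, s h z = z) → M v (s g z) = M v (s g' z)) : gam s M y d f v g = gam s M y d f v g' := by
  have h2 : ∀ h ∈ Hs, s h (aeval y f) = aeval y f := fun h hh => by rw [aeval_s63]; simp only [hH h hh]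
  unfold gam
  rw [hg _ h2]
  have h4 : (mxn (M v) fun j => s g (y j)) = mxn (M v) fun j => s g' (y j) := by
    unfold mxn
    exact iSup_congr fun j => hg _ fun h hh => hH h hh j
  rw [h4]

end

/-- **The inequality along the ultrafilter.** The exceptional form `Q` is chosen first; `r'` is the index of `Hs`; types:
`0` potentials, `1` one place, `2` all places. -/
theorem core_ew {k : Type u} [Field k] [NumberField k] {N n d q : ℕ} (hd : 0 < d) (I : Ideal (MvPolynomial (Fin (N + 1)) k))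
    [hIp : I.IsPrime] (hI : ∀ p ∈ I, ∀ m, homogeneousComponent m p ∈ I)
    (hdim : Algebra.trdeg k (MvPolynomial (Fin (N + 1)) k ⧸ I) = n + 1)
    (f : Fin q → MvPolynomial (Fin (N + 1)) k) (hf : ∀ i, (f i).IsHomogeneous d) {Ξ : Type} [Fintype Ξ] {θ : Ξ → ℝ}
    (hθ : ∀ ξ, 0 ≤ θ ξ) (hθ1 : ∀ ξ, θ ξ ≤ 1) {ξ₁ : Ξ} (hξ₁ : θ ξ₁ = 1) {A₀ : ℝ} (hA : 0 < A₀) (hA1 : A₀ ≤ 1)
    {ε : ℝ} (hε : 0 < ε) :
    ∃ Q : MvPolynomial (Fin (N + 1)) k, Q ∉ I ∧ (∃ e, Q.IsHomogeneous e) ∧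
      ∀ {G : Type} [Group G] [Fintype G] {D : SqG k G} (y : ∀ a, Fin (N + 1) → D.L a), Ptg D y →
        (∀ a, ∀ p ∈ I, aeval (y a) p = 0) → (∀ a, aeval (y a) Q ≠ 0) →
        ∀ (S : Finset (Pl k)) (T0 : Pl k → Finset (Fin q)), (∀ v ∈ S, n + 1 ≤ (T0 v).card) →
        (∀ v ∈ S, ∀ J ⊆ T0 v, J.card = n + 1 → ∀ x : Fin (N + 1) → AlgebraicClosure k, (∀ p ∈ I, aeval x p = 0) →
          (∀ i ∈ J, aeval x (f i) = 0) → x = 0) → (∀ a, ∀ v ∈ S, ∀ i ∈ T0 v, aeval (y a) (f i) ≠ 0) →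
        ∀ (Hs : Subgroup G), (∀ a, ∀ h ∈ Hs, ∀ j, D.s a h (y a j) = y a j) → ∀ (g₁ : Pl k → G)
          (Cv Dv : Pl k → Finset G),
          (∀ a, ∀ v ∈ S, ∀ u ∈ Cv v, ∀ z : D.L a, (∀ h ∈ Hs, D.s a h z = z) →
            D.N a v (D.s a (u * g₁ v) z) = D.N a v (D.s a (g₁ v) z)) →
          (∀ a, ∀ v ∈ S, ∀ u ∈ Dv v, ∀ (g : G) (z : D.L a), (∀ h ∈ Hs, D.s a h z = z) →
            D.N a v (D.s a (u * g) z) = D.N a v (D.s a g z)) →
          ∀ {r' : ℕ} (ρ : Fin r' → G), (∀ g, ∃! j, (ρ j)⁻¹ * g ∈ Hs) →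
          ∀ (Rp : Pl k → Finset (Fin r')) (cl : Pl k → Fin r' → Fin r') (ξ : Pl k → Fin r' → Ξ),
          (∀ v ∈ S, ∀ j, cl v j ∈ Rp v ∧ ξ v (cl v j) = ξ v j) →
          (∀ v ∈ S, ∀ j ∈ Rp v, A₀ ≤ Eq n (θ (ξ v j)) -
            (1 - ((Finset.univ.filter fun j' => cl v j' = j).card : ℝ) / r') * θ (ξ v j)) →
          (∀ a, ∀ v ∈ S, ∀ j, ∀ z : D.L a, (∀ h ∈ Hs, D.s a h z = z) →
            D.N a v (D.s a (ρ (cl v j)) z) = D.N a v (D.s a (ρ j) z)) → ∀ ty : Pl k → Fin 3,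
          ∀ᶠ a in (D.U : Filter ℕ), ∑ v ∈ S,
            (if ty v = 0 then (Fintype.card G : ℝ) ^ 2 * ∑ j ∈ Rp v, ((Eq n (θ (ξ v j)) -
                (1 - ((Finset.univ.filter fun j' => cl v j' = j).card : ℝ) / r') * θ (ξ v j)) *
                ∑ i ∈ T0 v, gam (D.s a) (D.N a) (y a) d (f i) v (ρ j))
              else if ty v = 1 then (Cv v).card * Nat.card Hs / (n + 1) *
                ∑ i ∈ T0 v, gam (D.s a) (D.N a) (y a) d (f i) v (g₁ v)
              else (Dv v).card / (n + 1) * ∑ g, ∑ i ∈ T0 v, gam (D.s a) (D.N a) (y a) d (f i) v g) ≤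
            Fintype.card G * (d + ε) * D.H a := by
  classical
  have hd' : (0 : ℝ) < d := by exact_mod_cast hd
  have hn1 : (0 : ℝ) < n + 1 := by positivity
  obtain ⟨u, hu⟩ : ∃ u : ℝ, u = d / (d + ε / 2) := ⟨_, rfl⟩
  have hu0 : 0 < u := by
    rw [hu]
    positivity
  have hu1 : u < 1 := by
    rw [hu, div_lt_one (by positivity)]
    linarith
  have hud : u * (d + ε / 2) = d := by
    rw [hu]
    field_simp
  obtain ⟨ε₁, hε₁⟩ : ∃ ε₁ : ℝ, ε₁ = (1 - u) * A₀ := ⟨_, rfl⟩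
  have hε₁0 : 0 < ε₁ := by
    rw [hε₁]
    exact mul_pos (by linarith) hA
  have hε₁1 : u ≤ 1 - ε₁ := by
    have : (1 - u) * A₀ ≤ (1 - u) * 1 := mul_le_mul_of_nonneg_left hA1 (by linarith)
    linarith
  obtain ⟨Q, hQ, hQh, hcore⟩ := core_iw hd I hI hdim f hf hθ hθ1 hξ₁ hε₁0
  refine ⟨Q, hQ, hQh, ?_⟩
  intro G _ _ D y hy hyI hyQ S T0 hT0 hgp hyf
  choose Lf hLf using fun F => lim80 D F
  obtain ⟨L, hLd⟩ : ∃ L : Pl k → G → Fin q → ℝ, L = fun v g i => Lf fun a => gam (D.s a) (D.N a) (y a) d (f i) v g := ⟨_, rfl⟩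
  have hL3 : ∀ v ∈ S, ∀ g, ∀ i ∈ T0 v, 0 ≤ L v g i ∧ LB D (fun a => gam (D.s a) (D.N a) (y a) d (f i) v g) (L v g i) ∧
      UB D (fun a => gam (D.s a) (D.N a) (y a) d (f i) v g) (L v g i) := by
    intro v hv g i hi
    obtain ⟨h1, h2⟩ := up80 y hy (f i) (hf i) (fun a => hyf a v hv i hi) v g
    rw [hLd]
    exact hLf _ h1 h2
  obtain ⟨Λ, hΛ⟩ : ∃ Λ : Pl k → G → ℝ, Λ = fun v g => ∑ i ∈ T0 v, L v g i := ⟨_, rfl⟩
  have hΛ0 : ∀ v ∈ S, ∀ g, 0 ≤ Λ v g := by
    intro v hv g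
    rw [hΛ]
    exact Finset.sum_nonneg fun i hi => (hL3 v hv g i hi).1
  have hΛu : ∀ v ∈ S, ∀ g, UB D (fun a => ∑ i ∈ T0 v, gam (D.s a) (D.N a) (y a) d (f i) v g) (Λ v g) := by
    intro v hv g
    rw [hΛ]
    exact ub_sum _ _ _ fun i hi => (hL3 v hv g i hi).2.2
  have h1 := hcore y hy hyI hyQ S T0 hT0 hgp hyf L (fun v hv g i hi => (hL3 v hv g i hi).1)
    (fun v hv g i hi => (hL3 v hv g i hi).2.1)
  have hc0 : (0 : ℝ) < Fintype.card G := by exact_mod_cast Fintype.card_pos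
  intro Hs hH g₁ Cv Dv hCv hDv r' ρ hρ Rp cl ξ hcl hAj hclN ty
  obtain ⟨A', hA'⟩ : ∃ A' : Pl k → Fin r' → ℝ, A' = fun v j => Eq n (θ (ξ v j)) -
      (1 - ((Finset.univ.filter fun j' => cl v j' = j).card : ℝ) / r') * θ (ξ v j) := ⟨_, rfl⟩
  have hA'' : ∀ v j, Eq n (θ (ξ v j)) -
      (1 - ((Finset.univ.filter fun j' => cl v j' = j).card : ℝ) / r') * θ (ξ v j) = A' v j := fun v j => by rw [hA']
  have hAA : ∀ v ∈ S, ∀ j ∈ Rp v, A₀ ≤ A' v j := fun v hv j hj => by
    rw [← hA'']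
    exact hAj v hv j hj
  have hA'u : ∀ v ∈ S, ∀ j ∈ Rp v, u * A' v j ≤ (1 - ε₁) * Eq n (θ (ξ v j)) -
      (1 - ((Finset.univ.filter fun j' => cl v j' = j).card : ℝ) / r') * θ (ξ v j) := by
    intro v hv j hj
    have h3 : ε₁ * Eq n (θ (ξ v j)) ≤ ε₁ := by
      have := mul_le_mul_of_nonneg_left ((FinQ.Eq_le (n := n) (hθ (ξ v j)) (hθ1 (ξ v j))).trans (hθ1 _)) hε₁0.le
      linarith
    have h4 : ε₁ ≤ (1 - u) * A' v j := by
      rw [hε₁]
      exact mul_le_mul_of_nonneg_left (hAA v hv j hj) (by linarith)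
    have h5 : (1 - ε₁) * Eq n (θ (ξ v j)) -
        (1 - ((Finset.univ.filter fun j' => cl v j' = j).card : ℝ) / r') * θ (ξ v j) = A' v j - ε₁ * Eq n (θ (ξ v j)) := by
      rw [← hA'']
      ring
    rw [h5]
    linarith
  have hN := h1 Hs hH (fun v => ty v ≠ 0) (fun v => if ty v = 1 then Cv v else Dv v)
    (fun v => if ty v = 1 then Finset.univ.filter fun g => (g₁ v)⁻¹ * g ∈ Hs else Finset.univ) (by
    intro a v hv hl u' hu' g hg z hz
    have hu2 : u' ∈ (if ty v = 1 then Cv v else Dv v) := hu'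
    have hg2 : g ∈ (if ty v = 1 then Finset.univ.filter fun g => (g₁ v)⁻¹ * g ∈ Hs else Finset.univ) := hg
    by_cases h1 : ty v = 1
    · rw [if_pos h1] at hu2 hg2
      have hg' : (g₁ v)⁻¹ * g ∈ Hs := (Finset.mem_filter.1 hg2).2
      have e0 : D.s a g z = D.s a (g₁ v) z := by
        have e1 : g = g₁ v * ((g₁ v)⁻¹ * g) := (mul_inv_cancel_left _ _).symm
        conv_lhs => rw [e1, map_mul]
        show D.s a (g₁ v) (D.s a ((g₁ v)⁻¹ * g) z) = _
        rw [hz _ hg']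
      have e2 : D.s a (u' * g) z = D.s a (u' * g₁ v) z := by
        rw [map_mul, map_mul]
        show D.s a u' (D.s a g z) = D.s a u' (D.s a (g₁ v) z)
        rw [e0]
      rw [e0, e2]
      exact hCv a v hv u' hu2 z hz
    · rw [if_neg h1] at hu2
      exact hDv a v hv u' hu2 g z hz) ρ hρ Rp cl ξ (fun v hv _ j => ⟨(hcl v hv j).1, (hcl v hv j).2, by
        refine Finset.sum_congr rfl fun i _ => ?_
        rw [hLd]
        show Lf _ = Lf _
        congr 1
        funext a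
        exact gam_cl80 (hH a) fun z hz => hclN a v hv j z hz⟩) (fun a v hv _ j z hz => hclN a v hv j z hz)
  obtain ⟨X, hX⟩ : ∃ X : ℝ, X = ∑ v ∈ S, (if ty v = 0 then (Fintype.card G : ℝ) ^ 2 * ∑ j ∈ Rp v, (A' v j * Λ v (ρ j))
      else if ty v = 1 then (Cv v).card * Nat.card Hs / (n + 1) * Λ v (g₁ v)
      else (Dv v).card / (n + 1) * ∑ g, Λ v g) := ⟨_, rfl⟩
  have hub : UB D (fun a => ∑ v ∈ S, (if ty v = 0 then (Fintype.card G : ℝ) ^ 2 * ∑ j ∈ Rp v, (A' v j *
              ∑ i ∈ T0 v, gam (D.s a) (D.N a) (y a) d (f i) v (ρ j))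
            else if ty v = 1 then (Cv v).card * Nat.card Hs / (n + 1) *
              ∑ i ∈ T0 v, gam (D.s a) (D.N a) (y a) d (f i) v (g₁ v)
            else (Dv v).card / (n + 1) * ∑ g, ∑ i ∈ T0 v, gam (D.s a) (D.N a) (y a) d (f i) v g)) X := by
    rw [hX]
    refine ub_sum _ _ _ fun v hv => ?_
    by_cases h0 : ty v = 0
    · simp only [h0, if_true]
      exact ub_mul (by positivity) (ub_sum _ _ _ fun j hj => ub_mul (hA.le.trans (hAA v hv j hj)) (hΛu v hv (ρ j)))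
    · by_cases h1 : ty v = 1
      · simp only [h1, one_ne_zero, if_false, if_true]
        exact ub_mul (div_nonneg (mul_nonneg (Nat.cast_nonneg _) (Nat.cast_nonneg _)) hn1.le) (hΛu v hv (g₁ v))
      · simp only [h0, h1, if_false]
        exact ub_mul (div_nonneg (Nat.cast_nonneg _) hn1.le) (ub_sum _ _ _ fun g _ => hΛu v hv g)
  have hXN : u * X ≤ Fintype.card G * d := by
    refine le_trans ?_ hN
    rw [hX, Finset.mul_sum]
    refine Finset.sum_le_sum fun v hv => ?_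
    have hΛv : ∀ g, ∑ i ∈ T0 v, L v g i = Λ v g := fun g => by rw [hΛ]
    simp only [hΛv]
    by_cases h0 : ty v = 0
    · rw [if_pos h0, if_neg (show ¬ ty v ≠ 0 from fun h => h h0), mul_left_comm, Finset.mul_sum]
      refine mul_le_mul_of_nonneg_left (Finset.sum_le_sum fun j hj => ?_) (sq_nonneg (Fintype.card G : ℝ))
      rw [← mul_assoc]
      exact mul_le_mul_of_nonneg_right (hA'u v hv j hj) (hΛ0 v hv _)
    · rw [if_neg h0, if_pos h0, FinQ.Eq_one]
      by_cases h1 : ty v = 1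
      · have e3 : ∑ g ∈ (if ty v = 1 then Finset.univ.filter fun g => (g₁ v)⁻¹ * g ∈ Hs else Finset.univ),
            (1 - ε₁) * (1 / ((n : ℝ) + 1)) * Λ v g = Nat.card Hs * ((1 - ε₁) * (1 / ((n : ℝ) + 1)) * Λ v (g₁ v)) := by
          rw [if_pos h1]
          have e4 : ∀ g ∈ Finset.univ.filter (fun g => (g₁ v)⁻¹ * g ∈ Hs), (1 - ε₁) * (1 / ((n : ℝ) + 1)) * Λ v g =
              (1 - ε₁) * (1 / ((n : ℝ) + 1)) * Λ v (g₁ v) := by
            intro g hg
            have hg' : (g₁ v)⁻¹ * g ∈ Hs := (Finset.mem_filter.1 hg).2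
            congr 1
            rw [hΛ]
            refine Finset.sum_congr rfl fun i _ => ?_
            rw [hLd]
            show Lf _ = Lf _
            congr 1
            funext a
            have h6 := gam_mul (s := D.s a) (M := D.N a) (y := y a) (d := d) (f := f i) (v := v) (hH a) hg' (g₁ v)
            rwa [mul_inv_cancel_left] at h6
          have e5 : (Finset.univ.filter fun g => (g₁ v)⁻¹ * g ∈ Hs).card = Nat.card Hs := by
            rw [Nat.card_eq_fintype_card, Fintype.card_subtype]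
            refine Finset.card_bij' (fun g _ => (g₁ v)⁻¹ * g) (fun h _ => g₁ v * h) ?_ ?_ ?_ ?_
            · intro g hg
              rw [Finset.mem_filter] at hg ⊢
              exact ⟨Finset.mem_univ _, hg.2⟩
            · intro h hh
              rw [Finset.mem_filter] at hh ⊢
              refine ⟨Finset.mem_univ _, ?_⟩
              rw [inv_mul_cancel_left]
              exact hh.2
            · intro g _
              exact mul_inv_cancel_left _ _
            · intro h _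
              exact inv_mul_cancel_left _ _
          rw [Finset.sum_congr rfl e4, Finset.sum_const, nsmul_eq_mul, e5]
        rw [if_pos h1, e3, if_pos h1]
        have h5 : 0 ≤ ((Cv v).card : ℝ) * (Nat.card Hs * ((1 / ((n : ℝ) + 1)) * Λ v (g₁ v))) := by
          exact mul_nonneg (Nat.cast_nonneg _) (mul_nonneg (Nat.cast_nonneg _)
            (mul_nonneg (one_div_nonneg.2 hn1.le) (hΛ0 v hv (g₁ v))))
        have h6 := mul_le_mul_of_nonneg_right hε₁1 h5
        refine le_trans (le_of_eq ?_) (h6.trans (le_of_eq ?_)) <;> ring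
      · rw [if_neg h1, if_neg h1, if_neg h1, ← Finset.mul_sum]
        have h5 : 0 ≤ ((Dv v).card : ℝ) * ((1 / ((n : ℝ) + 1)) * ∑ g, Λ v g) := by
          exact mul_nonneg (Nat.cast_nonneg _) (mul_nonneg (one_div_nonneg.2 hn1.le)
            (Finset.sum_nonneg fun g _ => hΛ0 v hv g))
        have h6 := mul_le_mul_of_nonneg_right hε₁1 h5
        refine le_trans (le_of_eq ?_) (h6.trans (le_of_eq ?_)) <;> ring
  have hXc : X ≤ Fintype.card G * (d + ε / 2) := by
    refine le_of_mul_le_mul_left (hXN.trans (le_of_eq ?_)) hu0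
    rw [mul_left_comm, hud]
  simp only [hA'']
  filter_upwards [hub (Fintype.card G * (ε / 2)) (by positivity), D.H1.eventually_gt_atTop 0] with a h3 h4
  refine h3.trans (mul_le_mul_of_nonneg_right ?_ h4.le)
  linarith

end Pool.Agent.SQ
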