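import Pool.Agent.Helper67.SQ4.DATAw

/-!
# Places: an element of absolute value not one; a place is determined by a power of its absolute value
-/

set_option autoImplicit false

namespace Pool.Agent.SQ

open NumberField Filter Module MvPolynomial
open Pool.Agent.Helper64.Vojta (Pl nv sn above mem_above above_unique nv_nonneg nv_mul nv_zero nv_pos le_sn sn_pos)

private theorem fin_lt80 {L : Type*} [Field L] [NumberField L] (w : FinitePlace L) (x : 𝓞 L) :
    w (x : L) < 1 ↔ x ∈ w.maximalIdeal.asIdeal := by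
  rw [← FinitePlace.norm_embedding_eq w]
  exact FinitePlace.norm_lt_one_iff_mem L w.maximalIdeal x

private theorem two_fin80 {L : Type*} [Field L] [NumberField L] (u : FinitePlace L) : u ((2 : ℕ) : L) ≤ 1 := by
  have h1 := Pool.Agent.Helper64.Vojta.nv_int_le_one u ((2 : ℕ) : 𝓞 L)
  have h2 : (((2 : ℕ) : 𝓞 L) : L) = ((2 : ℕ) : L) := map_natCast (algebraMap (𝓞 L) L) 2
  rw [h2] at h1
  exact h1

theorem exists_nv_ne80 {L : Type*} [Field L] [NumberField L] (w : Pl L) : ∃ x : L, x ≠ 0 ∧ Real.log (nv w x) ≠ 0 := by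
  rcases w with w | w
  · refine ⟨((2 : ℕ) : L), by norm_num, ?_⟩
    have h1 : nv (.inl w) ((2 : ℕ) : L) = (2 : ℝ) ^ w.mult := by
      show w ((2 : ℕ) : L) ^ w.mult = _
      rw [InfinitePlace.map_natCast]
      norm_num
    rw [h1, Real.log_pow]
    exact mul_ne_zero (by exact_mod_cast w.mult_pos.ne') (Real.log_pos one_lt_two).ne'
  · obtain ⟨x, hx, hx0⟩ := Submodule.exists_mem_ne_zero_of_ne_bot w.maximalIdeal.ne_bot
    have hx0' : (x : L) ≠ 0 := by
      intro h
      apply hx0
      exact_mod_cast h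
    refine ⟨(x : L), hx0', ?_⟩
    have h1 : nv (.inr w) (x : L) < 1 := (fin_lt80 w x).2 hx
    exact (Real.log_neg (nv_pos _ hx0') h1).ne

theorem nv_inj_rpow80 {L : Type*} [Field L] [NumberField L] {w w' : Pl L} {a b : ℝ} (ha : 0 < a) (hb : 0 < b)
    (h : ∀ x, x ≠ 0 → a * Real.log (nv w x) = b * Real.log (nv w' x)) : w = w' := by
  have hinf : ∀ u : InfinitePlace L, Real.log (nv (.inl u) ((2 : ℕ) : L)) = u.mult * Real.log 2 := fun u => by
    show Real.log (u ((2 : ℕ) : L) ^ u.mult) = _
    rw [InfinitePlace.map_natCast, Real.log_pow]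
    norm_num
  have hinf0 : ∀ u : InfinitePlace L, 0 < Real.log (nv (.inl u) ((2 : ℕ) : L)) := fun u => by
    rw [hinf]
    exact mul_pos (by exact_mod_cast u.mult_pos) (Real.log_pos one_lt_two)
  have hfin : ∀ u : FinitePlace L, Real.log (nv (.inr u) ((2 : ℕ) : L)) ≤ 0 := fun u =>
    Real.log_nonpos (nv_nonneg _ _) (two_fin80 u)
  have h2 := h ((2 : ℕ) : L) (by norm_num)
  rcases w with w | w <;> rcases w' with w' | w'
  · rw [hinf, hinf] at h2
    have hl2 := Real.log_pos one_lt_two
    have e1 : a * w.mult = b * w'.mult := by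
      refine mul_right_cancel₀ hl2.ne' ?_
      rw [mul_assoc, mul_assoc, h2]
    have hm : (0 : ℝ) < w.mult := by exact_mod_cast w.mult_pos
    congr 1
    ext x
    by_cases hx : x = 0
    · rw [hx, map_zero, map_zero]
    have h3 : a * Real.log (w x ^ w.mult) = b * Real.log (w' x ^ w'.mult) := h x hx
    rw [Real.log_pow, Real.log_pow, ← mul_assoc, ← mul_assoc, ← e1] at h3
    have h4 := mul_left_cancel₀ (mul_pos ha hm).ne' h3
    have hw : 0 < w x := (InfinitePlace.pos_iff).2 hx
    have hw' : 0 < w' x := (InfinitePlace.pos_iff).2 hx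
    exact Real.log_injOn_pos (Set.mem_Ioi.2 hw) (Set.mem_Ioi.2 hw') h4
  · exfalso
    have h3 := mul_pos ha (hinf0 w)
    have h4 := mul_nonpos_of_nonneg_of_nonpos hb.le (hfin w')
    linarith
  · exfalso
    have h3 := mul_pos hb (hinf0 w')
    have h4 := mul_nonpos_of_nonneg_of_nonpos ha.le (hfin w)
    linarith
  · congr 1
    rw [← FinitePlace.maximalIdeal_inj]
    refine IsDedekindDomain.HeightOneSpectrum.ext (Ideal.ext fun x => ?_)
    rw [← fin_lt80, ← fin_lt80]
    by_cases hx : x = 0
    · rw [hx]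
      simp
    have hx' : (x : L) ≠ 0 := by
      intro h
      apply hx
      exact_mod_cast h
    have h3 := h (x : L) hx'
    have hp : 0 < nv (.inr w) (x : L) := nv_pos _ hx'
    have hp' : 0 < nv (.inr w') (x : L) := nv_pos _ hx'
    show nv (.inr w) (x : L) < 1 ↔ nv (.inr w') (x : L) < 1
    rw [← Real.log_neg_iff hp, ← Real.log_neg_iff hp']
    constructor
    · intro h4
      have h5 := mul_neg_of_pos_of_neg ha h4
      rw [h3] at h5
      exact (pos_iff_neg_of_mul_neg h5).1 hb
    · intro h4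
      have h5 := mul_neg_of_pos_of_neg hb h4
      rw [← h3] at h5
      exact (pos_iff_neg_of_mul_neg h5).1 ha

end Pool.Agent.SQ
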