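import Pool.Agent.Helper67.SQ4.Defs5
import Pool.Agent.Helper80.LD.PLw
import Pool.Agent.Helper61.AD.Tower
import Pool.Agent.Helper16.UP.HtChow
import Pool.Agent.Helper36.SB.Link2
import Pool.Agent.Helper64.QP.Conj

/-!
# Galois closure of the residue field, heights and Weil functions, with the places of the residue field

The beginning is a copy of `Pool/Agent/Helper67/SQ4/DATAw.lean` (helper67).
-/

set_option autoImplicit false

namespace Pool.Agent.SQ

open NumberField Filter Module MvPolynomial
open Pool.Agent.Helper64.Vojta (Pl nv sn above mem_above above_unique nv_nonneg nv_mul nv_zero nv_pos le_sn sn_pos)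
open Pool.Agent.V2
open Pool.Agent.Chart (fld dg crd hgt)

universe u

section places

/-- the place `w' ∘ e` -/
private theorem exists_comp81 {k L L' : Type*} [Field k] [NumberField k] [Field L] [NumberField L] [Field L'] [NumberField L']
    [Algebra k L] [Algebra k L'] (e : L ≃ₐ[k] L') {v : Pl k} {w' : Pl L'} (hw' : w' ∈ above L' v) :
    ∃ w ∈ above L v, ∀ x, nv w' (e x) = nv w x := by
  let alg : Algebra L L' := (e : L →+* L').toAlgebra
  have hfr : finrank L L' = 1 := by
    have hb : Function.Bijective (Algebra.linearMap L L') := e.bijective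
    exact (LinearEquiv.ofBijective (Algebra.linearMap L L') hb).finrank_eq.symm.trans (Module.finrank_self L)
  have hst : IsScalarTower k L L' := IsScalarTower.of_algebraMap_eq fun c => (e.commutes c).symm
  obtain ⟨w, hw⟩ := Pool.Agent.Helper52.Vojta.exists_below (L := L) w'
  obtain ⟨v', hv'⟩ := Pool.Agent.Helper52.Vojta.exists_below (L := k) w
  have h1 := Pool.Agent.Helper61.AD.above_trans hv' hw
  have h2 : v' = v := above_unique (mem_above.1 h1) (mem_above.1 hw')
  rw [h2] at hv'
  exact ⟨w, hv', fun x => Pool.Agent.Helper36.SB.nv_of_degree_one hfr hw x⟩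

variable {k L : Type u} [Field k] [NumberField k] [Field L] [NumberField L] [Algebra k L] [IsGalois k L]

private theorem exists_above81 (L : Type u) [Field L] [NumberField L] [Algebra k L] (v : Pl k) : ∃ w, w ∈ above L v := by
  by_contra hcon
  push Not at hcon
  have h1 := Pool.Agent.Helper52.Vojta.sum_ldeg (L' := L) v
  rw [Finset.sum_eq_zero fun w hw => absurd hw (hcon w)] at h1
  have h2 : FiniteDimensional k L := FiniteDimensional.right ℚ k L
  have h3 : 0 < finrank k L := finrank_pos
  omega

/-- Every place above `v` is `w₀ ∘ g` for the same number of elements `g`. -/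
private theorem fib81 [Fintype (L ≃ₐ[k] L)] {v : Pl k} {w₀ : Pl L} (hw₀ : w₀ ∈ above L v) (π : (L ≃ₐ[k] L) → Pl L)
    (hπ : ∀ g, π g ∈ above L v ∧ ∀ x, nv w₀ (g x) = nv (π g) x) [DecidableEq (Pl L)] {w : Pl L} (hw : w ∈ above L v) :
    (Finset.univ.filter fun g => π g = w).card * (above L v).card = finrank k L := by
  have hfd : FiniteDimensional k L := FiniteDimensional.right ℚ k L
  have hle : ∀ w ∈ above L v, ∀ w' ∈ above L v, (Finset.univ.filter fun g => π g = w).card ≤
      (Finset.univ.filter fun g => π g = w').card := by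
    intro w hw w' hw'
    obtain ⟨σ, hσ⟩ := Pool.Agent.Helper36.SB.exists_gal hw' hw
    refine Finset.card_le_card_of_injOn (fun g => g * σ) ?_ fun a _ b _ h => mul_right_cancel h
    intro g hg
    have hg' : π g = w := by simpa using hg
    have h1 : π (g * σ) = w' := by
      apply Pool.Agent.QP.nv_inj
      intro x
      rw [← (hπ (g * σ)).2 x, ← hσ x, ← hg', ← (hπ g).2]
      rfl
    simpa using h1
  have hcard : ∀ w' ∈ above L v, (Finset.univ.filter fun g => π g = w').card =
      (Finset.univ.filter fun g => π g = w).card := fun w' hw' => le_antisymm (hle w' hw' w hw) (hle w hw w' hw')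
  have hmap : ∀ g ∈ (Finset.univ : Finset (L ≃ₐ[k] L)), π g ∈ above L v := fun g _ => (hπ g).1
  have h3 := Finset.card_eq_sum_card_fiberwise hmap
  rw [Finset.sum_congr rfl hcard, Finset.sum_const, smul_eq_mul, Finset.card_univ, ← Nat.card_eq_fintype_card,
    IsGalois.card_aut_eq_finrank] at h3
  rw [mul_comm]
  exact h3.symm

private theorem equi81 [Fintype (L ≃ₐ[k] L)] {v : Pl k} {w₀ : Pl L} (hw₀ : w₀ ∈ above L v) (π : (L ≃ₐ[k] L) → Pl L)
    (hπ : ∀ g, π g ∈ above L v ∧ ∀ x, nv w₀ (g x) = nv (π g) x) (φ : Pl L → ℝ) :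
    ((above L v).card : ℝ) / finrank k L * ∑ g, φ (π g) = ∑ w ∈ above L v, φ w := by
  classical
  have hfd : FiniteDimensional k L := FiniteDimensional.right ℚ k L
  have hr : (finrank k L : ℝ) ≠ 0 := by exact_mod_cast (finrank_pos (R := k) (M := L)).ne'
  have hmap : ∀ g ∈ (Finset.univ : Finset (L ≃ₐ[k] L)), π g ∈ above L v := fun g _ => (hπ g).1
  rw [← Finset.sum_fiberwise_of_maps_to hmap, Finset.mul_sum]
  refine Finset.sum_congr rfl fun w hw => ?_
  rw [Finset.sum_congr rfl (g := fun _ => φ w) (by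
      intro g hg
      rw [(Finset.mem_filter.1 hg).2]), Finset.sum_const, nsmul_eq_mul, ← mul_assoc]
  have h1 := fib81 hw₀ π hπ hw
  have h4 : ((Finset.univ.filter fun g => π g = w).card : ℝ) * (above L v).card = finrank k L := by exact_mod_cast h1
  rw [div_mul_eq_mul_div, mul_comm ((above L v).card : ℝ), h4, div_self hr, one_mul]

private theorem nv_add81 {L : Type u} [Field L] [NumberField L] (w : Pl L) (x y : L) : nv w (x + y) ≤ 4 * max (nv w x) (nv w y) := by
  have hm0 : 0 ≤ max (nv w x) (nv w y) := (nv_nonneg w x).trans (le_max_left _ _)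
  rcases w with w | w
  · have h1 : w (x + y) ≤ w x + w y := w.1.add_le _ _
    have hx : 0 ≤ w x := apply_nonneg w x
    have hy : 0 ≤ w y := apply_nonneg w y
    have h2 : w (x + y) ≤ 2 * max (w x) (w y) := by
      have := le_max_left (w x) (w y)
      have := le_max_right (w x) (w y)
      linarith
    have h3 : max (w x ^ w.mult) (w y ^ w.mult) = max (w x) (w y) ^ w.mult := by
      rcases le_total (w x) (w y) with h | h
      · rw [max_eq_right h, max_eq_right (pow_le_pow_left₀ hx h _)]
      · rw [max_eq_left h, max_eq_left (pow_le_pow_left₀ hy h _)]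
    have h4 : (2 : ℝ) ^ w.mult ≤ 4 := by
      calc (2 : ℝ) ^ w.mult ≤ 2 ^ 2 := pow_le_pow_right₀ (by norm_num) (Pool.Agent.Helper64.Vojta.mult_le_two w)
        _ = 4 := by norm_num
    show w (x + y) ^ w.mult ≤ 4 * max (w x ^ w.mult) (w y ^ w.mult)
    rw [h3]
    calc w (x + y) ^ w.mult ≤ (2 * max (w x) (w y)) ^ w.mult := pow_le_pow_left₀ (apply_nonneg w _) h2 _
      _ = 2 ^ w.mult * max (w x) (w y) ^ w.mult := mul_pow _ _ _
      _ ≤ 4 * max (w x) (w y) ^ w.mult :=
        mul_le_mul_of_nonneg_right h4 (pow_nonneg (hx.trans (le_max_left _ _)) _)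
  · have h1 : nv (.inr w) (x + y) ≤ max (nv (.inr w) x) (nv (.inr w) y) := FinitePlace.add_le w _ _
    linarith

private theorem max_rpow81 {a b c : ℝ} (ha : 0 ≤ a) (hb : 0 ≤ b) (hc : 0 ≤ c) : max a b ^ c = max (a ^ c) (b ^ c) := by
  rcases le_total a b with h | h
  · rw [max_eq_right h, max_eq_right (Real.rpow_le_rpow ha h hc)]
  · rw [max_eq_left h, max_eq_left (Real.rpow_le_rpow hb h hc)]

private theorem iSup_rpow81 {n : ℕ} (f : Fin (n + 1) → ℝ) (hf : ∀ i, 0 ≤ f i) {c : ℝ} (hc : 0 ≤ c) :
    (⨆ i, f i ^ c) = (⨆ i, f i) ^ c := by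
  apply le_antisymm
  · refine ciSup_le fun i => Real.rpow_le_rpow (hf i) ?_ hc
    exact le_ciSup (Set.finite_range f).bddAbove i
  · obtain ⟨i, hi⟩ := exists_eq_ciSup_of_finite (f := f)
    rw [← hi]
    exact le_ciSup (f := fun i => f i ^ c) (Set.finite_range _).bddAbove i

end places

section galois

variable {k L : Type u} [Field k] [NumberField k] [Field L] [NumberField L] [Algebra k L] [IsGalois k L]

/-- The absolute values. -/
private theorem core81 [Fintype (L ≃ₐ[k] L)] (w₀ : Pl k → Pl L) (hw₀ : ∀ v, w₀ v ∈ above L v) :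
    ∃ (M : Pl k → L → ℝ) (π : Pl k → (L ≃ₐ[k] L) → Pl L),
      (∀ v z, M v z = nv (w₀ v) z ^ (((above L v).card : ℝ) / finrank k L)) ∧
      (∀ v g, π v g ∈ above L v ∧ ∀ z, nv (w₀ v) (g z) = nv (π v g) z) ∧ QSG (MonoidHom.id (L ≃ₐ[k] L)) M ∧
      (∀ (v : Pl k) (z : L), z ≠ 0 → ∑ g : L ≃ₐ[k] L, Real.log (M v (g z)) = ∑ w ∈ above L v, Real.log (nv w z)) ∧
      ∀ (v : Pl k) (N : ℕ) (y : Fin (N + 1) → L), y ≠ 0 → ∑ g : L ≃ₐ[k] L, Real.log (mxn (M v) fun j => g (y j)) =
        ∑ w ∈ above L v, Real.log (sn w y) := by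
  classical
  have hfd : FiniteDimensional k L := FiniteDimensional.right ℚ k L
  have hr0 : 0 < finrank k L := finrank_pos
  have hr : (0 : ℝ) < finrank k L := by exact_mod_cast hr0
  have hex := fun (v : Pl k) (g : L ≃ₐ[k] L) => exists_comp81 g (hw₀ v)
  choose π hπ1 hπ2 using hex
  set c : Pl k → ℝ := fun v => ((above L v).card : ℝ) / finrank k L with hc
  have hc0 : ∀ v, 0 < c v := by
    intro v
    have h1 : 0 < (above L v).card := Finset.card_pos.2 ⟨_, hw₀ v⟩
    have h2 : (0 : ℝ) < (above L v).card := by exact_mod_cast h1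
    exact div_pos h2 hr
  have hc1 : ∀ v, c v ≤ 1 := by
    intro v
    have h1 := Pool.Agent.Helper64.Vojta.card_above_le (L := L) v
    have h2 : ((above L v).card : ℝ) ≤ finrank k L := by exact_mod_cast h1
    exact (div_le_one hr).2 h2
  set M : Pl k → L → ℝ := fun v z => nv (w₀ v) z ^ c v with hM
  have hlog : ∀ v z, z ≠ 0 → Real.log (M v z) = c v * Real.log (nv (w₀ v) z) := fun v z hz =>
    Real.log_rpow (nv_pos _ hz) _
  have hsum : ∀ (v : Pl k) (z : L), z ≠ 0 → ∑ g : L ≃ₐ[k] L, Real.log (M v (g z)) = ∑ w ∈ above L v, Real.log (nv w z) := by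
    intro v z hz
    rw [← equi81 (hw₀ v) (π v) (fun g => ⟨hπ1 v g, hπ2 v g⟩) fun w => Real.log (nv w z), Finset.mul_sum]
    refine Finset.sum_congr rfl fun g _ => ?_
    rw [hlog v _ ((map_ne_zero g).2 hz), hπ2 v g z]
  refine ⟨M, π, fun _ _ => rfl, fun v g => ⟨hπ1 v g, hπ2 v g⟩, ?_, hsum, ?_⟩
  · refine ⟨?_, ?_, ?_, ?_, ?_, ?_, ?_, ?_, ?_⟩
    · intro v
      show nv (w₀ v) 0 ^ c v = 0
      rw [nv_zero, Real.zero_rpow (hc0 v).ne']
    · intro v x hx
      exact Real.rpow_pos_of_pos (nv_pos _ hx) _
    · intro v x y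
      show nv (w₀ v) (x * y) ^ c v = _
      rw [nv_mul, Real.mul_rpow (nv_nonneg _ _) (nv_nonneg _ _)]
    · intro v x y
      show nv (w₀ v) (x + y) ^ c v ≤ 4 * max (nv (w₀ v) x ^ c v) (nv (w₀ v) y ^ c v)
      rw [← max_rpow81 (nv_nonneg _ _) (nv_nonneg _ _) (hc0 v).le]
      have hm : 0 ≤ max (nv (w₀ v) x) (nv (w₀ v) y) := (nv_nonneg _ x).trans (le_max_left _ _)
      calc nv (w₀ v) (x + y) ^ c v ≤ (4 * max (nv (w₀ v) x) (nv (w₀ v) y)) ^ c v :=
            Real.rpow_le_rpow (nv_nonneg _ _) (nv_add81 _ x y) (hc0 v).le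
        _ = 4 ^ c v * max (nv (w₀ v) x) (nv (w₀ v) y) ^ c v := Real.mul_rpow (by norm_num) hm
        _ ≤ 4 * max (nv (w₀ v) x) (nv (w₀ v) y) ^ c v := by
            refine mul_le_mul_of_nonneg_right ?_ (Real.rpow_nonneg hm _)
            calc (4 : ℝ) ^ c v ≤ 4 ^ (1 : ℝ) := Real.rpow_le_rpow_of_exponent_le (by norm_num) (hc1 v)
              _ = 4 := Real.rpow_one 4
    · intro v x y
      show nv (w₀ (.inr v)) (x + y) ^ c (.inr v) ≤ max (nv (w₀ (.inr v)) x ^ c (.inr v)) (nv (w₀ (.inr v)) y ^ c (.inr v))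
      rw [← max_rpow81 (nv_nonneg _ _) (nv_nonneg _ _) (hc0 _).le]
      refine Real.rpow_le_rpow (nv_nonneg _ _) ?_ (hc0 _).le
      have hw := hw₀ (.inr v)
      rcases hww : w₀ (.inr v) with w | w
      · rw [hww] at hw
        exact absurd (mem_above.1 hw) id
      · exact FinitePlace.add_le w _ _
    · intro v z
      by_cases hz : z = 0
      · rw [hz, map_zero, nv_zero]
        show nv (w₀ v) 0 ^ c v = 0
        rw [nv_zero, Real.zero_rpow (hc0 v).ne']
      · have h1 := Pool.Agent.Helper36.SB.gal_log (hw₀ v) z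
        have hz' : algebraMap k L z ≠ 0 := (map_ne_zero _).2 hz
        have h2 : Real.log (M v (algebraMap k L z)) = Real.log (nv v z) := by
          rw [hlog v _ hz', ← h1]
        exact Real.log_injOn_pos (Set.mem_Ioi.2 (Real.rpow_pos_of_pos (nv_pos _ hz') _)) (Set.mem_Ioi.2 (nv_pos _ hz)) h2
    · intro x hx
      have h1 : FinS fun w : Pl L => |Real.log (nv w x)| := by
        have h2 := finS_nv hx
        refine Set.Finite.subset h2 fun w hw => ?_
        rw [Function.mem_support] at hw ⊢
        intro h0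
        have h0' : Real.log (nv (.inr w) x) = 0 := h0
        apply hw
        show |Real.log (nv (.inr w) x)| = 0
        rw [h0', abs_zero]
      have h2 := (Pool.Agent.Helper16.UP.gsum_above (k := k) _ h1).1
      refine Set.Finite.subset h2 fun v hv => ?_
      rw [Function.mem_support] at hv ⊢
      intro h0
      apply hv
      show Real.log (M (.inr v) x) = 0
      rw [hlog _ _ hx]
      have h3 := (Finset.sum_eq_zero_iff_of_nonneg fun w _ => abs_nonneg _).1 h0 _ (hw₀ (.inr v))
      rw [abs_eq_zero.1 h3, mul_zero]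
    · intro x hx
      have h1 : (fun v => ∑ g : L ≃ₐ[k] L, Real.log (M v ((MonoidHom.id (L ≃ₐ[k] L)) g x))) =
          fun v => ∑ w ∈ above L v, Real.log (nv w x) := funext fun v => hsum v x hx
      rw [h1, ← (Pool.Agent.Helper16.UP.gsum_above (k := k) _ (finS_nv hx)).2, gsum_nv hx]
    · intro x hx
      obtain ⟨c, hc⟩ := (IsGalois.mem_range_algebraMap_iff_fixed (F := k) x).2 hx
      exact ⟨c, hc.symm⟩
  · intro v N y hy
    rw [← equi81 (hw₀ v) (π v) (fun g => ⟨hπ1 v g, hπ2 v g⟩) fun w => Real.log (sn w y), Finset.mul_sum]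
    refine Finset.sum_congr rfl fun g _ => ?_
    have h1 : mxn (M v) (fun j => g (y j)) = sn (π v g) y ^ c v := by
      show (⨆ j, nv (w₀ v) (g (y j)) ^ c v) = (⨆ j, nv (π v g) (y j)) ^ c v
      rw [iSup_rpow81 _ (fun j => nv_nonneg _ _) (hc0 v).le]
      congr 1
      exact congrArg iSup (funext fun j => hπ2 v g (y j))
    rw [h1, Real.log_rpow (sn_pos _ hy)]

end galois

open Pool.Agent.Helper52.Vojta (ldeg nv_above)

/-- the number of different families `(V ∘ σ restricted to k(x))`, `σ` in the Galois group, for the places `V` above `v` of the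
Galois closure of `k(x)` -/
noncomputable def gfam {k : Type u} [Field k] [NumberField k] {N : ℕ} (x : Fin N → AlgebraicClosure k) (v : Pl k) : ℕ :=
  haveI : NumberField (gal x) := numField_gal x
  Nat.card (Set.range fun (V : above (gal x) v) (σ : gal x ≃ₐ[k] gal x) (z : fld x) =>
    nv V.1 (σ (IntermediateField.inclusion (IntermediateField.le_normalClosure (fld x)) z)))

theorem data_ld {k : Type u} [Field k] [NumberField k] {N : ℕ} (x : Fin (N + 1) → AlgebraicClosure k) (h1 : ∃ j, x j = 1) :
    ∃ (y : Fin (N + 1) → gal x) (M : Pl k → gal x → ℝ) (_ : Fintype (gal x ≃ₐ[k] gal x)) (Hs : Subgroup (gal x ≃ₐ[k] gal x))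
      (p : Pl k → (gal x ≃ₐ[k] gal x) → Pl (fld x)), (∀ j, (y j : AlgebraicClosure k) = x j) ∧
      QSG (MonoidHom.id (gal x ≃ₐ[k] gal x)) M ∧
      finrank k (gal x) * hgt x = Hg (MonoidHom.id (gal x ≃ₐ[k] gal x)) M y ∧
      (∀ h ∈ Hs, ∀ j, h (y j) = y j) ∧ Nat.card Hs * dg x = finrank k (gal x) ∧
      (∀ v g, p v g ∈ above (fld x) v) ∧
      (∀ v, ∀ w ∈ above (fld x) v, Nat.card {g // p v g = w} = Nat.card Hs * ldeg v w) ∧
      (∀ v g, ∀ h ∈ Hs, p v (g * h) = p v g) ∧
      (∀ v g g', p v g = p v g' → ∀ z : gal x, (∀ h ∈ Hs, h z = z) → M v (g z) = M v (g' z)) ∧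
      (∀ v, Nat.card {u // ∀ g, p v (u * g) = p v g} * gfam x v = finrank k (gal x)) ∧
      ∀ (v : Pl k) (g : gal x ≃ₐ[k] gal x) (d : ℕ) (f : MvPolynomial (Fin (N + 1)) k), aeval (crd x) f ≠ 0 →
        dg x * lamW d f x (p v g) =
          ldeg v (p v g) * (d * Real.log (mxn (M v) fun j => g (y j)) - Real.log (M v (g (aeval y f)))) := by
  classical
  have hF : FiniteDimensional k (fld x) := FiniteDimensional.right ℚ k (fld x)
  have hfd : FiniteDimensional k (gal x) := by
    unfold gal
    infer_instance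
  have hgal : IsGalois k (gal x) := by
    unfold gal
    infer_instance
  have h0 : CharZero (gal x) := charZero_of_injective_algebraMap (algebraMap k (gal x)).injective
  have hQ : FiniteDimensional ℚ (gal x) := Module.Finite.trans k (gal x)
  have hnf : NumberField (gal x) := { to_charZero := h0, to_finiteDimensional := hQ }
  let alg : Algebra (fld x) (gal x) := normalClosure.algebra k (fld x) (AlgebraicClosure k)
  have hst : IsScalarTower k (fld x) (gal x) := by
    unfold gal
    infer_instance
  have hcoe : ∀ z : fld x, ((algebraMap (fld x) (gal x) z : gal x) : AlgebraicClosure k) = z := fun z => rfl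
  have hft : Fintype (gal x ≃ₐ[k] gal x) := Fintype.ofFinite _
  have hgalF : IsGalois (fld x) (gal x) := IsGalois.tower_top_of_isGalois k (fld x) (gal x)
  have hfF : FiniteDimensional (fld x) (gal x) := FiniteDimensional.right k (fld x) (gal x)
  -- a place above `v`
  have hex := fun v : Pl k => exists_above81 (k := k) (gal x) v
  choose w₀ hw₀ using hex
  obtain ⟨M, π, hMdef, hπ, hQS, hM1, hM2⟩ := core81 (k := k) (L := gal x) w₀ hw₀
  set y : Fin (N + 1) → gal x := fun j => algebraMap (fld x) (gal x) (crd x j) with hy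
  have hcrd : crd x ≠ 0 := by
    obtain ⟨j, hj⟩ := h1
    intro h
    have h2 := congrFun h j
    have h3 : ((crd x j : fld x) : AlgebraicClosure k) = x j := rfl
    rw [h2, hj] at h3
    exact zero_ne_one h3
  have hy0 : y ≠ 0 := by
    intro h
    apply hcrd
    funext j
    have h2 := congrFun h j
    have h3 : algebraMap (fld x) (gal x) (crd x j) = 0 := h2
    exact (map_eq_zero _).1 h3
  have hmul : dg x * finrank (fld x) (gal x) = finrank k (gal x) := Module.finrank_mul_finrank k (fld x) (gal x)
  have hdeg : (finrank k (gal x) : ℝ) = dg x * finrank (fld x) (gal x) := by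
    rw [← hmul]
    push_cast
    rfl
  have hdg0 : 0 < dg x := by
    have h2 : 0 < finrank k (fld x) := finrank_pos
    exact h2
  have hdg : (dg x : ℝ) ≠ 0 := by exact_mod_cast hdg0.ne'
  have hfk0 : (0 : ℝ) < finrank k (gal x) := by exact_mod_cast finrank_pos
  have hfF0 : (0 : ℝ) < finrank (fld x) (gal x) := by exact_mod_cast finrank_pos
  have hcv0 : ∀ v : Pl k, (0 : ℝ) < (above (gal x) v).card := by
    intro v
    exact_mod_cast Finset.card_pos.2 ⟨_, hw₀ v⟩
  -- the group of `gal x / fld x`
  set E : IntermediateField k (gal x) := (IsScalarTower.toAlgHom k (fld x) (gal x)).fieldRange with hE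
  have hEmem : ∀ z : fld x, algebraMap (fld x) (gal x) z ∈ E := fun z => ⟨z, rfl⟩
  have hEfix : ∀ z : gal x, (∀ h ∈ E.fixingSubgroup, h z = z) → ∃ z' : fld x, algebraMap (fld x) (gal x) z' = z := by
    intro z hz
    have h2 : z ∈ IntermediateField.fixedField E.fixingSubgroup := by
      rw [IntermediateField.mem_fixedField_iff]
      exact hz
    rw [IsGalois.fixedField_fixingSubgroup] at h2
    obtain ⟨z', hz'⟩ := h2
    exact ⟨z', hz'⟩
  have hHcard : Nat.card E.fixingSubgroup * dg x = finrank k (gal x) := by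
    rw [IsGalois.card_fixingSubgroup_eq_finrank E]
    have h2 : finrank k E = dg x := by
      have h3 : (fld x) ≃ₐ[k] E := AlgEquiv.ofInjectiveField (IsScalarTower.toAlgHom k (fld x) (gal x))
      exact h3.toLinearEquiv.finrank_eq.symm
    rw [mul_comm, ← h2]
    exact Module.finrank_mul_finrank k E (gal x)
  have hHcard' : Nat.card E.fixingSubgroup = finrank (fld x) (gal x) := by
    refine Nat.eq_of_mul_eq_mul_right hdg0 ?_
    rw [hHcard, ← hmul, mul_comm]
  -- the fibres
  have hfib : ∀ v, ∀ w' ∈ above (gal x) v, (Finset.univ.filter fun g => π v g = w').card * (above (gal x) v).card =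
      finrank k (gal x) := fun v w' hw' => fib81 (hw₀ v) (π v) (hπ v) hw'
  -- the places of `fld x`
  have hbel : ∀ (v : Pl k) (g : gal x ≃ₐ[k] gal x), ∃ w ∈ above (fld x) v, π v g ∈ above (gal x) w := by
    intro v g
    obtain ⟨w1, hw1⟩ := Pool.Agent.Helper52.Vojta.exists_below (L := fld x) (π v g)
    obtain ⟨v', hv'⟩ := Pool.Agent.Helper52.Vojta.exists_below (L := k) w1
    have h1 := Pool.Agent.Helper61.AD.above_trans hv' hw1
    have h2 : v' = v := above_unique (mem_above.1 h1) (mem_above.1 (hπ v g).1)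
    rw [h2] at hv'
    exact ⟨w1, hv', hw1⟩
  choose p hp hpπ using hbel
  have hpw : ∀ v g w, π v g ∈ above (gal x) w ↔ p v g = w := by
    intro v g w
    refine ⟨fun h => above_unique (mem_above.1 (hpπ v g)) (mem_above.1 h), fun h => ?_⟩
    rw [← h]
    exact hpπ v g
  have hcF0 : ∀ v g, (0 : ℝ) < (above (gal x) (p v g)).card := by
    intro v g
    exact_mod_cast Finset.card_pos.2 ⟨_, hpπ v g⟩
  -- local degrees
  have hldeg : ∀ v : Pl k, ∀ w ∈ above (fld x) v, ∀ w' ∈ above (gal x) w, ((above (gal x) w).card : ℝ) / finrank (fld x) (gal x) =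
      ldeg v w * (((above (gal x) v).card : ℝ) / finrank k (gal x)) := by
    intro v w hw w' hw'
    obtain ⟨a, ha0, ha⟩ := exists_nv_ne80 v
    have h2 := Pool.Agent.Helper36.SB.gal_log (Pool.Agent.Helper61.AD.above_trans hw hw') a
    have h3 := Pool.Agent.Helper36.SB.gal_log hw' (algebraMap k (fld x) a)
    rw [nv_above hw, Real.log_pow, ← h2, ← IsScalarTower.algebraMap_apply k (fld x) (gal x) a, ← mul_assoc] at h3
    have h4 : Real.log (nv w' (algebraMap k (gal x) a)) ≠ 0 := by
      intro h5
      rw [h5, mul_zero] at h2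
      exact ha h2.symm
    exact mul_right_cancel₀ h4 h3
  have hcount : ∀ v : Pl k, ∀ w ∈ above (fld x) v, (Finset.univ.filter fun g => p v g = w).card =
      finrank (fld x) (gal x) * ldeg v w := by
    intro v w hw
    obtain ⟨w', hw'⟩ := exists_above81 (k := fld x) (gal x) w
    have hmap : ∀ g ∈ Finset.univ.filter (fun g => p v g = w), π v g ∈ above (gal x) w := fun g hg =>
      (hpw v g w).2 (Finset.mem_filter.1 hg).2
    have h3 := Finset.card_eq_sum_card_fiberwise hmap
    have h4 : ∀ w'' ∈ above (gal x) w, ((Finset.univ.filter (fun g => p v g = w)).filter fun g => π v g = w'').card *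
        (above (gal x) v).card = finrank k (gal x) := by
      intro w'' hw''
      rw [← hfib v w'' (Pool.Agent.Helper61.AD.above_trans hw hw'')]
      congr 2
      ext g
      simp only [Finset.mem_filter, Finset.mem_univ, true_and]
      constructor
      · exact fun h => h.2
      · intro h
        refine ⟨(hpw v g w).1 ?_, h⟩
        rw [h]
        exact hw''
    have h5 : (Finset.univ.filter fun g => p v g = w).card * (above (gal x) v).card =
        (above (gal x) w).card * finrank k (gal x) := by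
      rw [h3, Finset.sum_mul, Finset.sum_congr rfl h4, Finset.sum_const, smul_eq_mul]
    have h6 := hldeg v w hw w' hw'
    have h7 : (((Finset.univ.filter fun g => p v g = w).card : ℕ) : ℝ) * (above (gal x) v).card =
        (above (gal x) w).card * finrank k (gal x) := by exact_mod_cast h5
    have h8 : (((Finset.univ.filter fun g => p v g = w).card : ℕ) : ℝ) = finrank (fld x) (gal x) * ldeg v w := by
      have h9 := hcv0 v
      rw [div_eq_iff hfF0.ne'] at h6
      rw [h6] at h7
      refine mul_right_cancel₀ h9.ne' (h7.trans ?_)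
      field_simp
    exact_mod_cast h8
  -- the values on `fld x`
  have hval : ∀ v g (z : fld x), z ≠ 0 → ldeg v (p v g) * Real.log (M v (g (algebraMap (fld x) (gal x) z))) =
      Real.log (nv (p v g) z) := by
    intro v g z hz
    have h2 := Pool.Agent.Helper36.SB.gal_log (hpπ v g) z
    have hz' : algebraMap (fld x) (gal x) z ≠ 0 := (map_ne_zero _).2 hz
    rw [← h2, hldeg v _ (hp v g) _ (hpπ v g), hMdef, (hπ v g).2, Real.log_rpow (nv_pos _ hz')]
    ring
  have hvaln : ∀ v g (y' : Fin (N + 1) → fld x), y' ≠ 0 →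
      ldeg v (p v g) * Real.log (mxn (M v) fun j => g (algebraMap (fld x) (gal x) (y' j))) = Real.log (sn (p v g) y') := by
    intro v g y' hy'
    have h2 := Pool.Agent.Helper36.SB.gal_log_sn (hpπ v g) y'
    have h3 : (fun j => algebraMap (fld x) (gal x) (y' j)) ≠ 0 := by
      intro h
      apply hy'
      funext j
      have h4 := congrFun h j
      exact (map_eq_zero _).1 h4
    have h5 : (mxn (M v) fun j => g (algebraMap (fld x) (gal x) (y' j))) =
        sn (π v g) (fun j => algebraMap (fld x) (gal x) (y' j)) ^ (((above (gal x) v).card : ℝ) / finrank k (gal x)) := by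
      show (⨆ j, M v (g (algebraMap (fld x) (gal x) (y' j)))) = (⨆ j, nv (π v g) (algebraMap (fld x) (gal x) (y' j))) ^ _
      rw [← iSup_rpow81 _ (fun j => nv_nonneg _ _) (div_pos (hcv0 v) hfk0).le]
      congr 1
      funext j
      rw [hMdef, (hπ v g).2]
    rw [← h2, hldeg v _ (hp v g) _ (hpπ v g), h5, Real.log_rpow (sn_pos _ h3)]
    ring
  have hlpos : ∀ v g, (0 : ℝ) < ldeg v (p v g) := by
    intro v g
    have h2 := Pool.Agent.QP.ldeg_ne_zero (hp v g)
    exact_mod_cast Nat.pos_of_ne_zero h2
  have hMpos : ∀ v (z : gal x), z ≠ 0 → 0 < M v z := fun v z hz => hQS.pos v z hz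
  have hpeq : ∀ v g g', p v g = p v g' → ∀ z : fld x,
      M v (g (algebraMap (fld x) (gal x) z)) = M v (g' (algebraMap (fld x) (gal x) z)) := by
    intro v g g' h z
    by_cases hz : z = 0
    · rw [hz, map_zero, map_zero, map_zero]
    have h2 := hval v g z hz
    have h3 := hval v g' z hz
    rw [← h] at h3
    have h4 := mul_left_cancel₀ (hlpos v g).ne' (h2.trans h3.symm)
    have hz' : algebraMap (fld x) (gal x) z ≠ 0 := (map_ne_zero _).2 hz
    exact Real.log_injOn_pos (Set.mem_Ioi.2 (hMpos v _ ((map_ne_zero g).2 hz'))) (Set.mem_Ioi.2 (hMpos v _ ((map_ne_zero g').2 hz'))) h4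
  have hpeq' : ∀ v g g', (∀ z : fld x, M v (g (algebraMap (fld x) (gal x) z)) = M v (g' (algebraMap (fld x) (gal x) z))) →
      p v g = p v g' := by
    intro v g g' h
    refine nv_inj_rpow80 (hlpos v g') (hlpos v g) fun z hz => ?_
    rw [← hval v g z hz, ← hval v g' z hz, h z]
    ring
  have hph : ∀ v g, ∀ h ∈ E.fixingSubgroup, p v (g * h) = p v g := by
    intro v g h hh
    refine hpeq' v _ _ fun z => ?_
    have h2 : h (algebraMap (fld x) (gal x) z) = algebraMap (fld x) (gal x) z := hh ⟨_, hEmem z⟩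
    show M v (g (h _)) = _
    rw [h2]
  refine ⟨y, M, hft, E.fixingSubgroup, p, fun j => rfl, hQS, ?_, ?_, hHcard, hp, ?_, hph, ?_, ?_, ?_⟩
  · have h2 : Hg (MonoidHom.id (gal x ≃ₐ[k] gal x)) M y = Height.logHeight y := by
      unfold Hg
      have h3 : (fun v => ∑ g : gal x ≃ₐ[k] gal x, Real.log (mxn (M v) fun j => (MonoidHom.id (gal x ≃ₐ[k] gal x)) g (y j))) =
          fun v => ∑ w ∈ above (gal x) v, Real.log (sn w y) := funext fun v => hM2 v N y hy0
      have h4 : FinS fun w : Pl (gal x) => Real.log (sn w y) :=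
        Pool.Agent.Helper64.Vojta.log_support _ (Pool.Agent.Helper64.Vojta.fin_support_sn hy0)
      rw [h3, ← (Pool.Agent.Helper16.UP.gsum_above (k := k) _ h4).2, Pool.Agent.Helper64.Vojta.logHeight_eq hy0]
      rfl
    rw [h2, hy, Pool.Agent.Helper52.Vojta.logHeight_algebraMap hcrd, hdeg]
    unfold hgt
    field_simp
  · intro h hh j
    exact hh ⟨y j, hEmem _⟩
  · intro v w hw
    rw [Nat.card_eq_fintype_card, Fintype.card_subtype, hcount v w hw, hHcard']
  · intro v g g' h z hz
    obtain ⟨z', rfl⟩ := hEfix z hz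
    exact hpeq v g g' h z'
  · intro v
    let K : Finset (gal x ≃ₐ[k] gal x) := Finset.univ.filter fun u => ∀ g, p v (u * g) = p v g
    let F : (gal x ≃ₐ[k] gal x) → (gal x ≃ₐ[k] gal x) → fld x → ℝ := fun u σ z => nv (π v u) (σ (algebraMap (fld x) (gal x) z))
    have hFM : ∀ u σ z, M v ((u * σ) (algebraMap (fld x) (gal x) z)) =
        F u σ z ^ (((above (gal x) v).card : ℝ) / finrank k (gal x)) := by
      intro u σ z
      rw [hMdef]
      congr 1
      exact (hπ v u).2 _
    have hF0 : ∀ u σ z, 0 ≤ F u σ z := fun u σ z => nv_nonneg _ _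
    have hcc : 0 < ((above (gal x) v).card : ℝ) / finrank k (gal x) := div_pos (hcv0 v) hfk0
    have hFF : ∀ u u', F u = F u' ↔ u' * u⁻¹ ∈ K := by
      intro u u'
      have e1 : F u = F u' ↔ ∀ σ, p v (u * σ) = p v (u' * σ) := by
        constructor
        · intro h σ
          refine hpeq' v _ _ fun z => ?_
          rw [hFM, hFM, h]
        · intro h
          funext σ z
          have h2 := hpeq v _ _ (h σ) z
          rw [hFM, hFM] at h2
          exact (Real.rpow_left_inj (hF0 _ _ _) (hF0 _ _ _) hcc.ne').1 h2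
      rw [e1]
      simp only [K, Finset.mem_filter, Finset.mem_univ, true_and]
      constructor
      · intro h g
        have h2 := h (u⁻¹ * g)
        rw [mul_inv_cancel_left] at h2
        rw [mul_assoc, ← h2]
      · intro h σ
        have h2 := h (u * σ)
        rw [mul_assoc, inv_mul_cancel_left] at h2
        exact h2.symm
    have hrange : Set.range (fun (V : above (gal x) v) (σ : gal x ≃ₐ[k] gal x) (z : fld x) =>
        nv V.1 (σ (IntermediateField.inclusion (IntermediateField.le_normalClosure (fld x)) z))) = Set.range F := by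
      ext φ
      constructor
      · rintro ⟨⟨V, hV⟩, rfl⟩
        have h2 := hfib v V hV
        have h3 : (Finset.univ.filter fun g => π v g = V).Nonempty := by
          rw [Finset.nonempty_iff_ne_empty]
          intro h
          rw [h, Finset.card_empty, zero_mul] at h2
          have h4 : 0 < finrank k (gal x) := finrank_pos
          omega
        obtain ⟨u, hu⟩ := h3
        refine ⟨u, ?_⟩
        have hu' : π v u = V := (Finset.mem_filter.1 hu).2
        funext σ z
        show nv (π v u) _ = nv V _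
        rw [hu']
        rfl
      · rintro ⟨u, rfl⟩
        exact ⟨⟨π v u, (hπ v u).1⟩, rfl⟩
    have hcard : K.card * Nat.card (Set.range F) = finrank k (gal x) := by
      have h2 : Fintype.card (gal x ≃ₐ[k] gal x) = ∑ φ ∈ Finset.univ.image F, (Finset.univ.filter fun u => F u = φ).card := by
        rw [← Finset.card_univ]
        exact Finset.card_eq_sum_card_fiberwise fun u _ => Finset.mem_image_of_mem F (Finset.mem_univ u)
      have h3 : ∀ φ ∈ Finset.univ.image F, (Finset.univ.filter fun u => F u = φ).card = K.card := by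
        intro φ hφ
        obtain ⟨u, -, rfl⟩ := Finset.mem_image.1 hφ
        refine Finset.card_bij' (fun u' _ => u' * u⁻¹) (fun g _ => g * u) ?_ ?_ ?_ ?_
        · intro u' hu'
          exact (hFF u u').1 (Finset.mem_filter.1 hu').2.symm
        · intro g hg
          rw [Finset.mem_filter]
          refine ⟨Finset.mem_univ _, ((hFF u (g * u)).2 ?_).symm⟩
          rwa [mul_inv_cancel_right]
        · intro u' _
          exact inv_mul_cancel_right _ _
        · intro g _
          exact mul_inv_cancel_right _ _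
      rw [Finset.sum_congr rfl h3, Finset.sum_const, smul_eq_mul] at h2
      have h4 : Nat.card (Set.range F) = (Finset.univ.image F).card := by
        rw [← Set.ncard_coe_finset, Finset.coe_image, Finset.coe_univ, Set.image_univ]
        rfl
      rw [h4, mul_comm, ← h2, ← Nat.card_eq_fintype_card, IsGalois.card_aut_eq_finrank]
    have h5 : Nat.card {u // ∀ g, p v (u * g) = p v g} = K.card := by
      rw [Nat.card_eq_fintype_card, Fintype.card_subtype]
    have h6 : gfam x v = Nat.card (Set.range F) := by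
      rw [← hrange]
      rfl
    rw [h5, h6, hcard]
  · intro v g d f hf
    have h2 : aeval y f = algebraMap (fld x) (gal x) (aeval (crd x) f) := by
      have h3 := MvPolynomial.aeval_algebraMap_apply (A := fld x) (gal x) (crd x) f
      exact h3
    rw [mul_sub, mul_left_comm, hvaln v g (crd x) hcrd, h2, hval v g _ hf]
    unfold lamW
    rw [mul_div_cancel₀ _ hdg]

end Pool.Agent.SQ
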