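import Pool.Agent.Helper67.SQ4.SEQw
import Pool.Agent.Helper80.LD.DATw

/-!
# A subsequence with constant group, subgroup and classes of cosets

After `Pool/Agent/Helper67/SQ4/SEQw.lean` (helper67, helper4).
-/

set_option autoImplicit false

namespace Pool.Agent.SQ

open NumberField Filter Module MvPolynomial
open Pool.Agent.Helper64.Vojta (Pl nv sn above)
open Pool.Agent.Helper52.Vojta (ldeg)
open Pool.Agent.V2
open Pool.Agent.Chart (fld dg crd hgt)

universe u

theorem exists_seq_ld {k : Type u} [Field k] [NumberField k] {N r : ℕ} (x : ℕ → Fin (N + 1) → AlgebraicClosure k)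
    (h1 : ∀ a, ∃ j, x a j = 1) (hr : ∀ a, dg (x a) ≤ r) (w : ∀ a, Pl k → Pl (fld (x a)))
    (hw : ∀ a v, w a v ∈ above (fld (x a)) v) (S : Finset (Pl k)) :
    ∃ (G : Type) (_ : Group G) (_ : Fintype G) (Hs : Subgroup G) (R : Pl k → G → G → Prop) (g₁ : Pl k → G) (φ : ℕ → ℕ),
      StrictMono φ ∧
      (∀ a, Nat.card Hs * dg (x (φ a)) = Fintype.card G) ∧
      (∀ a, ∀ v ∈ S, Nat.card {u : G // ∀ g, R v (u * g) g} * gfam (x (φ a)) v = Fintype.card G) ∧
      ∃ (y : ∀ a, Fin (N + 1) → gal (x (φ a))) (M : ∀ a, Pl k → gal (x (φ a)) → ℝ)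
        (s : ∀ a, G →* (gal (x (φ a)) ≃ₐ[k] gal (x (φ a)))) (p : ∀ a, Pl k → G → Pl (fld (x (φ a)))),
        (∀ a j, (y a j : AlgebraicClosure k) = x (φ a) j) ∧ (∀ a, QSG (s a) (M a)) ∧
        (∀ a, (Fintype.card G : ℝ) * hgt (x (φ a)) = Hg (s a) (M a) (y a)) ∧
        (∀ a, ∀ h ∈ Hs, ∀ j, s a h (y a j) = y a j) ∧
        (∀ a, ∀ v ∈ S, ∀ g g', R v g g' ↔ p a v g = p a v g') ∧
        (∀ a, ∀ v ∈ S, p a v (g₁ v) = w (φ a) v) ∧
        (∀ a v g, p a v g ∈ above (fld (x (φ a))) v) ∧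
        (∀ a v, ∀ w ∈ above (fld (x (φ a))) v, Nat.card {g // p a v g = w} = Nat.card Hs * ldeg v w) ∧
        (∀ a v g, ∀ h ∈ Hs, p a v (g * h) = p a v g) ∧
        (∀ a v g g', p a v g = p a v g' → ∀ z : gal (x (φ a)), (∀ h ∈ Hs, s a h z = z) →
          M a v (s a g z) = M a v (s a g' z)) ∧
        ∀ (a : ℕ) (v : Pl k) (g : G) (d : ℕ) (f : MvPolynomial (Fin (N + 1)) k), aeval (crd (x (φ a))) f ≠ 0 →
          dg (x (φ a)) * lamW d f (x (φ a)) (p a v g) =
            ldeg v (p a v g) * (d * Real.log (mxn (M a v) fun j => s a g (y a j)) - Real.log (M a v (s a g (aeval (y a) f)))) := by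
  classical
  have h5 := fun a => data_ld (x a) (h1 a)
  choose y M ft Hs' p' h6 h7 h8 hfix hcard' hpa hpc hph hpM hgf h9 using h5
  have key : ∀ a, ∃ t : (Σ c : Fin (r.factorial + 1), (FinG c → FinG c → FinG c) × (FinG c → Prop) ×
      (S → FinG c → FinG c → Prop) × (S → FinG c)),
      finrank k (gal (x a)) = t.1 ∧
      ∃ e : FinG t.1 ≃ (gal (x a) ≃ₐ[k] gal (x a)), (∀ i j, e (t.2.1 i j) = e i * e j) ∧
        (∀ i, t.2.2.1 i ↔ e i ∈ Hs' a) ∧ (∀ (v : S) i j, t.2.2.2.1 v i j ↔ p' a v (e i) = p' a v (e j)) ∧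
        ∀ v : S, p' a v (e (t.2.2.2.2 v)) = w a v := by
    intro a
    have h2 := fing_finDim (x a)
    have h3 := fing_isGalois (x a)
    have h4 : Nat.card (gal (x a) ≃ₐ[k] gal (x a)) = finrank k (gal (x a)) := IsGalois.card_aut_eq_finrank k _
    have h5 : Finite (gal (x a) ≃ₐ[k] gal (x a)) := inferInstance
    have e0 : FinG (finrank k (gal (x a))) ≃ (gal (x a) ≃ₐ[k] gal (x a)) :=
      ((Finite.equivFin _).trans (finCongr h4)).symm
    have hex : ∀ v : Pl k, ∃ g, p' a v g = w a v := by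
      intro v
      have h10 := hpc a v (w a v) (hw a v)
      have h11 : 0 < Nat.card {g // p' a v g = w a v} := by
        rw [h10]
        exact Nat.mul_pos Nat.card_pos (Nat.pos_of_ne_zero (Pool.Agent.QP.ldeg_ne_zero (hw a v)))
      obtain ⟨⟨g, hg⟩⟩ := (Nat.card_pos_iff.1 h11).1
      exact ⟨g, hg⟩
    choose g1 hg1 using hex
    refine ⟨⟨⟨finrank k (gal (x a)), Nat.lt_succ_of_le ((finrank_gal_le (x a)).trans (Nat.factorial_le (hr a)))⟩,
      fun i j => e0.symm (e0 i * e0 j), fun i => e0 i ∈ Hs' a, fun v i j => p' a v (e0 i) = p' a v (e0 j),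
      fun v => e0.symm (g1 v)⟩, rfl, e0,
      fun i j => ?_, fun i => Iff.rfl, fun v i j => Iff.rfl, fun v => ?_⟩
    · exact e0.apply_symm_apply _
    · show p' a v (e0 (e0.symm (g1 v))) = w a v
      rw [e0.apply_symm_apply, hg1]
  choose σ hσ using key
  have hfin : Finite (Σ c : Fin (r.factorial + 1), (FinG c → FinG c → FinG c) × (FinG c → Prop) ×
      (S → FinG c → FinG c → Prop) × (S → FinG c)) := by
    have : ∀ c : Fin (r.factorial + 1), Finite ((FinG c → FinG c → FinG c) × (FinG c → Prop) ×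
        (S → FinG c → FinG c → Prop) × (S → FinG c)) :=
      fun c => inferInstance
    infer_instance
  obtain ⟨t, ht⟩ := Finite.exists_infinite_fiber σ
  have h2 : ∃ᶠ a in atTop, σ a = t := by
    rw [Nat.frequently_atTop_iff_infinite]
    exact Set.infinite_coe_iff.1 ht
  obtain ⟨φ, hφ, hφt⟩ := extraction_of_frequently_atTop h2
  obtain ⟨⟨c, hc⟩, tb, sH, sR, sg⟩ := t
  have h3 : ∀ a, finrank k (gal (x (φ a))) = c ∧
      ∃ e : FinG c ≃ (gal (x (φ a)) ≃ₐ[k] gal (x (φ a))), (∀ i j, e (tb i j) = e i * e j) ∧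
        (∀ i, sH i ↔ e i ∈ Hs' (φ a)) ∧ (∀ (v : S) i j, sR v i j ↔ p' (φ a) v (e i) = p' (φ a) v (e j)) ∧
        ∀ v : S, p' (φ a) v (e (sg v)) = w (φ a) v := by
    intro a
    have := hσ (φ a)
    rw [hφt a] at this
    exact this
  obtain ⟨hc0, e0, he0, -⟩ := h3 0
  let gr : Group (FinG c) := e0.group
  have hcard : Fintype.card (FinG c) = c := Fintype.card_fin c
  have hmul : ∀ i j : FinG c, i * j = tb i j := by
    intro i j
    apply e0.injective
    rw [he0]
    exact e0.apply_symm_apply _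
  have h4 : ∀ a, ∃ e : FinG c ≃* (gal (x (φ a)) ≃ₐ[k] gal (x (φ a))), (∀ i, sH i ↔ e i ∈ Hs' (φ a)) ∧
      (∀ (v : S) i j, sR v i j ↔ p' (φ a) v (e i) = p' (φ a) v (e j)) ∧
        ∀ v : S, p' (φ a) v (e (sg v)) = w (φ a) v := by
    intro a
    obtain ⟨-, e, he, he1, he2, he3⟩ := h3 a
    exact ⟨MulEquiv.mk' e fun i j => by rw [hmul, he], he1, he2, he3⟩
  choose e heH heR heg using h4
  let Hs : Subgroup (FinG c) := (Hs' (φ 0)).comap (e 0).toMonoidHom
  have hHs : ∀ a i, i ∈ Hs ↔ e a i ∈ Hs' (φ a) := by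
    intro a i
    rw [← heH a i, heH 0 i]
    rfl
  let R : Pl k → FinG c → FinG c → Prop := fun v i j => if hv : v ∈ S then sR ⟨v, hv⟩ i j else True
  have hR1 : ∀ a, ∀ v ∈ S, ∀ i j, R v i j ↔ p' (φ a) v (e a i) = p' (φ a) v (e a j) := by
    intro a v hv i j
    simp only [R, dif_pos hv]
    exact heR a ⟨v, hv⟩ i j
  let g₁ : Pl k → FinG c := fun v => if hv : v ∈ S then sg ⟨v, hv⟩ else 1
  have hg₁ : ∀ a, ∀ v ∈ S, p' (φ a) v (e a (g₁ v)) = w (φ a) v := by
    intro a v hv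
    simp only [g₁, dif_pos hv]
    exact heg a ⟨v, hv⟩
  have hHc : ∀ a, Nat.card Hs = Nat.card (Hs' (φ a)) := by
    intro a
    exact Nat.card_congr ((e a).toEquiv.subtypeEquiv (hHs a))
  refine ⟨FinG c, gr, inferInstance, Hs, R, g₁, φ, hφ, ?_, ?_, fun a => y (φ a), fun a => M (φ a),
    fun a => (e a).toMonoidHom, fun a v g => p' (φ a) v (e a g), fun a => h6 (φ a), ?_, ?_, ?_, hR1, hg₁,
    fun a v g => hpa (φ a) v _, ?_, ?_, ?_, ?_⟩
  · intro a
    rw [hHc a, hcard' (φ a), (h3 a).1, hcard]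
  · intro a v hv
    have h10 := hgf (φ a) v
    have h11 : Nat.card {u : FinG c // ∀ g, R v (u * g) g} = Nat.card {u // ∀ g, p' (φ a) v (u * g) = p' (φ a) v g} := by
      refine Nat.card_congr ((e a).toEquiv.subtypeEquiv fun u => ?_)
      constructor
      · intro h g
        have h10 := (hR1 a v hv _ _).1 (h ((e a).symm g))
        rw [map_mul, (e a).apply_symm_apply] at h10
        exact h10
      · intro h g
        rw [hR1 a v hv, map_mul]
        exact h (e a g)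
    rw [h11, h10, (h3 a).1]
    exact hcard.symm
  · intro a
    exact (h7 (φ a)).comp_equiv (e a)
  · intro a
    have h11 := h8 (φ a)
    rw [(h3 a).1] at h11
    rw [hcard, h11]
    exact (Hg_comp_equiv (MonoidHom.id _) (M (φ a)) (e a) (y (φ a))).symm
  · intro a h hh j
    exact hfix (φ a) (e a h) ((hHs a h).1 hh) j
  · intro a v w hw
    rw [hHc a, ← hpc (φ a) v w hw]
    exact Nat.card_congr ((e a).toEquiv.subtypeEquiv fun u => Iff.rfl)
  · intro a v g h hh
    show p' (φ a) v (e a (g * h)) = _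
    rw [map_mul]
    exact hph (φ a) v (e a g) (e a h) ((hHs a h).1 hh)
  · intro a v g g' h z hz
    refine hpM (φ a) v (e a g) (e a g') h z fun h hh => ?_
    have h11 := hz ((e a).symm h) ((hHs a _).2 (by rwa [MulEquiv.apply_symm_apply]))
    have h12 : (e a).toMonoidHom ((e a).symm h) = h := (e a).apply_symm_apply h
    rwa [h12] at h11
  · intro a v g d f hf
    exact h9 (φ a) v (e a g) d f hf

end Pool.Agent.SQ
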