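import Pool.Agent.Helper67.SQ4.Defs5

/-!
# The constants for the places of the residue field
-/

set_option autoImplicit false

namespace Pool.Agent.SQ

/-- the inverse of the constant for a place with the quotient `s` of the degree and the local degree -/
noncomputable def cnq (n : ℕ) (s : ℝ) : ℝ := (1 - n * (s - 1) * (1 - (1 - 1 / s) ^ (1 / (n : ℝ)))) / (n + 1)

private theorem rt80 {n : ℕ} (hn : 0 < n) {s : ℝ} (hs : 1 ≤ s) :
    ∃ ρ : ℝ, ρ = (1 - 1 / s) ^ (1 / (n : ℝ)) ∧ 0 ≤ ρ ∧ ρ ≤ 1 ∧ s * ρ ^ n = s - 1 ∧ n * (s - 1) * (1 - ρ) < 1 := by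
  have hs0 : 0 < s := by linarith
  have h1 : 0 ≤ 1 - 1 / s := by
    rw [sub_nonneg, div_le_one hs0]
    exact hs
  have h2 : 1 - 1 / s ≤ 1 := by
    have : 0 ≤ 1 / s := by positivity
    linarith
  obtain ⟨ρ, hρ⟩ : ∃ ρ, ρ = (1 - 1 / s) ^ (1 / (n : ℝ)) := ⟨_, rfl⟩
  have hρ0 : 0 ≤ ρ := by
    rw [hρ]
    exact Real.rpow_nonneg h1 _
  have hρ1 : ρ ≤ 1 := by
    rw [hρ]
    exact Real.rpow_le_one h1 h2 (by positivity)
  have hρn : ρ ^ n = 1 - 1 / s := by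
    rw [hρ, ← Real.rpow_natCast, ← Real.rpow_mul h1, one_div_mul_cancel (by positivity), Real.rpow_one]
  have hρs : s * ρ ^ n = s - 1 := by
    rw [hρn]
    field_simp
  refine ⟨ρ, hρ, hρ0, hρ1, hρs, ?_⟩
  rcases hρ0.eq_or_lt with h | h
  · rw [← h, zero_pow hn.ne', mul_zero] at hρs
    rw [← hρs]
    simp
  · have h3 := one_add_mul_le_pow (a := ρ⁻¹ - 1) (by
      have : 0 ≤ ρ⁻¹ := inv_nonneg.2 hρ0
      linarith) n
    rw [add_sub_cancel, inv_pow] at h3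
    have h4 : 0 < ρ ^ n := pow_pos h n
    have h5 : (1 + n * (ρ⁻¹ - 1)) * (ρ ^ n * s) ≤ s := by
      refine (mul_le_mul_of_nonneg_right h3 (by positivity)).trans (le_of_eq ?_)
      field_simp
    rw [mul_comm (ρ ^ n) s, hρs] at h5
    have h6 : (1 + n * (ρ⁻¹ - 1)) * (s - 1) * ρ = (ρ + n * (1 - ρ)) * (s - 1) := by
      field_simp
    have h7 := mul_le_mul_of_nonneg_right h5 hρ0
    rw [h6] at h7
    have hρ1' : ρ < 1 := by
      rcases hρ1.eq_or_lt with h8 | h8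
      · rw [h8, one_pow] at hρn
        have : 0 < 1 / s := by positivity
        linarith
      · exact h8
    nlinarith

theorem cnq_zero (s : ℝ) : cnq 0 s = 1 := by
  unfold cnq
  simp

theorem cnq_pos {n : ℕ} {s : ℝ} (hs : 1 ≤ s) : 0 < cnq n s := by
  rcases Nat.eq_zero_or_pos n with h0 | h0
  · subst h0
    rw [cnq_zero]
    exact one_pos
  · obtain ⟨ρ, h1, -, -, -, h2⟩ := rt80 h0 hs
    unfold cnq
    rw [← h1]
    exact div_pos (by linarith) (by positivity)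

theorem cnq_le {n : ℕ} {s : ℝ} (hs : 1 ≤ s) : cnq n s ≤ 1 / (n + 1) := by
  rcases Nat.eq_zero_or_pos n with h0 | h0
  · subst h0
    rw [cnq_zero]
    simp
  · obtain ⟨ρ, h1, -, h3, -, h2⟩ := rt80 h0 hs
    unfold cnq
    rw [← h1]
    refine div_le_div_of_nonneg_right ?_ (by positivity)
    have : 0 ≤ n * (s - 1) * (1 - ρ) := mul_nonneg (mul_nonneg (Nat.cast_nonneg _) (by linarith)) (by linarith)
    linarith

theorem cnq_ex (n : ℕ) {s : ℝ} (hs : 1 ≤ s) : ∃ θ : ℝ, 0 ≤ θ ∧ θ ≤ 1 ∧ Eq n θ - (1 - 1 / s) * θ = cnq n s / s := by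
  have hs0 : 0 < s := by linarith
  rcases Nat.eq_zero_or_pos n with h0 | h0
  · subst h0
    refine ⟨1, zero_le_one, le_rfl, ?_⟩
    rw [cnq_zero]
    unfold Eq
    simp
  · obtain ⟨ρ, h1, h2, h3, h4, -⟩ := rt80 h0 hs
    refine ⟨1 - ρ, by linarith, by linarith, ?_⟩
    have h5 : s * ρ ^ (n + 1) = (s - 1) * ρ := by rw [pow_succ, ← mul_assoc, h4]
    have hn : (n : ℝ) + 1 ≠ 0 := by positivity
    rw [eq_div_iff hs0.ne']
    unfold Eq cnq
    rw [sub_sub_cancel, ← h1]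
    have h6 : ((1 - ρ ^ (n + 1)) / (n + 1) - (1 - 1 / s) * (1 - ρ)) * s =
        (s - s * ρ ^ (n + 1)) / (n + 1) - (s - 1) * (1 - ρ) := by
      field_simp
    rw [h6, h5]
    field_simp
    ring

theorem cnq_one (n : ℕ) : cnq n 1 = 1 / (n + 1) := by
  unfold cnq
  simp

end Pool.Agent.SQ
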