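import Pool.Agent.Helper33.LD.WA

/-!
# Project LD, block T: one more level of Haar functions
-/

set_option autoImplicit false

namespace Pool.Agent.Helper80.LD.T

open Set MeasureTheory Pool.Agent.Helper41.LD

variable {θ : ℝ} {c : ℕ → ℝ}

/-! ## hyperbolic cosines -/

theorem cosh_half (x y : ℝ) : Real.cosh ((x + y) / 2) + Real.cosh ((x - y) / 2) ≤ Real.cosh x + Real.cosh y := by
  have h1 : Real.cosh ((x + y) / 2) + Real.cosh ((x - y) / 2) = 2 * (Real.cosh (x / 2) * Real.cosh (y / 2)) := by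
    rw [add_div, sub_div, Real.cosh_add, Real.cosh_sub]
    ring
  have hx : Real.cosh x = 2 * Real.cosh (x / 2) ^ 2 - 1 := by
    have h2 := Real.cosh_two_mul (x / 2)
    have h3 := Real.cosh_sq (x / 2)
    rw [mul_div_cancel₀ x two_ne_zero] at h2
    linarith
  have hy : Real.cosh y = 2 * Real.cosh (y / 2) ^ 2 - 1 := by
    have h2 := Real.cosh_two_mul (y / 2)
    have h3 := Real.cosh_sq (y / 2)
    rw [mul_div_cancel₀ y two_ne_zero] at h2
    linarith
  have h4 := Real.one_le_cosh (x / 2)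
  have h5 := Real.one_le_cosh (y / 2)
  rw [h1, hx, hy]
  nlinarith [sq_nonneg (Real.cosh (x / 2) - Real.cosh (y / 2))]

theorem cosh_add_le {x y z : ℝ} (h : |y - x| ≤ z) : Real.cosh y ≤ Real.exp z * Real.cosh x := by
  have h1 := abs_le.1 h
  rw [Real.cosh_eq, Real.cosh_eq]
  have h2 : Real.exp y ≤ Real.exp z * Real.exp x := by
    rw [← Real.exp_add]
    exact Real.exp_le_exp.2 (by linarith)
  have h3 : Real.exp (-y) ≤ Real.exp z * Real.exp (-x) := by
    rw [← Real.exp_add]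
    exact Real.exp_le_exp.2 (by linarith)
  have h4 : Real.exp z * ((Real.exp x + Real.exp (-x)) / 2) = (Real.exp z * Real.exp x + Real.exp z * Real.exp (-x)) / 2 := by
    ring
  rw [h4]
  linarith

theorem cosh_le_of {x y z : ℝ} (h : |y| ≤ |x| + z) (hz : 0 ≤ z) : Real.cosh y ≤ Real.exp z * Real.cosh x := by
  rw [← Real.cosh_abs y, ← Real.cosh_abs x]
  by_cases hxy : |y| ≤ |x|
  · have h1 : Real.cosh |y| ≤ Real.cosh |x| := Real.cosh_le_cosh.2 (by rw [abs_abs, abs_abs]; exact hxy)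
    have h2 := Real.one_le_exp hz
    have h3 := Real.one_le_cosh |x|
    nlinarith
  · push Not at hxy
    exact cosh_add_le (by rw [abs_of_pos (by linarith)]; linarith)

theorem sum_double (m : ℕ) (f : ℕ → ℝ) : ∑ i ∈ Finset.range (2 * m), f i = ∑ i ∈ Finset.range m, (f (2 * i) + f (2 * i + 1)) := by
  induction m with
  | zero => simp
  | succ m ih =>
    rw [show 2 * (m + 1) = 2 * m + 1 + 1 by ring, Finset.sum_range_succ, Finset.sum_range_succ, ih, Finset.sum_range_succ]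
    ring

/-! ## the counts -/

theorem ind_split (k i : ℕ) (t : ℝ) : ind k i t = ind (k + 1) (2 * i) t + ind (k + 1) (2 * i + 1) t := by
  unfold ind
  have h0 : (2 : ℝ) ^ (k + 1) * Int.fract t = 2 * ((2 : ℝ) ^ k * Int.fract t) := by rw [pow_succ]; ring
  rw [h0]
  set y : ℝ := (2 : ℝ) ^ k * Int.fract t with hy
  have h1 := Int.floor_le y
  have h2 := Int.lt_floor_add_one y
  have h3 := Int.floor_le (2 * y)
  have h4 := Int.lt_floor_add_one (2 * y)
  have h5 : 2 * ⌊y⌋ ≤ ⌊2 * y⌋ := by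
    rw [Int.le_floor]
    push_cast
    linarith
  have h6 : ⌊2 * y⌋ < 2 * ⌊y⌋ + 2 := by
    rw [Int.floor_lt]
    push_cast
    linarith
  by_cases h : ⌊y⌋ = (i : ℤ)
  · rw [if_pos h]
    by_cases h' : ⌊2 * y⌋ = ((2 * i : ℕ) : ℤ)
    · rw [if_pos h', if_neg (by rw [h']; push_cast; omega)]
      norm_num
    · rw [if_neg h', if_pos (by push_cast at h' ⊢; omega)]
      norm_num
  · rw [if_neg h, if_neg (by push_cast; omega), if_neg (by push_cast; omega)]
    norm_num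

theorem ind_zero (t : ℝ) : ind 0 0 t = 1 := by
  unfold ind
  rw [if_pos]
  rw [pow_zero, one_mul]
  simp

/-- mean number of visits, minus the expected number -/
noncomputable def cn (θ : ℝ) (c : ℕ → ℝ) (n k i : ℕ) (a ℓ : ℝ) : ℝ :=
  ∑ j ∈ Finset.range n, av (fun x => ind k i (u θ c j x)) a ℓ - n * (1 / 2) ^ k

/-- the Haar sum -/
noncomputable def hh (θ : ℝ) (c : ℕ → ℝ) (n k i : ℕ) (a ℓ : ℝ) : ℝ := ∑ j ∈ Finset.range n, A θ c k i j a ℓ

theorem ii_ind_u (k i j : ℕ) (a b : ℝ) : IntervalIntegrable (fun x => ind k i (u θ c j x)) volume a b := by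
  refine Pool.Agent.Helper33.LD.ii_of_bdd ((Pool.Agent.Helper33.LD.measurable_ind k i).comp ?_) (fun t => ?_) a b
  · unfold u
    fun_prop
  · show |ind k i (u θ c j t)| ≤ 1
    rw [abs_of_nonneg (Pool.Agent.Helper33.LD.ind_nonneg k i _)]
    exact Pool.Agent.Helper33.LD.ind_le_one k i _

theorem av_even (k i j : ℕ) (a ℓ : ℝ) : av (fun x => ind (k + 1) (2 * i) (u θ c j x)) a ℓ =
    (av (fun x => ind k i (u θ c j x)) a ℓ + A θ c k i j a ℓ) / 2 := by
  unfold A av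
  have h1 : ∀ x, ind (k + 1) (2 * i) (u θ c j x) = (ind k i (u θ c j x) + haar k i (u θ c j x)) / 2 := by
    intro x
    rw [ind_split k i]
    unfold haar
    ring
  simp_rw [h1]
  rw [intervalIntegral.integral_div, intervalIntegral.integral_add (ii_ind_u k i j _ _) (Pool.Agent.Helper33.LD.ii_u k i j _ _)]
  ring

theorem av_odd (k i j : ℕ) (a ℓ : ℝ) : av (fun x => ind (k + 1) (2 * i + 1) (u θ c j x)) a ℓ =
    (av (fun x => ind k i (u θ c j x)) a ℓ - A θ c k i j a ℓ) / 2 := by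
  unfold A av
  have h1 : ∀ x, ind (k + 1) (2 * i + 1) (u θ c j x) = (ind k i (u θ c j x) - haar k i (u θ c j x)) / 2 := by
    intro x
    rw [ind_split k i]
    unfold haar
    ring
  simp_rw [h1]
  rw [intervalIntegral.integral_div, intervalIntegral.integral_sub (ii_ind_u k i j _ _) (Pool.Agent.Helper33.LD.ii_u k i j _ _)]
  ring

theorem cn_even (n k i : ℕ) (a ℓ : ℝ) : cn θ c n (k + 1) (2 * i) a ℓ = (cn θ c n k i a ℓ + hh θ c n k i a ℓ) / 2 := by
  unfold cn hh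
  simp_rw [av_even]
  rw [← Finset.sum_div, Finset.sum_add_distrib, pow_succ]
  ring

theorem cn_odd (n k i : ℕ) (a ℓ : ℝ) : cn θ c n (k + 1) (2 * i + 1) a ℓ = (cn θ c n k i a ℓ - hh θ c n k i a ℓ) / 2 := by
  unfold cn hh
  simp_rw [av_odd]
  rw [← Finset.sum_div, Finset.sum_sub_distrib, pow_succ]
  ring

theorem cn_zero (n : ℕ) (a : ℝ) {ℓ : ℝ} (hℓ : 0 < ℓ) : cn θ c n 0 0 a ℓ = 0 := by
  unfold cn av
  simp_rw [ind_zero]
  rw [intervalIntegral.integral_const, add_sub_cancel_left, smul_eq_mul, mul_one, div_self hℓ.ne']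
  simp

theorem sum_cn (n : ℕ) (a : ℝ) {ℓ : ℝ} (hℓ : 0 < ℓ) (lam : ℝ) (K : ℕ) :
    ∑ i ∈ Finset.range (2 ^ K), Real.cosh (lam * cn θ c n K i a ℓ) ≤
      1 + ∑ p ∈ idx K, Real.cosh (lam * hh θ c n p.1 p.2 a ℓ) := by
  unfold idx
  rw [Finset.sum_sigma]
  induction K with
  | zero => simp [cn_zero n a hℓ]
  | succ K ih =>
    rw [Finset.sum_range_succ (fun k => ∑ i ∈ Finset.range (2 ^ k), Real.cosh (lam * hh θ c n k i a ℓ)), ← add_assoc]
    have h1 : ∑ i ∈ Finset.range (2 ^ (K + 1)), Real.cosh (lam * cn θ c n (K + 1) i a ℓ) =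
        ∑ i ∈ Finset.range (2 ^ K), (Real.cosh (lam * cn θ c n (K + 1) (2 * i) a ℓ) +
          Real.cosh (lam * cn θ c n (K + 1) (2 * i + 1) a ℓ)) := by
      rw [show 2 ^ (K + 1) = 2 * 2 ^ K by ring]
      exact sum_double _ fun i => Real.cosh (lam * cn θ c n (K + 1) i a ℓ)
    rw [h1]
    have h2 : ∀ i ∈ Finset.range (2 ^ K), Real.cosh (lam * cn θ c n (K + 1) (2 * i) a ℓ) +
        Real.cosh (lam * cn θ c n (K + 1) (2 * i + 1) a ℓ) ≤
        Real.cosh (lam * cn θ c n K i a ℓ) + Real.cosh (lam * hh θ c n K i a ℓ) := by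
      intro i _
      rw [cn_even, cn_odd]
      have h3 := cosh_half (lam * cn θ c n K i a ℓ) (lam * hh θ c n K i a ℓ)
      rw [show lam * ((cn θ c n K i a ℓ + hh θ c n K i a ℓ) / 2) =
        (lam * cn θ c n K i a ℓ + lam * hh θ c n K i a ℓ) / 2 by ring,
        show lam * ((cn θ c n K i a ℓ - hh θ c n K i a ℓ) / 2) =
        (lam * cn θ c n K i a ℓ - lam * hh θ c n K i a ℓ) / 2 by ring]
      exact h3
    refine (Finset.sum_le_sum h2).trans ?_
    rw [Finset.sum_add_distrib]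
    linarith

theorem hh_le_cn (n k i : ℕ) (a : ℝ) {ℓ : ℝ} (hℓ : 0 < ℓ) : |hh θ c n k i a ℓ| ≤ |cn θ c n k i a ℓ| + n * (1 / 2) ^ k := by
  have h1 : |hh θ c n k i a ℓ| ≤ ∑ j ∈ Finset.range n, av (fun x => ind k i (u θ c j x)) a ℓ := by
    unfold hh
    refine (Finset.abs_sum_le_sum_abs _ _).trans (Finset.sum_le_sum fun j _ => ?_)
    unfold A av
    rw [abs_div, abs_of_pos hℓ]
    refine div_le_div_of_nonneg_right ?_ hℓ.le
    have h2 : |∫ x in a..(a + ℓ), haar k i (u θ c j x)| ≤ ∫ x in a..(a + ℓ), |haar k i (u θ c j x)| :=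
      intervalIntegral.abs_integral_le_integral_abs (by linarith)
    refine h2.trans (intervalIntegral.integral_mono_on (by linarith) (Pool.Agent.Helper33.LD.ii_u k i j _ _).abs
      (ii_ind_u k i j _ _) fun x _ => ?_)
    rw [ind_split k i]
    unfold haar
    have h3 := Pool.Agent.Helper33.LD.ind_nonneg (k + 1) (2 * i) (u θ c j x)
    have h4 := Pool.Agent.Helper33.LD.ind_nonneg (k + 1) (2 * i + 1) (u θ c j x)
    rw [abs_le]
    constructor <;> linarith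
  have h2 : ∑ j ∈ Finset.range n, av (fun x => ind k i (u θ c j x)) a ℓ = cn θ c n k i a ℓ + n * (1 / 2) ^ k := by
    unfold cn
    ring
  rw [h2] at h1
  linarith [le_abs_self (cn θ c n k i a ℓ)]

/-! ## the pending variances -/

theorem var_nonneg (ψ : ℝ → ℝ) (a : ℝ) {ℓ : ℝ} (hℓ : 0 < ℓ) : 0 ≤ var ψ a ℓ := by
  unfold var
  rw [show av (fun x => (ψ x - av ψ a ℓ) ^ 2) a ℓ = (∫ x in a..(a + ℓ), (ψ x - av ψ a ℓ) ^ 2) / ℓ from rfl]
  exact div_nonneg (intervalIntegral.integral_nonneg (by linarith) fun x _ => sq_nonneg _) hℓ.le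

theorem var_haar_le (k i j : ℕ) (a : ℝ) {ℓ : ℝ} (hℓ : 0 < ℓ) : var (fun x => haar k i (u θ c j x)) a ℓ ≤ 1 := by
  set ψ : ℝ → ℝ := fun x => haar k i (u θ c j x) with hψ
  have hψm : Measurable ψ := by
    refine (Pool.Agent.Helper33.LD.measurable_haar k i).comp ?_
    unfold u
    fun_prop
  have hψ1 : ∀ x, |ψ x| ≤ 1 := fun x => Pool.Agent.Helper33.LD.haar_abs k i _
  have hi1 : IntervalIntegrable ψ volume a (a + ℓ) := Pool.Agent.Helper33.LD.ii_of_bdd hψm hψ1 _ _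
  have hi2 : IntervalIntegrable (fun x => ψ x ^ 2) volume a (a + ℓ) :=
    Pool.Agent.Helper33.LD.ii_of_bdd (hψm.pow_const 2) (fun x => by
      rw [abs_of_nonneg (sq_nonneg _), ← sq_abs]
      exact pow_le_one₀ (abs_nonneg _) (hψ1 x)) _ _
  set m : ℝ := av ψ a ℓ with hm
  have hmi : ∫ x in a..(a + ℓ), ψ x = m * ℓ := by
    rw [hm]
    unfold av
    field_simp
  have h1 : ∫ x in a..(a + ℓ), (ψ x - m) ^ 2 = (∫ x in a..(a + ℓ), ψ x ^ 2) - m ^ 2 * ℓ := by
    have h2 : ∀ x, (ψ x - m) ^ 2 = ψ x ^ 2 - (2 * m) * ψ x + m ^ 2 := fun x => by ring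
    simp_rw [h2]
    rw [intervalIntegral.integral_add (hi2.sub (hi1.const_mul _)) (by simp), intervalIntegral.integral_sub hi2 (hi1.const_mul _),
      intervalIntegral.integral_const_mul, hmi, intervalIntegral.integral_const, add_sub_cancel_left, smul_eq_mul]
    ring
  have h3 : ∫ x in a..(a + ℓ), ψ x ^ 2 ≤ ℓ := by
    calc ∫ x in a..(a + ℓ), ψ x ^ 2 ≤ ∫ x in a..(a + ℓ), (1 : ℝ) :=
          intervalIntegral.integral_mono_on (by linarith) hi2 (by simp) fun x _ => by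
            rw [← sq_abs]
            exact pow_le_one₀ (abs_nonneg _) (hψ1 x)
      _ = ℓ := by rw [intervalIntegral.integral_const, add_sub_cancel_left, smul_eq_mul, mul_one]
  show av (fun x => (ψ x - m) ^ 2) a ℓ ≤ 1
  rw [show av (fun x => (ψ x - m) ^ 2) a ℓ = (∫ x in a..(a + ℓ), (ψ x - m) ^ 2) / ℓ from rfl, div_le_one hℓ, h1]
  have h4 : 0 ≤ m ^ 2 * ℓ := by positivity
  linarith

theorem W_nonneg (n r k i : ℕ) {a ℓ : ℝ} (hℓ : 0 < ℓ) : 0 ≤ W θ c n r k i a ℓ := by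
  unfold W
  exact mul_nonneg (Nat.cast_nonneg r) (Finset.sum_nonneg fun j _ => var_nonneg _ a hℓ)

theorem W_le (n r k i : ℕ) {a ℓ : ℝ} (hℓ : 0 < ℓ) : W θ c n r k i a ℓ ≤ (r : ℝ) ^ 2 := by
  unfold W
  have h1 : ∑ j ∈ Finset.Ico (n - r) n, var (fun x => haar k i (u θ c j x)) a ℓ ≤ r := by
    calc ∑ j ∈ Finset.Ico (n - r) n, var (fun x => haar k i (u θ c j x)) a ℓ ≤ ∑ j ∈ Finset.Ico (n - r) n, (1 : ℝ) :=
          Finset.sum_le_sum fun j _ => var_haar_le k i j a hℓ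
      _ = ((n - (n - r) : ℕ) : ℝ) := by simp
      _ ≤ r := by exact_mod_cast (by omega : n - (n - r) ≤ r)
  have h2 := mul_le_mul_of_nonneg_left h1 (Nat.cast_nonneg (α := ℝ) r)
  rw [sq]
  exact h2

/-! ## the step -/

theorem trans (hθ : 1 < θ) {n r r' K : ℕ} (hK : 1 ≤ K) {a ℓ : ℝ} (hw : Win θ n ℓ) {lam lam' : ℝ} (h0 : 0 ≤ lam') (h1 : lam' ≤ lam)
    (h2 : lam * (n * (1 / 2) ^ K + 2 * (θ / (θ - 1))) ≤ 1 / 2) (h3 : 4 * lam' ^ 2 * (r' : ℝ) ^ 2 ≤ 1)
    (h : Pot θ c n r K lam a ℓ ≤ 16 ^ K) : Pot θ c n r' (K + 1) lam' a ℓ ≤ 16 ^ (K + 1) := by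
  have hℓ : 0 < ℓ := Pool.Agent.Helper33.LD.len_pos hθ hw.1
  have hlam : 0 ≤ lam := h0.trans h1
  set C : ℝ := θ / (θ - 1) with hC
  have hC0 : 0 ≤ C := div_nonneg (by linarith) (by linarith)
  -- the martingale and the Haar sums
  have hMH : ∀ k i, |M θ c k i a ℓ - hh θ c n k i a ℓ| ≤ C := by
    intro k i
    have h4 := Pool.Agent.Helper33.LD.M_tail (c := c) hθ k i (le_refl n) (a := a) hw.1
    rw [Nat.sub_self, pow_zero, mul_one, ← hC] at h4
    refine h4.trans ?_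
    have h5 : (1 / 2 : ℝ) ^ k ≤ 1 := pow_le_one₀ (by norm_num) (by norm_num)
    calc (1 / 2 : ℝ) ^ k * C ≤ 1 * C := mul_le_mul_of_nonneg_right h5 hC0
      _ = C := one_mul C
  -- the old levels
  set S : ℝ := ∑ p ∈ idx K, Real.cosh (lam * M θ c p.1 p.2 a ℓ) with hS
  have hSP : S ≤ 16 ^ K := by
    refine le_trans (Finset.sum_le_sum fun p _ => ?_) h
    have h4 : 0 ≤ 4 * lam ^ 2 * W θ c n r p.1 p.2 a ℓ := mul_nonneg (by positivity) (W_nonneg n r p.1 p.2 hℓ)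
    have h5 := Real.cosh_pos (lam * M θ c p.1 p.2 a ℓ)
    nlinarith
  have hS0 : 0 ≤ S := Finset.sum_nonneg fun p _ => (Real.cosh_pos _).le
  have hH : ∑ p ∈ idx K, Real.cosh (lam * hh θ c n p.1 p.2 a ℓ) ≤ Real.exp (lam * C) * S := by
    rw [hS, Finset.mul_sum]
    refine Finset.sum_le_sum fun p _ => cosh_add_le ?_
    rw [← mul_sub, abs_mul, abs_of_nonneg hlam, abs_sub_comm]
    exact mul_le_mul_of_nonneg_left (hMH p.1 p.2) hlam
  have hcn := sum_cn (θ := θ) (c := c) n a hℓ lam K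
  -- the new level
  set z : ℝ := lam * (n * (1 / 2) ^ K + C) with hz
  have hz0 : 0 ≤ z := by positivity
  have hnew : ∑ i ∈ Finset.range (2 ^ K), Real.cosh (lam' * M θ c K i a ℓ) ≤
      Real.exp z * ∑ i ∈ Finset.range (2 ^ K), Real.cosh (lam * cn θ c n K i a ℓ) := by
    rw [Finset.mul_sum]
    refine Finset.sum_le_sum fun i _ => cosh_le_of ?_ hz0
    rw [abs_mul, abs_mul, abs_of_nonneg h0, abs_of_nonneg hlam]
    have h4 : |M θ c K i a ℓ| ≤ |cn θ c n K i a ℓ| + (n * (1 / 2) ^ K + C) := by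
      have h5 := hMH K i
      have h6 := hh_le_cn (θ := θ) (c := c) n K i a hℓ
      have h7 : |M θ c K i a ℓ| ≤ |M θ c K i a ℓ - hh θ c n K i a ℓ| + |hh θ c n K i a ℓ| := by
        have := abs_add_le (M θ c K i a ℓ - hh θ c n K i a ℓ) (hh θ c n K i a ℓ)
        rwa [sub_add_cancel] at this
      linarith
    calc lam' * |M θ c K i a ℓ| ≤ lam * |M θ c K i a ℓ| := mul_le_mul_of_nonneg_right h1 (abs_nonneg _)
      _ ≤ lam * (|cn θ c n K i a ℓ| + (n * (1 / 2) ^ K + C)) := mul_le_mul_of_nonneg_left h4 hlam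
      _ = lam * |cn θ c n K i a ℓ| + z := by rw [hz]; ring
  have hexp : Real.exp (z + lam * C) ≤ 2 := by
    have h4 : z + lam * C ≤ 1 / 2 := by
      rw [hz]
      linarith
    have h5 : Real.exp (1 / 2) ≤ 2 := by
      have h6 : Real.exp (1 / 2) ^ 2 ≤ 2 ^ 2 := by
        rw [← Real.exp_nat_mul]
        have := Real.exp_one_lt_d9
        norm_num
        linarith
      exact le_of_pow_le_pow_left₀ two_ne_zero (by norm_num) h6
    exact (Real.exp_le_exp.2 h4).trans h5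
  have hnew2 : ∑ i ∈ Finset.range (2 ^ K), Real.cosh (lam' * M θ c K i a ℓ) ≤ 2 + 2 * 16 ^ K := by
    have h4 : Real.exp z * ∑ i ∈ Finset.range (2 ^ K), Real.cosh (lam * cn θ c n K i a ℓ) ≤
        Real.exp z * (1 + Real.exp (lam * C) * S) := mul_le_mul_of_nonneg_left (by linarith) (Real.exp_pos _).le
    have h5 : Real.exp z * (1 + Real.exp (lam * C) * S) = Real.exp z + Real.exp (z + lam * C) * S := by
      rw [Real.exp_add]
      ring
    have h6 : Real.exp z ≤ Real.exp (z + lam * C) := Real.exp_le_exp.2 (by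
      have : 0 ≤ lam * C := by positivity
      linarith)
    have h7 : Real.exp (z + lam * C) * S ≤ 2 * 16 ^ K := mul_le_mul hexp hSP hS0 (by norm_num)
    linarith
  have hold : ∑ p ∈ idx K, Real.cosh (lam' * M θ c p.1 p.2 a ℓ) ≤ S := by
    refine Finset.sum_le_sum fun p _ => Real.cosh_le_cosh.2 ?_
    rw [abs_mul, abs_mul, abs_of_nonneg h0, abs_of_nonneg hlam]
    exact mul_le_mul_of_nonneg_right h1 (abs_nonneg _)
  have hfac : Pot θ c n r' (K + 1) lam' a ℓ ≤ ∑ p ∈ idx (K + 1), Real.cosh (lam' * M θ c p.1 p.2 a ℓ) * 2 := by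
    refine Finset.sum_le_sum fun p _ => mul_le_mul_of_nonneg_left ?_ (Real.cosh_pos _).le
    have h4 := W_le (θ := θ) (c := c) n r' p.1 p.2 (a := a) hℓ
    have h5 : 4 * lam' ^ 2 * W θ c n r' p.1 p.2 a ℓ ≤ 4 * lam' ^ 2 * (r' : ℝ) ^ 2 := mul_le_mul_of_nonneg_left h4 (by positivity)
    linarith
  have hsplit : ∑ p ∈ idx (K + 1), Real.cosh (lam' * M θ c p.1 p.2 a ℓ) =
      (∑ p ∈ idx K, Real.cosh (lam' * M θ c p.1 p.2 a ℓ)) +
        ∑ i ∈ Finset.range (2 ^ K), Real.cosh (lam' * M θ c K i a ℓ) := by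
    unfold idx
    rw [Finset.sum_sigma, Finset.sum_range_succ, Finset.sum_sigma]
  rw [← Finset.sum_mul, hsplit] at hfac
  have h16 : (16 : ℝ) ≤ 16 ^ K := by
    calc (16 : ℝ) = 16 ^ 1 := (pow_one _).symm
      _ ≤ 16 ^ K := pow_le_pow_right₀ (by norm_num) hK
  rw [pow_succ]
  linarith

end Pool.Agent.Helper80.LD.T
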