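import Pool.Agent.Helper67.SQ4.ABSf

/-!
# The algebraic theorem for all types of places, with classes of cosets

As `thm_m` of `Pool/Agent/Helper67/SQ4/THMm.lean` (helper67, helper21); for the places with potentials, cosets with the same
valuation on the elements fixed by `Hs` are taken together: `cl v` maps them to a representative in `Rp v`.
-/

set_option autoImplicit false

namespace Pool.Agent.SQ

open Module

universe u

section

variable {k K : Type u} [Field k] [Field K] [Algebra k K]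

private theorem low_dim80 {ω : K → ℝ} (h : RV k ω) (V : Submodule k K) [FiniteDimensional k V] {n : ℕ} (e : Fin n → K)
    (he : LinearIndependent k e) (heV : ∀ i, e i ∈ V) (y : ℝ) :
    (∑ i, if y ≤ ω (e i) then (1 : ℝ) else 0) ≤ finrank k ↥(V ⊓ lev h y) := by
  rw [← Finset.sum_filter, Finset.sum_const, nsmul_eq_mul, mul_one]
  have : FiniteDimensional k ↥(V ⊓ lev h y) := Submodule.finiteDimensional_of_le inf_le_left
  have h3 : LinearIndependent k fun i : {i : Fin n // y ≤ ω (e i)} => (⟨e i, heV _, Or.inr i.2⟩ : ↥(V ⊓ lev h y)) := by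
    refine LinearIndependent.of_comp (Submodule.subtype _) ?_
    exact he.comp (fun i : {i : Fin n // y ≤ ω (e i)} => (i : Fin n)) Subtype.val_injective
  have h4 := h3.fintype_card_le_finrank
  rw [Fintype.card_subtype] at h4
  exact_mod_cast h4

private theorem cnt_low80 {N : ℕ} (hN : 0 < N) (y : ℝ) (J : ℕ) :
    min (J : ℝ) (N * y) - 1 ≤ ∑ j ∈ Finset.range J, if ((j : ℝ) + 1) / N ≤ y then (1 : ℝ) else 0 := by
  have hN' : (0 : ℝ) < N := by exact_mod_cast hN
  by_cases hy : 0 ≤ N * y
  · rw [← Finset.sum_filter, Finset.sum_const, nsmul_eq_mul, mul_one]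
    have h1 : Finset.range (min J ⌊N * y⌋₊) ⊆ (Finset.range J).filter (fun j : ℕ => ((j : ℝ) + 1) / N ≤ y) := by
      intro j hj
      rw [Finset.mem_range] at hj
      rw [Finset.mem_filter, Finset.mem_range]
      refine ⟨lt_of_lt_of_le hj (min_le_left _ _), ?_⟩
      rw [div_le_iff₀ hN', mul_comm]
      have h2 : j + 1 ≤ ⌊N * y⌋₊ := lt_of_lt_of_le hj (min_le_right _ _)
      have h3 := (Nat.le_floor_iff hy).1 h2
      push_cast at h3
      exact h3
    have h2 := Finset.card_le_card h1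
    rw [Finset.card_range] at h2
    have h3 : ((min J ⌊N * y⌋₊ : ℕ) : ℝ) ≤ ((Finset.range J).filter (fun j : ℕ => ((j : ℝ) + 1) / N ≤ y)).card := by
      exact_mod_cast h2
    refine le_trans ?_ h3
    rw [Nat.cast_min]
    have h4 : N * y < ⌊N * y⌋₊ + 1 := Nat.lt_floor_add_one _
    rcases le_total (J : ℝ) (⌊N * y⌋₊ : ℝ) with h5 | h5
    · rw [min_eq_left h5]
      have := min_le_left (J : ℝ) (N * y)
      linarith
    · rw [min_eq_right h5]
      have := min_le_right (J : ℝ) (N * y)
      linarith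
  · have h1 : (0 : ℝ) ≤ ∑ j ∈ Finset.range J, if ((j : ℝ) + 1) / N ≤ y then (1 : ℝ) else 0 :=
      Finset.sum_nonneg fun j _ => by split_ifs <;> norm_num
    have h2 := min_le_right (J : ℝ) (N * y)
    push Not at hy
    linarith

private theorem inf_dim80 {ι : Type*} [DecidableEq ι] (V : Submodule k K) [FiniteDimensional k V] (E : ι → Submodule k K)
    (S : Finset ι) :
    (finrank k V : ℝ) - ∑ i ∈ S, ((finrank k V : ℝ) - finrank k ↥(V ⊓ E i)) ≤ finrank k ↥(V ⊓ ⨅ i ∈ S, E i) := by
  induction S using Finset.induction_on with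
  | empty =>
    rw [Finset.sum_empty, sub_zero]
    have : V ⊓ ⨅ i ∈ (∅ : Finset ι), E i = V := by simp
    rw [this]
  | insert a S ha ih =>
    rw [Finset.sum_insert ha, Finset.iInf_insert]
    obtain ⟨F, hF⟩ : ∃ F, F = ⨅ i ∈ S, E i := ⟨_, rfl⟩
    rw [← hF] at ih ⊢
    have e1 : V ⊓ (E a ⊓ F) = (V ⊓ E a) ⊓ (V ⊓ F) := by
      rw [inf_inf_inf_comm, inf_idem]
    have : FiniteDimensional k ↥(V ⊓ E a) := Submodule.finiteDimensional_of_le inf_le_left
    have : FiniteDimensional k ↥(V ⊓ F) := Submodule.finiteDimensional_of_le inf_le_left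
    have e2 := Submodule.finrank_sup_add_finrank_inf_eq (V ⊓ E a) (V ⊓ F)
    have e3 : finrank k ↥((V ⊓ E a) ⊔ (V ⊓ F)) ≤ finrank k V := Submodule.finrank_mono (sup_le inf_le_left inf_le_left)
    rw [e1]
    have e2' : (finrank k ↥((V ⊓ E a) ⊔ (V ⊓ F)) : ℝ) + finrank k ↥((V ⊓ E a) ⊓ (V ⊓ F)) =
        finrank k ↥(V ⊓ E a) + finrank k ↥(V ⊓ F) := by exact_mod_cast e2
    have e3' : (finrank k ↥((V ⊓ E a) ⊔ (V ⊓ F)) : ℝ) ≤ finrank k V := by exact_mod_cast e3
    linarith

/-- `lin` type -/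
private theorem lin_low80 {ω : K → ℝ} (h : RV k ω) (V : Submodule k K) [FiniteDimensional k V] {n : ℕ} (e : Fin n → K)
    (he : LinearIndependent k e) (heV : ∀ i, e i ∈ V) (c : ℝ) {N : ℕ} (hN : 0 < N) (M : ℕ) (hM : ∀ i, N * (ω (e i) + c) ≤ M) :
    N * ∑ i, (ω (e i) + c) - n ≤ ∑ j ∈ Finset.range M, (finrank k ↥(V ⊓ lev h (((j : ℝ) + 1) / N - c)) : ℝ) := by
  have h1 : ∀ j : ℕ, (∑ i, if ((j : ℝ) + 1) / N ≤ ω (e i) + c then (1 : ℝ) else 0) ≤
      finrank k ↥(V ⊓ lev h (((j : ℝ) + 1) / N - c)) := by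
    intro j
    have h2 := low_dim80 h V e he heV (((j : ℝ) + 1) / N - c)
    simpa only [sub_le_iff_le_add] using h2
  refine le_trans ?_ (Finset.sum_le_sum fun j _ => h1 j)
  rw [Finset.sum_comm]
  have h3 : N * ∑ i, (ω (e i) + c) - n = ∑ i, (min (M : ℝ) (N * (ω (e i) + c)) - 1) := by
    rw [Finset.sum_sub_distrib, Finset.mul_sum]
    simp only [min_eq_right (hM _)]
    simp
  rw [h3]
  exact Finset.sum_le_sum fun i _ => cnt_low80 hN _ _

/-- one filtration of the `col` type -/
private theorem col_low80 {ω : K → ℝ} (h : RV k ω) (V : Submodule k K) [FiniteDimensional k V] {n : ℕ} (e : Fin n → K)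
    (he : LinearIndependent k e) (heV : ∀ i, e i ∈ V) (c : ℝ) (h0 : ∀ x ∈ V, x ≠ 0 → 0 ≤ ω x + c) {N : ℕ} (hN : 0 < N)
    {B Bs : ℝ} (hB : 0 ≤ B) (J : ℕ) (hJ : N * Bs ≤ J + 1) :
    finrank k V * (N * (Bs - B) - 2) + N * ∑ i, min B (ω (e i) + c) ≤
      ∑ j ∈ Finset.range J, (finrank k ↥(V ⊓ lev h (B - Bs + ((j : ℝ) + 1) / N - c)) : ℝ) := by
  have hN' : (0 : ℝ) < N := by exact_mod_cast hN
  have hn : n ≤ finrank k V := by
    have h3 : LinearIndependent k fun i : Fin n => (⟨e i, heV i⟩ : V) := LinearIndependent.of_comp (Submodule.subtype _) he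
    have h4 := h3.fintype_card_le_finrank
    rwa [Fintype.card_fin] at h4
  have hn' : (n : ℝ) ≤ finrank k V := by exact_mod_cast hn
  -- one level
  have h1 : ∀ j : ℕ, (∑ i, if ((j : ℝ) + 1) / N ≤ Bs - B + (ω (e i) + c) then (1 : ℝ) else 0) +
      (finrank k V - n) * (if ((j : ℝ) + 1) / N ≤ Bs - B then (1 : ℝ) else 0) ≤
      finrank k ↥(V ⊓ lev h (B - Bs + ((j : ℝ) + 1) / N - c)) := by
    intro j
    split_ifs with h5
    · have h6 : V ⊓ lev h (B - Bs + ((j : ℝ) + 1) / N - c) = V := by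
        rw [inf_eq_left]
        intro x hx
        by_cases hx0 : x = 0
        · exact Or.inl hx0
        · right
          have := h0 x hx hx0
          linarith
      rw [h6]
      have h7 : (∑ i : Fin n, if ((j : ℝ) + 1) / N ≤ Bs - B + (ω (e i) + c) then (1 : ℝ) else 0) ≤ ∑ _i : Fin n, (1 : ℝ) :=
        Finset.sum_le_sum fun i _ => by split_ifs <;> norm_num
      rw [Finset.sum_const, Finset.card_univ, Fintype.card_fin, nsmul_eq_mul, mul_one] at h7
      linarith
    · rw [mul_zero, add_zero]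
      have h2 := low_dim80 h V e he heV (B - Bs + ((j : ℝ) + 1) / N - c)
      refine le_trans (le_of_eq ?_) h2
      refine Finset.sum_congr rfl fun i _ => ?_
      congr 1
      refine propext ⟨fun h => by linarith, fun h => by linarith⟩
  refine le_trans ?_ (Finset.sum_le_sum fun j _ => h1 j)
  rw [Finset.sum_add_distrib, Finset.sum_comm, ← Finset.mul_sum]
  have h8 : ∀ y : ℝ, 0 ≤ y → N * (Bs - B) + N * min B y - 2 ≤
      ∑ j ∈ Finset.range J, if ((j : ℝ) + 1) / N ≤ Bs - B + y then (1 : ℝ) else 0 := by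
    intro y hy
    refine le_trans ?_ (cnt_low80 hN _ _)
    have h9 : N * (Bs - B) + N * min B y ≤ min (N * Bs) (N * (Bs - B + y)) := by
      refine le_min ?_ ?_
      · have := mul_le_mul_of_nonneg_left (min_le_left B y) hN'.le
        linarith
      · have := mul_le_mul_of_nonneg_left (min_le_right B y) hN'.le
        linarith
    have h10 : min (N * Bs) (N * (Bs - B + y)) ≤ min (J : ℝ) (N * (Bs - B + y)) + 1 := by
      rw [← min_add_add_right]
      exact min_le_min hJ (by linarith)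
    linarith
  have h11 : ∑ i, (N * (Bs - B) + N * min B (ω (e i) + c) - 2) ≤
      ∑ i, ∑ j ∈ Finset.range J, (if ((j : ℝ) + 1) / N ≤ Bs - B + (ω (e i) + c) then (1 : ℝ) else 0) :=
    Finset.sum_le_sum fun i _ => h8 _ (h0 _ (heV i) (he.ne_zero i))
  have h12 := h8 0 le_rfl
  rw [min_eq_right hB, mul_zero, add_zero, add_zero] at h12
  have h13 := mul_le_mul_of_nonneg_left h12 (sub_nonneg.2 hn')
  have h14 : ∑ i : Fin n, (N * (Bs - B) + N * min B (ω (e i) + c) - 2) =
      n * (N * (Bs - B) - 2) + N * ∑ i, min B (ω (e i) + c) := by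
    rw [Finset.mul_sum]
    have : ∀ i : Fin n, N * (Bs - B) + N * min B (ω (e i) + c) - 2 = (N * (Bs - B) - 2) + N * min B (ω (e i) + c) :=
      fun i => by ring
    simp only [this, Finset.sum_add_distrib]
    rw [Finset.sum_const, Finset.card_univ, Fintype.card_fin, nsmul_eq_mul]
  rw [h14] at h11
  linarith

end

/-- **The algebraic theorem.** -/
theorem thm_w {k K : Type u} [Field k] [CharZero k] [Field K] [Algebra k K] {G : Type*} [Group G] [Fintype G]
    (s : G →* (K ≃ₐ[k] K)) {P : Type*} [Fintype P] (ω : P → K → ℝ) (hω : ∀ v, RV k (ω v)) (c : P → G → ℝ)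
    (V : Submodule k K) [FiniteDimensional k V] (ha : ∀ v g, ∀ x ∈ V, x ≠ 0 → 0 ≤ ω v (s g x) + c v g)
    (hS : ∀ (m : ℕ) (E : Submodule k K), E ≤ (∏ g, V.map (s g).toLinearMap) ^ m → (∀ z ∈ E, ∀ g, s g z = z) →
      ∀ (n : P → ℕ) (z : ∀ v, Fin (n v) → K), (∀ v, LinearIndependent k (z v)) → (∀ v i, z v i ∈ E) →
        ∑ v, ∑ i, (ω v (z v i) + m * ∑ g, c v g) ≤ m * finrank k E)
    (Hs : Subgroup G) (hH : ∀ h ∈ Hs, ∀ x ∈ V, s h x = x) (hcH : ∀ v g, ∀ h ∈ Hs, c v (g * h) = c v g)
    (lin : P → Prop) [DecidablePred lin] (Gd T : P → Finset G)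
    (hC : ∀ v, lin v → ∀ u ∈ Gd v, ∀ g ∈ T v, c v (u * g) = c v g ∧
      ∀ x, (∀ h ∈ Hs, s h x = x) → ω v (s (u * g) x) = ω v (s g x))
    {r : ℕ} (ρ : Fin r → G) (hρ : ∀ g, ∃! j, (ρ j)⁻¹ * g ∈ Hs)
    (n : P → G → ℕ) (e : ∀ v g, Fin (n v g) → K) (he : ∀ v g, LinearIndependent k (e v g)) (heV : ∀ v g i, e v g i ∈ V)
    (B : P → Fin r → ℝ) (hB : ∀ v j, 0 ≤ B v j) (Rp : P → Finset (Fin r)) (cl : P → Fin r → Fin r)
    (hcl : ∀ v, ¬ lin v → ∀ j, cl v j ∈ Rp v ∧ B v (cl v j) = B v j ∧ c v (ρ (cl v j)) = c v (ρ j) ∧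
      ∀ x, (∀ h ∈ Hs, s h x = x) → ω v (s (ρ (cl v j)) x) = ω v (s (ρ j) x))
    (n' : P → Fin r → ℕ) (e' : ∀ v j, Fin (n' v j) → K)
    (he' : ∀ v j, LinearIndependent k (e' v j)) (heV' : ∀ v j i, e' v j i ∈ V) :
    ∑ v, (if lin v then ((Gd v).card : ℝ) * ∑ g ∈ T v, ∑ i, (ω v (s g (e v g i)) + c v g) else
      (Fintype.card G : ℝ) ^ 2 * ∑ j ∈ Rp v, (∑ i, min (B v j) (ω v (s (ρ j) (e' v j i)) + c v (ρ j)) -
        (1 - ((Finset.univ.filter fun j' => cl v j' = j).card : ℝ) / r) * B v j * finrank k V)) ≤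
      Fintype.card G * finrank k V := by
  classical
  obtain ⟨j0, hj0, -⟩ := hρ 1
  have hr0 : 0 < r := lt_of_le_of_lt (Nat.zero_le _) j0.2
  have hrR : (0 : ℝ) < r := by exact_mod_cast hr0
  -- cosets
  have hbij : Function.Bijective fun p : Fin r × Hs => ρ p.1 * (p.2 : G) := by
    constructor
    · rintro ⟨j, h⟩ ⟨j', h'⟩ hjj
      have hjj' : ρ j * (h : G) = ρ j' * (h' : G) := hjj
      have h1 : (ρ j)⁻¹ * (ρ j * (h : G)) ∈ Hs := by
        rw [inv_mul_cancel_left]
        exact h.2
      have h2 : (ρ j')⁻¹ * (ρ j * (h : G)) ∈ Hs := by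
        rw [hjj', inv_mul_cancel_left]
        exact h'.2
      have h3 : j = j' := (hρ _).unique h1 h2
      subst h3
      have h4 : (h : G) = h' := mul_left_cancel hjj'
      rw [Subtype.ext h4]
    · intro g
      obtain ⟨j, hj, -⟩ := hρ g
      exact ⟨(j, ⟨_, hj⟩), mul_inv_cancel_left _ _⟩
  have hsumG : ∀ φ : G → ℝ, ∑ g, φ g = ∑ j, ∑ h : Hs, φ (ρ j * h) := by
    intro φ
    rw [← (Equiv.ofBijective _ hbij).sum_comp, Fintype.sum_prod_type]
    rfl
  obtain ⟨η, hη⟩ : ∃ η : ℝ, η = Fintype.card Hs := ⟨_, rfl⟩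
  have hcard : (Fintype.card G : ℝ) = r * η := by
    have h1 := hsumG fun _ => 1
    simp only [Finset.sum_const, Finset.card_univ, nsmul_eq_mul, mul_one, Fintype.card_fin] at h1
    rw [hη]
    exact h1
  choose τ hτ1 hτ2 using hρ
  have hτ : ∀ j (h : Hs), τ (ρ j * h) = j := by
    intro j h
    refine (hτ2 _ _ ?_).symm
    show (ρ j)⁻¹ * (ρ j * (h : G)) ∈ Hs
    rw [inv_mul_cancel_left]
    exact h.2
  have hB' : ∀ (v : P) (g : G), ∑ a, B v (τ (g * a)) = η * ∑ j, B v j := by
    intro v g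
    have h1 : ∑ a, B v (τ (g * a)) = ∑ a, B v (τ a) := Fintype.sum_equiv (Equiv.mulLeft g) _ _ fun a => rfl
    rw [h1, hsumG fun a => B v (τ a)]
    simp only [hτ, Finset.sum_const, Finset.card_univ, nsmul_eq_mul, ← hη, ← Finset.mul_sum]
  -- the same valuation on the coset
  have hval : ∀ (v : P) (g : G) (x : K), x ∈ V → ω v (s g x) = ω v (s (ρ (τ g)) x) ∧ c v g = c v (ρ (τ g)) := by
    intro v g x hx
    have h1 : ρ (τ g) * ((ρ (τ g))⁻¹ * g) = g := mul_inv_cancel_left _ _
    constructor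
    · conv_lhs => rw [← h1, map_mul]
      show ω v (s (ρ (τ g)) (s ((ρ (τ g))⁻¹ * g) x)) = _
      rw [hH _ (hτ1 g) x hx]
    · conv_lhs => rw [← h1]
      exact hcH v _ _ (hτ1 g)
  obtain ⟨Bs, hBs⟩ : ∃ Bs : P → ℝ, Bs = fun v => ∑ j, B v j := ⟨_, rfl⟩
  have hBs' : ∀ v, Bs v = ∑ j, B v j := fun v => by rw [hBs]
  have hBle : ∀ v j, B v j ≤ Bs v := fun v j => by
    rw [hBs']
    exact Finset.single_le_sum (fun j _ => hB v j) (Finset.mem_univ j)
  have hBs0 : ∀ v, 0 ≤ Bs v := fun v => by
    rw [hBs']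
    exact Finset.sum_nonneg fun j _ => hB v j
  obtain ⟨κ, hκ⟩ : ∃ κ : P → ℝ, κ = fun v => if lin v then 0 else (1 - 1 / (r : ℝ)) * Bs v := ⟨_, rfl⟩
  have hr1 : (0 : ℝ) ≤ 1 - 1 / (r : ℝ) := by
    rw [sub_nonneg, div_le_one hrR]
    exact_mod_cast hr0
  have hκ0 : ∀ v, 0 ≤ κ v := by
    intro v
    rw [hκ]
    show (0 : ℝ) ≤ if lin v then 0 else (1 - 1 / (r : ℝ)) * Bs v
    split_ifs
    · exact le_rfl
    · exact mul_nonneg hr1 (hBs0 v)
  obtain ⟨A, hA⟩ : ∃ A : ℝ, A = 1 + Fintype.card G * ∑ v, κ v := ⟨_, rfl⟩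
  have hA0 : 0 ≤ A := by
    have := Finset.sum_nonneg fun v (_ : v ∈ Finset.univ) => hκ0 v
    rw [hA]
    positivity
  obtain ⟨Gd', hGd'⟩ : ∃ Gd' : P → Finset G, Gd' = fun v => if lin v then Gd v else Finset.univ := ⟨_, rfl⟩
  -- Theorem A
  have hmapfd : ∀ m : ℕ, FiniteDimensional k ↥((∏ g, V.map (s g).toLinearMap) ^ m) := by
    intro m
    rw [← Submodule.fg_iff_finiteDimensional]
    refine Submodule.FG.pow ?_ m
    have : ∀ S : Finset G, (∏ g ∈ S, V.map (s g).toLinearMap).FG := by
      intro S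
      induction S using Finset.induction_on with
      | empty =>
        rw [Finset.prod_empty]
        exact ⟨{1}, by rw [Finset.coe_singleton, Submodule.one_eq_span]⟩
      | insert a S ha' ih =>
        rw [Finset.prod_insert ha']
        exact ((Submodule.fg_iff_finiteDimensional _).2 inferInstance).mul ih
    exact this _
  obtain ⟨C, hCC⟩ := abs_f s ω hω (fun v g => c v g + κ v) V
    (fun v g x hx hx0 => by
      have h1 := ha v g x hx hx0
      have h2 := hκ0 v
      show 0 ≤ ω v (s g x) + (c v g + κ v)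
      linarith) hA0
    (fun m E hE hEs n z hz hzE => by
      have hEfd : FiniteDimensional k E := by
        have := hmapfd m
        exact Submodule.finiteDimensional_of_le hE
      have h1 := hS m E hE hEs n z hz hzE
      have h2 : ∀ v, (n v : ℝ) ≤ finrank k E := by
        intro v
        have h3 : LinearIndependent k fun i : Fin (n v) => (⟨z v i, hzE v i⟩ : E) :=
          LinearIndependent.of_comp (Submodule.subtype _) (hz v)
        have h4 := h3.fintype_card_le_finrank
        rw [Fintype.card_fin] at h4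
        exact_mod_cast h4
      have h3 : ∑ v, ∑ i : Fin (n v), (ω v (z v i) + m * ∑ g, (c v g + κ v)) =
          ∑ v, ∑ i, (ω v (z v i) + m * ∑ g, c v g) + ∑ v, (n v : ℝ) * (m * (Fintype.card G * κ v)) := by
        rw [← Finset.sum_add_distrib]
        refine Finset.sum_congr rfl fun v _ => ?_
        have h4 : ∀ i : Fin (n v), ω v (z v i) + m * ∑ g, (c v g + κ v) =
            (ω v (z v i) + m * ∑ g, c v g) + m * (Fintype.card G * κ v) := by
          intro i
          rw [Finset.sum_add_distrib, Finset.sum_const, Finset.card_univ, nsmul_eq_mul]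
          ring
        have h4' : ∑ i : Fin (n v), (ω v (z v i) + m * ∑ g, (c v g + κ v)) =
            ∑ i : Fin (n v), ((ω v (z v i) + m * ∑ g, c v g) + m * (Fintype.card G * κ v)) :=
          Finset.sum_congr rfl fun i _ => h4 i
        rw [h4', Finset.sum_add_distrib, Finset.sum_const, Finset.card_univ, Fintype.card_fin, nsmul_eq_mul]
      rw [h3]
      have h5 : ∑ v, (n v : ℝ) * (m * (Fintype.card G * κ v)) ≤ ∑ v, (finrank k E : ℝ) * (m * (Fintype.card G * κ v)) :=
        Finset.sum_le_sum fun v _ => mul_le_mul_of_nonneg_right (h2 v) (by have := hκ0 v; positivity)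
      have h6 : ∑ v, (finrank k E : ℝ) * (m * (Fintype.card G * κ v)) = Fintype.card G * (∑ v, κ v) * m * finrank k E := by
        rw [Finset.mul_sum, Finset.sum_mul, Finset.sum_mul]
        exact Finset.sum_congr rfl fun v _ => by ring
      rw [hA]
      linarith) Gd'
  -- the inequality for `N`
  obtain ⟨D, hD⟩ : ∃ D : ℝ, D = finrank k V := ⟨_, rfl⟩
  obtain ⟨Z, hZ⟩ : ∃ Z : ℝ, Z = ∑ v, (if lin v then ((Gd v).card : ℝ) * ∑ g ∈ T v, (n v g : ℝ) else
    (Fintype.card G : ℝ) ^ 2 * (D * (2 * r + 1))) := ⟨_, rfl⟩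
  have main : ∀ N : ℕ, 0 < N → N * ∑ v, (if lin v then ((Gd v).card : ℝ) * ∑ g ∈ T v, ∑ i, (ω v (s g (e v g i)) + c v g) else
      (Fintype.card G : ℝ) ^ 2 * ∑ j ∈ Rp v, (∑ i, min (B v j) (ω v (s (ρ j) (e' v j i)) + c v (ρ j)) -
        (1 - ((Finset.univ.filter fun j' => cl v j' = j).card : ℝ) / r) * B v j * D)) ≤
      N * (Fintype.card G * D) + (C * D + Z) := by
    intro N hN
    have hN' : (0 : ℝ) < N := by exact_mod_cast hN
    -- the flags
    obtain ⟨Fl, hFl⟩ : ∃ Fl : P → G → ℕ → Submodule k K, Fl = fun v a (j : ℕ) =>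
        if lin v then (if a ∈ T v then V ⊓ lev ((hω v).comp (s a)) ((j : ℝ) / N - c v a) else (if j = 0 then V else ⊥))
        else (if (j : ℝ) / N ≤ Bs v then V ⊓ ⨅ j' ∈ Rp v,
          lev ((hω v).comp (s (ρ j'))) (B v j' - Bs v + (j : ℝ) / N - c v (ρ j')) else ⊥) := ⟨_, rfl⟩
    have hFl' : ∀ v a j, Fl v a j = if lin v then (if a ∈ T v then V ⊓ lev ((hω v).comp (s a)) ((j : ℝ) / N - c v a) else
        (if j = 0 then V else ⊥)) else (if (j : ℝ) / N ≤ Bs v then V ⊓ ⨅ j' ∈ Rp v,
          lev ((hω v).comp (s (ρ j'))) (B v j' - Bs v + (j : ℝ) / N - c v (ρ j')) else ⊥) := fun v a j => by rw [hFl]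
    have levanti : ∀ (v : P) (g : G) (a b : ℝ), a ≤ b → lev ((hω v).comp (s g)) b ≤ lev ((hω v).comp (s g)) a := by
      intro v g a b hab x hx
      exact hx.imp_right fun h => hab.trans h
    have f1 : ∀ v a j j', j ≤ j' → Fl v a j' ≤ Fl v a j := by
      intro v a j j' hj
      rw [hFl', hFl']
      have h1 : (j : ℝ) ≤ j' := by exact_mod_cast hj
      have h2 : (j : ℝ) / N ≤ (j' : ℝ) / N := div_le_div_of_nonneg_right h1 (Nat.cast_nonneg N)
      by_cases hl : lin v
      · rw [if_pos hl, if_pos hl]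
        by_cases hT : a ∈ T v
        · rw [if_pos hT, if_pos hT]
          exact inf_le_inf_left _ (levanti v a _ _ (by linarith))
        · rw [if_neg hT, if_neg hT]
          by_cases hj' : j' = 0
          · rw [if_pos hj', if_pos (by omega)]
          · rw [if_neg hj']
            exact bot_le
      · rw [if_neg hl, if_neg hl]
        by_cases hb : (j' : ℝ) / N ≤ Bs v
        · rw [if_pos hb, if_pos (h2.trans hb)]
          exact inf_le_inf_left _ (iInf_mono fun i => iInf_mono fun _ => levanti v _ _ _ (by linarith))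
        · rw [if_neg hb]
          exact bot_le
    have f2 : ∀ v a, V ≤ Fl v a 0 := by
      intro v a
      rw [hFl']
      by_cases hl : lin v
      · rw [if_pos hl]
        by_cases hT : a ∈ T v
        · rw [if_pos hT]
          refine le_inf le_rfl fun x hx => ?_
          by_cases hx0 : x = 0
          · exact Or.inl hx0
          · right
            show ((0 : ℕ) : ℝ) / N - c v a ≤ ω v (s a x)
            have := ha v a x hx hx0
            rw [Nat.cast_zero, zero_div]
            linarith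
        · rw [if_neg hT, if_pos rfl]
      · rw [if_neg hl, if_pos (by rw [Nat.cast_zero, zero_div]; exact hBs0 v)]
        refine le_inf le_rfl (le_iInf fun i => le_iInf fun _ x hx => ?_)
        by_cases hx0 : x = 0
        · exact Or.inl hx0
        · right
          show B v i - Bs v + ((0 : ℕ) : ℝ) / N - c v (ρ i) ≤ ω v (s (ρ i) x)
          have h1 := ha v (ρ i) x hx hx0
          have h2 := hBle v i
          rw [Nat.cast_zero, zero_div]
          linarith
    have f3 : ∀ v, ∀ g ∈ Gd' v, ∀ (j : G → ℕ) (b : G → K), (∀ a, b a ∈ V) → (∀ a, b a ∈ Fl v a (j a)) → (∀ a, b a ≠ 0) →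
        ((∑ a, j a : ℕ) : ℝ) / N ≤ ∑ a, (ω v (s (g * a) (b a)) + (c v (g * a) + κ v)) := by
      intro v g hg j b hb1 hb2 hb3
      rw [hGd'] at hg
      have hg' : g ∈ if lin v then Gd v else Finset.univ := hg
      push_cast
      rw [Finset.sum_div]
      by_cases hl : lin v
      · rw [if_pos hl] at hg'
        have hk : κ v = 0 := by
          rw [hκ]
          exact if_pos hl
        refine Finset.sum_le_sum fun a _ => ?_
        have h1 := hb2 a
        rw [hFl', if_pos hl] at h1
        rw [hk, add_zero]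
        by_cases hT : a ∈ T v
        · rw [if_pos hT] at h1
          have h2 := h1.2.resolve_left (hb3 a)
          obtain ⟨h3, h4⟩ := hC v hl g hg' a hT
          rw [h3, h4 (b a) fun h hh => hH h hh _ (hb1 a)]
          have h5 : (j a : ℝ) / N - c v a ≤ ω v (s a (b a)) := h2
          linarith
        · rw [if_neg hT] at h1
          by_cases hj : j a = 0
          · rw [hj, Nat.cast_zero, zero_div]
            exact ha v (g * a) (b a) (hb1 a) (hb3 a)
          · rw [if_neg hj] at h1
            exact absurd ((Submodule.mem_bot k).1 h1) (hb3 a)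
      · have hk : κ v = (1 - 1 / (r : ℝ)) * Bs v := by
          rw [hκ]
          exact if_neg hl
        have h1 : ∀ a, (j a : ℝ) / N + (B v (τ (g * a)) - Bs v + κ v) ≤ ω v (s (g * a) (b a)) + (c v (g * a) + κ v) := by
          intro a
          have h2 := hb2 a
          rw [hFl', if_neg hl] at h2
          by_cases hb : (j a : ℝ) / N ≤ Bs v
          · rw [if_pos hb] at h2
            obtain ⟨hc1, hc2, hc3, hc4⟩ := hcl v hl (τ (g * a))
            have h3 : b a ∈ lev ((hω v).comp (s (ρ (cl v (τ (g * a))))))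
                (B v (cl v (τ (g * a))) - Bs v + (j a : ℝ) / N - c v (ρ (cl v (τ (g * a))))) :=
              (Submodule.mem_iInf _).1 ((Submodule.mem_iInf _).1 h2.2 (cl v (τ (g * a)))) hc1
            have h4 : B v (τ (g * a)) - Bs v + (j a : ℝ) / N - c v (ρ (τ (g * a))) ≤ ω v (s (ρ (τ (g * a))) (b a)) := by
              rw [← hc2, ← hc3, ← hc4 (b a) fun h hh => hH h hh _ (hb1 a)]
              exact h3.resolve_left (hb3 a)
            obtain ⟨h5, h6⟩ := hval v (g * a) (b a) (hb1 a)
            rw [h5, h6]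
            linarith
          · rw [if_neg hb] at h2
            exact absurd ((Submodule.mem_bot k).1 h2) (hb3 a)
        refine le_trans (le_of_eq ?_) (Finset.sum_le_sum fun a _ => h1 a)
        rw [Finset.sum_add_distrib]
        have h7 : ∑ a, (B v (τ (g * a)) - Bs v + κ v) = 0 := by
          rw [Finset.sum_add_distrib, Finset.sum_sub_distrib, hB' v g, ← hBs', Finset.sum_const, Finset.sum_const,
            Finset.card_univ, nsmul_eq_mul, nsmul_eq_mul, hk, hcard]
          field_simp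
          ring
        rw [h7, add_zero]
    -- a bound for the levels
    obtain ⟨M, hM⟩ := exists_nat_ge (N * (∑ v, ∑ g, ∑ i, |ω v (s g (e v g i)) + c v g|) + N * ∑ v, Bs v)
    have hM1 : ∀ v g i, N * (ω v (s g (e v g i)) + c v g) ≤ M := by
      intro v g i
      refine le_trans ?_ hM
      have h1 : |ω v (s g (e v g i)) + c v g| ≤ ∑ i, |ω v (s g (e v g i)) + c v g| :=
        Finset.single_le_sum (f := fun i => |ω v (s g (e v g i)) + c v g|) (fun i _ => abs_nonneg _) (Finset.mem_univ i)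
      have h2 : ∑ i, |ω v (s g (e v g i)) + c v g| ≤ ∑ g, ∑ i, |ω v (s g (e v g i)) + c v g| :=
        Finset.single_le_sum (f := fun g => ∑ i, |ω v (s g (e v g i)) + c v g|)
          (fun g _ => Finset.sum_nonneg fun i _ => abs_nonneg _) (Finset.mem_univ g)
      have h3 : ∑ g, ∑ i, |ω v (s g (e v g i)) + c v g| ≤ ∑ v, ∑ g, ∑ i, |ω v (s g (e v g i)) + c v g| :=
        Finset.single_le_sum (f := fun v => ∑ g, ∑ i, |ω v (s g (e v g i)) + c v g|)
          (fun v _ => Finset.sum_nonneg fun g _ => Finset.sum_nonneg fun i _ => abs_nonneg _) (Finset.mem_univ v)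
      have h4 := mul_le_mul_of_nonneg_left ((le_abs_self _).trans (h1.trans (h2.trans h3))) hN'.le
      have h5 : 0 ≤ N * ∑ v, Bs v := mul_nonneg hN'.le (Finset.sum_nonneg fun v _ => hBs0 v)
      linarith
    have hM2 : ∀ v, N * Bs v ≤ M := by
      intro v
      refine le_trans ?_ hM
      have h1 : Bs v ≤ ∑ v, Bs v := Finset.single_le_sum (fun v _ => hBs0 v) (Finset.mem_univ v)
      have h2 := mul_le_mul_of_nonneg_left h1 hN'.le
      have h3 : 0 ≤ N * (∑ v, ∑ g, ∑ i, |ω v (s g (e v g i)) + c v g|) :=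
        mul_nonneg hN'.le (Finset.sum_nonneg fun v _ => Finset.sum_nonneg fun g _ => Finset.sum_nonneg fun i _ => abs_nonneg _)
      linarith
    have key := hCC N hN Fl f1 f2 f3 M
    -- the contributions
    have contr : ∀ v, N * (if lin v then ((Gd v).card : ℝ) * ∑ g ∈ T v, ∑ i, (ω v (s g (e v g i)) + c v g) else
        (Fintype.card G : ℝ) ^ 2 * ∑ j ∈ Rp v, (∑ i, min (B v j) (ω v (s (ρ j) (e' v j i)) + c v (ρ j)) -
          (1 - ((Finset.univ.filter fun j' => cl v j' = j).card : ℝ) / r) * B v j * D)) -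
        (if lin v then ((Gd v).card : ℝ) * ∑ g ∈ T v, (n v g : ℝ) else (Fintype.card G : ℝ) ^ 2 * (D * (2 * r + 1))) ≤
        (((Gd' v).card * ∑ a, ∑ j ∈ Finset.range M, finrank k (Fl v a (j + 1) ⊓ V : Submodule k K) : ℕ) : ℝ) -
          N * ((Fintype.card G : ℝ) ^ 2 * κ v * D) := by
      intro v
      by_cases hl : lin v
      · have hk : κ v = 0 := by
          rw [hκ]
          exact if_pos hl
        have hG : Gd' v = Gd v := by
          rw [hGd']
          exact if_pos hl
        rw [if_pos hl, if_pos hl, hk, hG, mul_zero, zero_mul, mul_zero, sub_zero]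
        push_cast
        have h1 : ∀ a ∈ T v, N * ∑ i, (ω v (s a (e v a i)) + c v a) - n v a ≤
            ∑ j ∈ Finset.range M, (finrank k (Fl v a (j + 1) ⊓ V : Submodule k K) : ℝ) := by
          intro a haT
          refine le_trans (lin_low80 ((hω v).comp (s a)) V (e v a) (he v a) (heV v a) (c v a) hN M (fun i => hM1 v a i)) ?_
          refine Finset.sum_le_sum fun j _ => ?_
          have h2 : V ⊓ lev ((hω v).comp (s a)) (((j : ℝ) + 1) / N - c v a) = Fl v a (j + 1) ⊓ V := by
            rw [hFl', if_pos hl, if_pos haT, inf_right_comm, inf_idem]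
            push_cast
            rfl
          rw [h2]
        have h3 : N * (((Gd v).card : ℝ) * ∑ g ∈ T v, ∑ i, (ω v (s g (e v g i)) + c v g)) -
            (Gd v).card * ∑ g ∈ T v, (n v g : ℝ) =
            (Gd v).card * ∑ a ∈ T v, (N * ∑ i, (ω v (s a (e v a i)) + c v a) - n v a) := by
          rw [Finset.sum_sub_distrib, ← Finset.mul_sum]
          ring
        rw [h3]
        refine mul_le_mul_of_nonneg_left ?_ (Nat.cast_nonneg _)
        refine (Finset.sum_le_sum h1).trans ?_
        exact Finset.sum_le_sum_of_subset_of_nonneg (Finset.subset_univ _)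
          fun a _ _ => Finset.sum_nonneg fun j _ => Nat.cast_nonneg _
      · have hk : κ v = (1 - 1 / (r : ℝ)) * Bs v := by
          rw [hκ]
          exact if_neg hl
        have hG : Gd' v = Finset.univ := by
          rw [hGd']
          exact if_neg hl
        rw [if_neg hl, if_neg hl, hG, Finset.card_univ]
        obtain ⟨J, hJ⟩ : ∃ J : ℕ, J = ⌊N * Bs v⌋₊ := ⟨_, rfl⟩
        have hNB : 0 ≤ N * Bs v := mul_nonneg hN'.le (hBs0 v)
        have hJ1 : (J : ℝ) ≤ N * Bs v := by
          rw [hJ]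
          exact Nat.floor_le hNB
        have hJ2 : N * Bs v ≤ J + 1 := by
          rw [hJ]
          exact (Nat.lt_floor_add_one _).le
        have hJM : J ≤ M := by
          have : (J : ℝ) ≤ M := hJ1.trans (hM2 v)
          exact_mod_cast this
        -- the classes
        have hR : ∀ j, cl v j ∈ Rp v := fun j => (hcl v hl j).1
        have hR1 : (1 : ℝ) ≤ (Rp v).card := by
          have : 0 < (Rp v).card := Finset.card_pos.2 ⟨_, hR j0⟩
          exact_mod_cast this
        have hRr : ((Rp v).card : ℝ) ≤ r := by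
          have h1 := Finset.card_le_univ (Rp v)
          rw [Fintype.card_fin] at h1
          exact_mod_cast h1
        have hsumB : ∑ j ∈ Rp v, ((Finset.univ.filter fun j' => cl v j' = j).card : ℝ) * B v j = Bs v := by
          rw [hBs', ← Finset.sum_fiberwise_of_maps_to (fun j _ => hR j) (B v)]
          refine Finset.sum_congr rfl fun j _ => ?_
          rw [← nsmul_eq_mul, ← Finset.sum_const]
          refine Finset.sum_congr rfl fun j' hj' => ?_
          rw [← (hcl v hl j').2.1, (Finset.mem_filter.1 hj').2]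
        have hD0 : 0 ≤ D := by
          rw [hD]
          exact Nat.cast_nonneg _
        -- one factor
        have h1 : ∀ a : G, N * (∑ j ∈ Rp v, ∑ i, min (B v j) (ω v (s (ρ j) (e' v j i)) + c v (ρ j)) +
              D * (Bs v - ∑ j ∈ Rp v, B v j)) - D * (2 * r + 1) ≤
            ∑ j ∈ Finset.range M, (finrank k (Fl v a (j + 1) ⊓ V : Submodule k K) : ℝ) := by
          intro a
          have h2 : ∑ j ∈ Finset.range J, (finrank k (Fl v a (j + 1) ⊓ V : Submodule k K) : ℝ) ≤
              ∑ j ∈ Finset.range M, (finrank k (Fl v a (j + 1) ⊓ V : Submodule k K) : ℝ) :=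
            Finset.sum_le_sum_of_subset_of_nonneg (Finset.range_mono hJM) fun j _ _ => Nat.cast_nonneg _
          refine le_trans ?_ h2
          have h3 : ∀ j ∈ Finset.range J, D - ∑ j' ∈ Rp v, (D - (finrank k ↥(V ⊓ lev ((hω v).comp (s (ρ j')))
              (B v j' - Bs v + ((j : ℝ) + 1) / N - c v (ρ j'))) : ℝ)) ≤
              (finrank k (Fl v a (j + 1) ⊓ V : Submodule k K) : ℝ) := by
            intro j hj
            have h4 : ((j + 1 : ℕ) : ℝ) / N ≤ Bs v := by
              rw [div_le_iff₀ hN', mul_comm]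
              have h5 : j + 1 ≤ J := Finset.mem_range.1 hj
              have h6 : ((j + 1 : ℕ) : ℝ) ≤ J := by exact_mod_cast h5
              linarith
            have h5 : Fl v a (j + 1) ⊓ V = V ⊓ ⨅ j' ∈ Rp v,
                lev ((hω v).comp (s (ρ j'))) (B v j' - Bs v + ((j : ℝ) + 1) / N - c v (ρ j')) := by
              rw [hFl', if_neg hl, if_pos h4, inf_right_comm, inf_idem]
              push_cast
              rfl
            rw [h5, hD]
            exact inf_dim80 V _ _
          refine le_trans ?_ (Finset.sum_le_sum h3)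
          have h6 : ∀ j' ∈ Rp v, D * (N * (Bs v - B v j') - 2) +
              N * ∑ i, min (B v j') (ω v (s (ρ j') (e' v j' i)) + c v (ρ j')) ≤
              ∑ j ∈ Finset.range J, (finrank k ↥(V ⊓ lev ((hω v).comp (s (ρ j')))
                (B v j' - Bs v + ((j : ℝ) + 1) / N - c v (ρ j'))) : ℝ) := by
            intro j' _
            rw [hD]
            exact col_low80 ((hω v).comp (s (ρ j'))) V (e' v j') (he' v j') (heV' v j') (c v (ρ j'))
              (fun x hx hx0 => ha v (ρ j') x hx hx0) hN (hB v j') J hJ2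
          have h7 : ∑ j ∈ Finset.range J, (D - ∑ j' ∈ Rp v, (D - (finrank k ↥(V ⊓ lev ((hω v).comp (s (ρ j')))
              (B v j' - Bs v + ((j : ℝ) + 1) / N - c v (ρ j'))) : ℝ))) =
              J * D * (1 - (Rp v).card) + ∑ j' ∈ Rp v, ∑ j ∈ Finset.range J, (finrank k ↥(V ⊓ lev ((hω v).comp (s (ρ j')))
                (B v j' - Bs v + ((j : ℝ) + 1) / N - c v (ρ j'))) : ℝ) := by
            rw [Finset.sum_comm (s := Rp v)]
            simp only [Finset.sum_sub_distrib, Finset.sum_const, Finset.card_range, nsmul_eq_mul]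
            ring
          rw [h7]
          have h8 := Finset.sum_le_sum h6
          have h9 : ∑ j' ∈ Rp v, (D * (N * (Bs v - B v j') - 2) +
              N * ∑ i, min (B v j') (ω v (s (ρ j') (e' v j' i)) + c v (ρ j'))) =
              D * (N * ((Rp v).card * Bs v - ∑ j ∈ Rp v, B v j) - 2 * (Rp v).card) +
                N * ∑ j ∈ Rp v, ∑ i, min (B v j) (ω v (s (ρ j) (e' v j i)) + c v (ρ j)) := by
            rw [Finset.sum_add_distrib, ← Finset.mul_sum, ← Finset.mul_sum, Finset.sum_sub_distrib, ← Finset.mul_sum,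
              Finset.sum_sub_distrib, Finset.sum_const, Finset.sum_const, nsmul_eq_mul, nsmul_eq_mul]
            ring
          rw [h9] at h8
          have h10 : N * Bs v * D * (1 - (Rp v).card) ≤ J * D * (1 - (Rp v).card) := by
            have h11 : J * D * ((Rp v).card - 1) ≤ N * Bs v * D * ((Rp v).card - 1) := by
              have : (0 : ℝ) ≤ (Rp v).card - 1 := by linarith
              gcongr
            linarith
          have h11 : D * (2 * (Rp v).card) ≤ D * (2 * r + 1) := mul_le_mul_of_nonneg_left (by linarith) hD0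
          nlinarith
        have h12 : (((Fintype.card G) * ∑ a, ∑ j ∈ Finset.range M, finrank k (Fl v a (j + 1) ⊓ V : Submodule k K) : ℕ) : ℝ) =
            Fintype.card G * ∑ a, ∑ j ∈ Finset.range M, (finrank k (Fl v a (j + 1) ⊓ V : Submodule k K) : ℝ) := by
          push_cast
          rfl
        rw [h12]
        have h13 : Fintype.card G * (N * (∑ j ∈ Rp v, ∑ i, min (B v j) (ω v (s (ρ j) (e' v j i)) + c v (ρ j)) +
              D * (Bs v - ∑ j ∈ Rp v, B v j)) - D * (2 * r + 1)) ≤
            ∑ a, ∑ j ∈ Finset.range M, (finrank k (Fl v a (j + 1) ⊓ V : Submodule k K) : ℝ) := by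
          have h14 := Finset.sum_le_sum fun a (_ : a ∈ (Finset.univ : Finset G)) => h1 a
          rw [Finset.sum_const, Finset.card_univ, nsmul_eq_mul] at h14
          exact h14
        have h15 := mul_le_mul_of_nonneg_left h13 (Nat.cast_nonneg (α := ℝ) (Fintype.card G))
        have h16 : ∑ j ∈ Rp v, (∑ i, min (B v j) (ω v (s (ρ j) (e' v j i)) + c v (ρ j)) -
            (1 - ((Finset.univ.filter fun j' => cl v j' = j).card : ℝ) / r) * B v j * D) =
            ∑ j ∈ Rp v, ∑ i, min (B v j) (ω v (s (ρ j) (e' v j i)) + c v (ρ j)) -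
              (∑ j ∈ Rp v, B v j - 1 / (r : ℝ) * Bs v) * D := by
          rw [Finset.sum_sub_distrib, ← Finset.sum_mul]
          congr 2
          rw [← hsumB, Finset.mul_sum, ← Finset.sum_sub_distrib]
          refine Finset.sum_congr rfl fun j _ => ?_
          ring
        rw [h16, hk]
        linarith
    -- the sum
    have hsum := Finset.sum_le_sum fun v (_ : v ∈ Finset.univ) => contr v
    rw [Finset.sum_sub_distrib, Finset.sum_sub_distrib, ← Finset.mul_sum, ← hZ, ← Finset.mul_sum] at hsum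
    have h17 : (∑ v, (((Gd' v).card * ∑ a, ∑ j ∈ Finset.range M, finrank k (Fl v a (j + 1) ⊓ V : Submodule k K) : ℕ) : ℝ)) =
        ((∑ v, (Gd' v).card * ∑ a, ∑ j ∈ Finset.range M, finrank k (Fl v a (j + 1) ⊓ V : Submodule k K) : ℕ) : ℝ) := by
      push_cast
      rfl
    rw [h17] at hsum
    have h18 : ∑ v, (Fintype.card G : ℝ) ^ 2 * κ v * D = (Fintype.card G : ℝ) ^ 2 * (∑ v, κ v) * D := by
      rw [← Finset.sum_mul, ← Finset.mul_sum]
    rw [h18] at hsum
    rw [← hD, hA] at key
    nlinarith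
  rw [← hD]
  obtain ⟨X, hX⟩ : ∃ X : ℝ, X = ∑ v, (if lin v then ((Gd v).card : ℝ) * ∑ g ∈ T v, ∑ i, (ω v (s g (e v g i)) + c v g) else
      (Fintype.card G : ℝ) ^ 2 * ∑ j ∈ Rp v, (∑ i, min (B v j) (ω v (s (ρ j) (e' v j i)) + c v (ρ j)) -
        (1 - ((Finset.univ.filter fun j' => cl v j' = j).card : ℝ) / r) * B v j * D)) := ⟨_, rfl⟩
  rw [← hX] at main ⊢
  by_contra hlt
  push Not at hlt
  obtain ⟨N, hN⟩ := exists_nat_gt ((C * D + Z) / (X - Fintype.card G * D))
  have h1 : 0 < X - Fintype.card G * D := sub_pos.2 hlt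
  rw [div_lt_iff₀ h1] at hN
  have h2 := main (N + 1) (Nat.succ_pos N)
  push_cast at h2
  nlinarith

end Pool.Agent.SQ
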