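import Pool.Agent.Helper68.ZS.VERi
import Pool.Agent.Helper80.LD.GAw

/-!
# The monomials of degree `δ` (after block VER of helper30), with classes of cosets

As `ver_mi` of `Pool/Agent/Helper68/ZS/VERi.lean` (helper68), from `germs_wi`.
-/

set_option autoImplicit false
set_option linter.unusedSectionVars false

namespace Pool.Agent.SQ

open NumberField Filter Module MvPolynomial
open Pool.Agent.Helper64.Vojta (Pl nv sn above)
open Pool.Agent.V2
open Pool.Agent.Chart (fld dg crd hgt)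
open Pool.Agent.ZS (HQ mem_HQ)

universe u

/-- the monomials of degree `δ` -/
private abbrev vrM (N δ : ℕ) : Type := ↥(Finset.finsuppAntidiag (Finset.univ : Finset (Fin (N + 1))) δ)

private theorem vrM_sum {N δ : ℕ} (s : vrM N δ) : ∑ j, s.1 j = δ := (Finset.mem_finsuppAntidiag.1 s.2).1

/-- the values of the monomials -/
private noncomputable def vrY {L : Type*} [Field L] {N δ : ℕ} (x : Fin (N + 1) → L) (s : vrM N δ) : L :=
  ∏ j, x j ^ s.1 j

private noncomputable def vrP (N δ : ℕ) (j : Fin (N + 1)) : vrM N δ :=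
  ⟨Finsupp.single j δ, by
    classical
    rw [Finset.mem_finsuppAntidiag]
    refine ⟨?_, Finset.subset_univ _⟩
    simp [Finsupp.single_apply]⟩

private theorem vrY_P {L : Type*} [Field L] {N δ : ℕ} (x : Fin (N + 1) → L) (j : Fin (N + 1)) :
    vrY x (vrP N δ j) = x j ^ δ := by
  classical
  unfold vrY vrP
  rw [Finset.prod_eq_single j]
  · simp
  · intro b _ hb
    rw [Finsupp.single_eq_of_ne hb, pow_zero]
  · intro h; exact absurd (Finset.mem_univ _) h

section

variable {k : Type u} [Field k] [NumberField k] {G : Type*} [Group G] [Fintype G]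
variable {L : Type u} [Field L] [Algebra k L] {s : G →* (L ≃ₐ[k] L)} {N : Pl k → L → ℝ}

private theorem vr_one (h : QSG s N) (v : Pl k) : N v 1 = 1 := by
  have h1 := h.mul v 1 1
  rw [mul_one] at h1
  have h2 := h.pos v 1 one_ne_zero
  have : N v 1 * (N v 1 - 1) = 0 := by linarith
  rcases mul_eq_zero.1 this with h3 | h3
  · exact absurd h3 h2.ne'
  · linarith

private theorem vr_nonneg (h : QSG s N) (v : Pl k) (x : L) : 0 ≤ N v x := by
  by_cases hx : x = 0
  · rw [hx, h.zero]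
  · exact (h.pos v x hx).le

private theorem vr_pow (h : QSG s N) (v : Pl k) (x : L) (n : ℕ) : N v (x ^ n) = N v x ^ n := by
  induction n with
  | zero => rw [pow_zero, pow_zero, vr_one h]
  | succ n ih => rw [pow_succ, pow_succ, h.mul, ih]

private theorem vr_prod (h : QSG s N) (v : Pl k) {ι : Type*} (t : Finset ι) (f : ι → L) :
    N v (∏ i ∈ t, f i) = ∏ i ∈ t, N v (f i) := by
  classical
  induction t using Finset.induction_on with
  | empty => rw [Finset.prod_empty, Finset.prod_empty, vr_one h]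
  | insert a t ha ih => rw [Finset.prod_insert ha, Finset.prod_insert ha, h.mul, ih]

private theorem vr_mxn (h : QSG s N) (v : Pl k) {m δ : ℕ} (X : Fin (m + 1) → L) :
    mxn (N v) (vrY (δ := δ) X) = mxn (N v) X ^ δ := by
  have hb : ∀ j, N v (X j) ≤ mxn (N v) X := fun j => le_ciSup (Set.finite_range fun a => N v (X a)).bddAbove j
  obtain ⟨j0, hj0⟩ := exists_eq_ciSup_of_finite (f := fun a => N v (X a))
  have : Nonempty (vrM m δ) := ⟨vrP m δ 0⟩
  apply le_antisymm
  · refine ciSup_le fun t => ?_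
    unfold vrY
    rw [vr_prod h]
    calc ∏ j, N v (X j ^ t.1 j) ≤ ∏ j, (mxn (N v) X) ^ t.1 j := by
          refine Finset.prod_le_prod (fun j _ => vr_nonneg h _ _) fun j _ => ?_
          rw [vr_pow h]
          exact pow_le_pow_left₀ (vr_nonneg h _ _) (hb j) _
      _ = mxn (N v) X ^ δ := by rw [Finset.prod_pow_eq_pow_sum, vrM_sum]
  · have h1 : N v (vrY X (vrP m δ j0)) ≤ mxn (N v) (vrY (δ := δ) X) :=
      le_ciSup (Set.finite_range fun a => N v (vrY (δ := δ) X a)).bddAbove _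
    rw [vrY_P, vr_pow h] at h1
    have h2 : N v (X j0) = mxn (N v) X := hj0
    rwa [h2] at h1

private theorem vrY_map {m δ : ℕ} (X : Fin (m + 1) → L) (g : G) :
    (fun t => s g (vrY (δ := δ) X t)) = vrY fun j => s g (X j) := by
  funext t
  unfold vrY
  rw [map_prod]
  exact Finset.prod_congr rfl fun j _ => map_pow _ _ _

end

section

variable {k : Type u} [Field k]

/-- the polynomial with given coefficients -/
private noncomputable def vrL (k : Type u) [Field k] (N δ : ℕ) : (vrM N δ → k) →ₗ[k] MvPolynomial (Fin (N + 1)) k :=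
  ∑ t : vrM N δ, (monomial t.1) ∘ₗ LinearMap.proj t

private theorem vrL_apply {N δ : ℕ} (m : vrM N δ → k) : vrL k N δ m = ∑ t, monomial t.1 (m t) := by
  unfold vrL
  rw [LinearMap.sum_apply]
  rfl

private theorem aeval_vrL {L : Type*} [Field L] [Algebra k L] {N δ : ℕ} (x : Fin (N + 1) → L) (m : vrM N δ → k) :
    aeval x (vrL k N δ m) = lvg m (vrY x) := by
  rw [vrL_apply, map_sum]
  unfold lvg
  refine Finset.sum_congr rfl fun t _ => ?_
  rw [aeval_monomial]
  congr 1
  unfold vrY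
  exact Finsupp.prod_fintype _ _ fun i => pow_zero _

private theorem vrL_coeff {N δ : ℕ} (p : MvPolynomial (Fin (N + 1)) k) (hp : p.IsHomogeneous δ) :
    vrL k N δ (fun t => coeff t.1 p) = p := by
  classical
  rw [vrL_apply]
  ext d
  rw [coeff_sum]
  simp only [coeff_monomial]
  by_cases hd : ∑ j, d j = δ
  · have hd' : d ∈ Finset.finsuppAntidiag (Finset.univ : Finset (Fin (N + 1))) δ :=
      Finset.mem_finsuppAntidiag.2 ⟨hd, Finset.subset_univ _⟩
    rw [Finset.sum_eq_single (⟨d, hd'⟩ : vrM N δ)]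
    · simp
    · intro b _ hb
      rw [if_neg]
      intro h
      exact hb (Subtype.ext h)
    · intro h; exact absurd (Finset.mem_univ _) h
  · have h1 : coeff d p = 0 := by
      refine hp.coeff_eq_zero ?_
      rw [Finsupp.degree_eq_sum]
      exact hd
    rw [h1]
    refine Finset.sum_eq_zero fun t _ => ?_
    rw [if_neg]
    intro h
    exact hd (by rw [← h]; exact vrM_sum t)

private theorem vrL_homog {N δ : ℕ} (m : vrM N δ → k) : (vrL k N δ m).IsHomogeneous δ := by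
  rw [vrL_apply]
  refine IsHomogeneous.sum _ _ _ fun t _ => ?_
  refine isHomogeneous_monomial _ ?_
  rw [Finsupp.degree_eq_sum]
  exact vrM_sum t

private theorem vrL_range {N δ : ℕ} : LinearMap.range (vrL k N δ) = homogeneousSubmodule (Fin (N + 1)) k δ := by
  ext p
  rw [mem_homogeneousSubmodule]
  constructor
  · rintro ⟨m, rfl⟩; exact vrL_homog m
  · intro hp; exact ⟨_, vrL_coeff p hp⟩

end

section

variable {k : Type u} [Field k] [NumberField k] {G : Type} [Group G] [Fintype G]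

/-- the heights multiplied by `δ` -/
private noncomputable def scD (D : SqG k G) {δ : ℕ} (hδ : 0 < δ) : SqG k G :=
  { U := D.U, L := D.L, fL := D.fL, aL := D.aL, s := D.s, N := D.N, qs := D.qs, H := fun a => δ * D.H a,
    H1 := D.H1.const_mul_atTop (by exact_mod_cast hδ) }

variable {D : SqG k G} {N δ : ℕ} (hδ : 0 < δ) (x : ∀ n, Fin (N + 1) → D.L n)

/-- the point of the monomials -/
private noncomputable def vy (n : ℕ) : vrM N δ → (scD D hδ).L n := vrY (δ := δ) (x n)

private theorem vlog (a : ℕ) (v : Pl k) (g : G) : Real.log (mxn (D.N a v) fun t => D.s a g (vrY (δ := δ) (x a) t)) =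
    δ * Real.log (mxn (D.N a v) fun j => D.s a g (x a j)) := by
  rw [vrY_map, vr_mxn (D.qs a), Real.log_pow]

private theorem vPt (hx : Ptg D x) : Ptg (scD D hδ) (vy hδ x) := by
  refine ⟨fun a => ?_, fun a => ?_⟩
  · obtain ⟨j, hj⟩ := hx.1 a
    refine ⟨vrP N δ j, ?_⟩
    show vrY (x a) _ = 1
    rw [vrY_P, hj, one_pow]
  · show δ * D.H a = gsum fun v => ∑ g, Real.log (mxn (D.N a v) fun t => D.s a g (vrY (δ := δ) (x a) t))
    rw [hx.2 a]
    unfold Hg
    rw [← gsum_const_mul]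
    congr 1
    funext v
    rw [Finset.mul_sum]
    exact Finset.sum_congr rfl fun g _ => (vlog x a v g).symm

private theorem vfix {Hs : Subgroup G} (hH : ∀ a, ∀ h ∈ Hs, ∀ j, D.s a h (x a j) = x a j) :
    ∀ a, ∀ h ∈ Hs, ∀ t, (scD D hδ).s a h (vy hδ x a t) = vy hδ x a t := by
  intro a h hh t
  have h1 := congrFun (vrY_map (s := D.s a) (δ := δ) (x a) h) t
  show D.s a h (vrY (x a) t) = vrY (x a) t
  rw [h1]
  congr 1
  funext j
  exact hH a h hh j

/-- the forms modulo the vanishing ones -/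
private noncomputable def vT : (vrM N δ → k) →ₗ[k] (MvPolynomial (Fin (N + 1)) k ⧸ vanI D x) :=
  (Ideal.Quotient.mkₐ k (vanI D x)).toLinearMap ∘ₗ vrL k N δ

private theorem vker : LinearMap.ker (vT (δ := δ) x) = vang (scD D hδ) (vy hδ x) := by
  ext m
  rw [LinearMap.mem_ker]
  have h1 : vT x m = Ideal.Quotient.mk (vanI D x) (vrL k N δ m) := rfl
  rw [h1, Ideal.Quotient.eq_zero_iff_mem]
  show (∀ᶠ a in (D.U : Filter ℕ), aeval (x a) (vrL k N δ m) = 0) ↔ ∀ᶠ a in (D.U : Filter ℕ), lvg m (vrY (x a)) = 0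
  simp only [aeval_vrL]

private noncomputable def vQ : ((vrM N δ → k) ⧸ vang (scD D hδ) (vy hδ x)) →ₗ[k] (MvPolynomial (Fin (N + 1)) k ⧸ vanI D x) :=
  (vang (scD D hδ) (vy hδ x)).liftQ (vT x) (vker hδ x).ge

private theorem vQ_mk (p : MvPolynomial (Fin (N + 1)) k) (hp : p.IsHomogeneous δ) :
    vQ hδ x ((vang (scD D hδ) (vy hδ x)).mkQ fun t => coeff t.1 p) = Ideal.Quotient.mk (vanI D x) p := by
  show (vang (scD D hδ) (vy hδ x)).liftQ (vT x) (vker hδ x).ge ((vang (scD D hδ) (vy hδ x)).mkQ _) = _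
  rw [Submodule.mkQ_apply, Submodule.liftQ_apply]
  show Ideal.Quotient.mk (vanI D x) (vrL k N δ _) = _
  rw [vrL_coeff _ hp]

private theorem vQ_inj : Function.Injective (vQ hδ x) := by
  rw [← LinearMap.ker_eq_bot]
  exact (Submodule.ker_liftQ_eq_bot _ _ _ (vker hδ x).le)

private theorem vind {m : ℕ} (f : Fin m → MvPolynomial (Fin (N + 1)) k) (hf : ∀ i, (f i).IsHomogeneous δ)
    (h : LinearIndependent k fun i => Ideal.Quotient.mk (vanI D x) (f i)) :
    LinearIndependent k fun i => (vang (scD D hδ) (vy hδ x)).mkQ (fun t => coeff t.1 (f i)) := by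
  refine LinearIndependent.of_comp (vQ hδ x) ?_
  have h1 : (vQ hδ x ∘ fun i => (vang (scD D hδ) (vy hδ x)).mkQ (fun t => coeff t.1 (f i))) =
      fun i => Ideal.Quotient.mk (vanI D x) (f i) := by
    funext i
    exact vQ_mk hδ x _ (hf i)
  rw [h1]
  exact h

private theorem vfin (V' : Submodule k (MvPolynomial (Fin (N + 1)) k ⧸ vanI D x)) (hV' : V' ≤ HQ (vanI D x) δ) :
    finrank k (V'.comap (vQ hδ x)) = finrank k V' := by
  have h1 : (V'.comap (vQ hδ x)).map (vQ hδ x) = V' := by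
    rw [Submodule.map_comap_eq, inf_eq_right]
    intro z hz
    obtain ⟨p, hp, rfl⟩ := hV' hz
    exact ⟨_, vQ_mk hδ x p hp⟩
  have h2 := (Submodule.equivMapOfInjective (vQ hδ x) (vQ_inj hδ x) (V'.comap (vQ hδ x))).finrank_eq
  rw [h2, h1]

/-- lower bounds for the values of the linear combinations -/
private theorem vspan (v : Pl k) (g : G) {σ : ℝ} {e : MvPolynomial (Fin (N + 1)) k}
    (he : e ∈ Submodule.span k {p : MvPolynomial (Fin (N + 1)) k | p.IsHomogeneous δ ∧ (p ∈ vanI D x ∨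
      LB D (fun a => gam (D.s a) (D.N a) (x a) δ p v g) σ)}) :
    (fun t : vrM N δ => coeff t.1 e) ∈ Submodule.span k {m | m ∈ vang (scD D hδ) (vy hδ x) ∨
      LB (scD D hδ) (tm (scD D hδ) (vy hδ x) v g m) (σ / δ)} := by
  have hδ' : (0 : ℝ) < δ := by exact_mod_cast hδ
  let c : MvPolynomial (Fin (N + 1)) k →ₗ[k] (vrM N δ → k) :=
    { toFun := fun p t => coeff t.1 p
      map_add' := fun p q => by
        funext t
        exact coeff_add _ _ _
      map_smul' := fun a p => by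
        funext t
        exact coeff_smul _ _ _ }
  have h1 : c e ∈ (Submodule.span k {p : MvPolynomial (Fin (N + 1)) k | p.IsHomogeneous δ ∧ (p ∈ vanI D x ∨
      LB D (fun a => gam (D.s a) (D.N a) (x a) δ p v g) σ)}).map c := ⟨e, he, rfl⟩
  rw [Submodule.map_span] at h1
  refine Submodule.span_mono ?_ h1
  rintro _ ⟨p, ⟨hp, hpv | hLB⟩, rfl⟩
  · refine Or.inl ?_
    rw [← vker hδ x, LinearMap.mem_ker]
    show Ideal.Quotient.mk (vanI D x) (vrL k N δ (fun t => coeff t.1 p)) = 0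
    rw [vrL_coeff _ hp]
    exact Ideal.Quotient.eq_zero_iff_mem.2 hpv
  refine Or.inr fun η hη => ?_
  have h2 := hLB (δ * η) (mul_pos hδ' hη)
  filter_upwards [h2] with a ha
  have h3 : tm (scD D hδ) (vy hδ x) v g (c p) a = gam (D.s a) (D.N a) (x a) δ p v g := by
    show Real.log (mxn (D.N a v) fun t => D.s a g (vrY (δ := δ) (x a) t)) -
      Real.log (D.N a v (D.s a g (lvg (fun t : vrM N δ => coeff t.1 p) (vrY (x a))))) = _
    rw [vlog, ← aeval_vrL, vrL_coeff _ hp]
    rfl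
  rw [h3]
  refine le_trans (le_of_eq ?_) ha
  show (σ / δ - η) * (δ * D.H a) = _
  field_simp

include hδ

/-- As `ver_mi`, with classes of cosets. -/
theorem ver_wi (hx : Ptg D x) (P : Finset (Pl k))
    (Hs : Subgroup G) (hH : ∀ a, ∀ h ∈ Hs, ∀ j, D.s a h (x a j) = x a j)
    (lin : Pl k → Prop) [DecidablePred lin] (Gd T : Pl k → Finset G)
    (hC : ∀ a, ∀ v ∈ P, lin v → ∀ u ∈ Gd v, ∀ g ∈ T v, ∀ z : D.L a, (∀ h ∈ Hs, D.s a h z = z) →
      D.N a v (D.s a (u * g) z) = D.N a v (D.s a g z))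
    {r : ℕ} (ρ : Fin r → G) (hρ : ∀ g, ∃! j, (ρ j)⁻¹ * g ∈ Hs)
    (B : Pl k → Fin r → ℝ) (hB : ∀ v ∈ P, ∀ j, 0 ≤ B v j) (Rp : Pl k → Finset (Fin r)) (cl : Pl k → Fin r → Fin r)
    (hcl : ∀ v ∈ P, ¬ lin v → ∀ j, cl v j ∈ Rp v ∧ B v (cl v j) = B v j)
    (hclN : ∀ a, ∀ v ∈ P, ¬ lin v → ∀ j, ∀ z : D.L a, (∀ h ∈ Hs, D.s a h z = z) →
      D.N a v (D.s a (ρ (cl v j)) z) = D.N a v (D.s a (ρ j) z))
    (V' : Submodule k (MvPolynomial (Fin (N + 1)) k ⧸ vanI D x)) (hV' : V' ≤ HQ (vanI D x) δ)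
    (n : Pl k → G → ℕ) (e : ∀ v g, Fin (n v g) → MvPolynomial (Fin (N + 1)) k) (hh : ∀ v g i, (e v g i).IsHomogeneous δ)
    (he : ∀ v ∈ P, ∀ g, LinearIndependent k fun i => Ideal.Quotient.mk (vanI D x) (e v g i))
    (heV : ∀ v ∈ P, ∀ g i, Ideal.Quotient.mk (vanI D x) (e v g i) ∈ V') (σ : ∀ v g, Fin (n v g) → ℝ)
    (hσ : ∀ v ∈ P, ∀ g i, e v g i ∈ Submodule.span k {p : MvPolynomial (Fin (N + 1)) k | p.IsHomogeneous δ ∧ (p ∈ vanI D x ∨
      LB D (fun a => gam (D.s a) (D.N a) (x a) δ p v g) (σ v g i))})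
    (n' : Pl k → Fin r → ℕ) (e' : ∀ v j, Fin (n' v j) → MvPolynomial (Fin (N + 1)) k) (hh' : ∀ v j i, (e' v j i).IsHomogeneous δ)
    (he' : ∀ v ∈ P, ∀ j, LinearIndependent k fun i => Ideal.Quotient.mk (vanI D x) (e' v j i))
    (heV' : ∀ v ∈ P, ∀ j i, Ideal.Quotient.mk (vanI D x) (e' v j i) ∈ V') (σ' : ∀ v j, Fin (n' v j) → ℝ)
    (hσ' : ∀ v ∈ P, ∀ j i, e' v j i ∈ Submodule.span k {p : MvPolynomial (Fin (N + 1)) k | p.IsHomogeneous δ ∧ (p ∈ vanI D x ∨
      LB D (fun a => gam (D.s a) (D.N a) (x a) δ p v (ρ j)) (σ' v j i))})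
    (hσB : ∀ v ∈ P, ∀ j i, σ' v j i ≤ B v j) :
    ∑ v ∈ P, (if lin v then ((Gd v).card : ℝ) * ∑ g ∈ T v, ∑ i, σ v g i else
      (Fintype.card G : ℝ) ^ 2 * ∑ j ∈ Rp v, (∑ i, σ' v j i -
        (1 - ((Finset.univ.filter fun j' => cl v j' = j).card : ℝ) / r) * B v j * finrank k V')) ≤
      Fintype.card G * finrank k V' * δ := by
  have hδ' : (0 : ℝ) < δ := by exact_mod_cast hδ
  have key := germs_wi (D := scD D hδ) (vy hδ x) (vPt hδ x hx) P Hs (vfix hδ x hH) lin Gd T hC ρ hρ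
    (fun v j => B v j / δ) (fun v hv j => div_nonneg (hB v hv j) hδ'.le) Rp cl
    (fun v hv hl j => ⟨(hcl v hv hl j).1, by rw [(hcl v hv hl j).2]⟩) hclN (V'.comap (vQ hδ x)) n
    (fun v g i t => coeff t.1 (e v g i)) (fun v hv g => vind hδ x _ (hh v g) (he v hv g))
    (fun v hv g i => by
      rw [Submodule.mem_comap, vQ_mk hδ x _ (hh v g i)]
      exact heV v hv g i) (fun v g i => σ v g i / δ) (fun v hv g i => vspan hδ x v g (hσ v hv g i))
    n'
    (fun v j i t => coeff t.1 (e' v j i)) (fun v hv j => vind hδ x _ (hh' v j) (he' v hv j))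
    (fun v hv j i => by
      rw [Submodule.mem_comap, vQ_mk hδ x _ (hh' v j i)]
      exact heV' v hv j i) (fun v j i => σ' v j i / δ) (fun v hv j i => vspan hδ x v (ρ j) (hσ' v hv j i))
    (fun v hv j i => div_le_div_of_nonneg_right (hσB v hv j i) hδ'.le)
  rw [vfin hδ x V' hV'] at key
  rw [← div_le_iff₀ hδ', Finset.sum_div]
  refine le_trans (le_of_eq ?_) key
  refine Finset.sum_congr rfl fun v _ => ?_
  by_cases hv : lin v
  · rw [if_pos hv, if_pos hv, mul_div_assoc, Finset.sum_div]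
    congr 1
    exact Finset.sum_congr rfl fun g _ => Finset.sum_div _ _ _
  · rw [if_neg hv, if_neg hv, mul_div_assoc, Finset.sum_div]
    congr 1
    refine Finset.sum_congr rfl fun j _ => ?_
    rw [sub_div, Finset.sum_div]
    congr 1
    ring

end

end Pool.Agent.SQ
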