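import Pool.Agent.Helper68.ZS.COR
import Pool.Agent.Helper80.LD.VERw

/-!
# The inequality for the limits of the local values, with an exceptional form which is chosen first

As `core0` of `Pool/Agent/Helper68/ZS/COR.lean` (helper68), with finitely many truncations.
-/

set_option autoImplicit false
set_option linter.unusedSectionVars false

namespace Pool.Agent.SQ

open NumberField Filter Module MvPolynomial
open Pool.Agent.Helper64.Vojta (Pl nv sn above)
open Pool.Agent.V2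
open Pool.Agent.Chart (fld dg crd hgt)
open Pool.Agent.ZS (HQ mem_HQ)

universe u

/-! ### the families -/

section

variable {k : Type u} [Field k] [NumberField k]

/-- the families for all injections, with the same `m` -/
private theorem fam80 {N n d q : ℕ} (hd : 0 < d) (I : Ideal (MvPolynomial (Fin (N + 1)) k)) [I.IsPrime]
    (hI : ∀ p ∈ I, ∀ m, homogeneousComponent m p ∈ I)
    (hdim : Algebra.trdeg k (MvPolynomial (Fin (N + 1)) k ⧸ I) = n + 1)
    (f : Fin q → MvPolynomial (Fin (N + 1)) k) (hf : ∀ i, (f i).IsHomogeneous d) {θ : ℝ} (hθ : 0 ≤ θ) (hθ1 : θ ≤ 1)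
    {ε : ℝ} (hε : 0 < ε) :
    ∀ᶠ m : ℕ in atTop, ∀ j : Fin (n + 1) → Fin q,
      (∃ M, ∀ l, (X l : MvPolynomial (Fin (N + 1)) k) ^ M ∈ I ⊔ Ideal.span (Set.range fun l => f (j l))) →
      ∃ (R : ℕ) (α : Fin R → Fin (n + 1) → ℕ) (β : Fin R → ℕ)
      (b : Fin R → MvPolynomial (Fin (N + 1)) k), (∀ t, ∑ i, α t i + β t = m) ∧ (∀ t, (b t).IsHomogeneous (d * β t)) ∧
      LinearIndependent k (fun t => Ideal.Quotient.mk I ((∏ i, f (j i) ^ α t i) * b t)) ∧
      ∀ i, (1 - ε) * (m * Eq n θ) * hilb I (d * m) ≤ ∑ t, min (θ * m) (α t i : ℝ) := by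
  rw [Filter.eventually_all]
  intro j
  by_cases hj : ∃ M, ∀ l, (X l : MvPolynomial (Fin (N + 1)) k) ^ M ∈ I ⊔ Ideal.span (Set.range fun l => f (j l))
  · obtain ⟨m0, hm0⟩ := efx_q hd I hI hdim (fun l => f (j l)) (fun l => hf _) hj hθ hθ1 hε
    exact (eventually_ge_atTop m0).mono fun m hm _ => hm0 m hm
  · exact Eventually.of_forall fun m h => absurd h hj

/-- The exceptional form `Q` is chosen first. Then for all sequences of points outside `Q = 0`, and for finitely many local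
data `(v, g, b)` (the values are truncated at `θ b` times the total), there are a subspace of the forms of degree `d * m`
modulo the vanishing ones, and independent families in it. -/
theorem core0_w {N n d q : ℕ} (hd : 0 < d) (I : Ideal (MvPolynomial (Fin (N + 1)) k)) [hIp : I.IsPrime]
    (hI : ∀ p ∈ I, ∀ m, homogeneousComponent m p ∈ I)
    (hdim : Algebra.trdeg k (MvPolynomial (Fin (N + 1)) k ⧸ I) = n + 1)
    (f : Fin q → MvPolynomial (Fin (N + 1)) k) (hf : ∀ i, (f i).IsHomogeneous d) {Ξ : Type} [Fintype Ξ] {θ : Ξ → ℝ}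
    (hθ : ∀ ξ, 0 ≤ θ ξ) (hθ1 : ∀ ξ, θ ξ ≤ 1) {ε : ℝ} (hε : 0 < ε) :
    ∃ (m : ℕ) (Q : MvPolynomial (Fin (N + 1)) k), 0 < m ∧ Q ∉ I ∧ (∃ e, Q.IsHomogeneous e) ∧
      ∀ {G : Type} [Group G] [Fintype G] {D : SqG k G} (y : ∀ a, Fin (N + 1) → D.L a), Ptg D y →
        (∀ a, ∀ p ∈ I, aeval (y a) p = 0) → (∀ a, aeval (y a) Q ≠ 0) →
        ∀ {Λ : Type u} [Fintype Λ] (T : Λ → Finset (Fin q)), (∀ l, n + 1 ≤ (T l).card) →
        (∀ l, ∀ J ⊆ T l, J.card = n + 1 → ∀ x : Fin (N + 1) → AlgebraicClosure k, (∀ p ∈ I, aeval x p = 0) →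
          (∀ i ∈ J, aeval x (f i) = 0) → x = 0) → (∀ a, ∀ l, ∀ i ∈ T l, aeval (y a) (f i) ≠ 0) →
        ∀ (v : Λ → Pl k) (g : Λ → G) (b : Λ → Ξ) (L : Λ → Fin q → ℝ), (∀ l, ∀ i ∈ T l, 0 ≤ L l i) →
        (∀ l, ∀ i ∈ T l, LB D (fun a => gam (D.s a) (D.N a) (y a) d (f i) (v l) (g l)) (L l i)) →
        ∀ κ : Λ → ℝ, (∀ l, 0 ≤ κ l) →
        ∃ V' : Submodule k (MvPolynomial (Fin (N + 1)) k ⧸ vanI D y), V' ≤ HQ (vanI D y) (d * m) ∧ 0 < finrank k V' ∧
          ∃ (R : Λ → ℕ) (e : ∀ l, Fin (R l) → MvPolynomial (Fin (N + 1)) k) (σ : ∀ l, Fin (R l) → ℝ),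
            (∀ l i, (e l i).IsHomogeneous (d * m)) ∧ (∀ l i, Ideal.Quotient.mk (vanI D y) (e l i) ∈ V') ∧
            (∀ l, LinearIndependent k fun i => Ideal.Quotient.mk (vanI D y) (e l i)) ∧
            (∀ l i, e l i ∈ Submodule.span k {p : MvPolynomial (Fin (N + 1)) k | p.IsHomogeneous (d * m) ∧ (p ∈ vanI D y ∨
              LB D (fun a => gam (D.s a) (D.N a) (y a) (d * m) p (v l) (g l)) (σ l i))}) ∧
            (∀ l i, σ l i ≤ m * θ (b l) * ∑ i ∈ T l, L l i) ∧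
            finrank k V' * (m * ∑ l, κ l * ((1 - ε) * Eq n (θ (b l)) * ∑ i ∈ T l, L l i)) ≤
              ∑ l, κ l * ∑ i, σ l i := by
  classical
  by_cases hX : ∃ j, (X j : MvPolynomial (Fin (N + 1)) k) ∉ I
  swap
  · refine ⟨1, 1, one_pos, fun h => hIp.ne_top ((Ideal.eq_top_iff_one I).2 h), ⟨0, isHomogeneous_one _ _⟩, ?_⟩
    intro G _ _ D y hy hyI
    exfalso
    push Not at hX
    obtain ⟨j, hj⟩ := hy.1 0
    have h1 := hyI 0 _ (hX j)
    rw [aeval_X, hj] at h1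
    exact one_ne_zero h1
  obtain ⟨j0, hj0⟩ := hX
  obtain ⟨m, hm0, hmpos⟩ := ((Filter.eventually_all.2 fun ξ => fam80 hd I hI hdim f hf (hθ ξ) (hθ1 ξ) hε).and
    (eventually_ge_atTop 1)).exists
  have hmp : 0 < m := hmpos
  -- the families
  have hfam : ∀ z : Ξ × (Fin (n + 1) → Fin q), ∃ (R : ℕ) (α : Fin R → Fin (n + 1) → ℕ) (β : Fin R → ℕ)
      (b : Fin R → MvPolynomial (Fin (N + 1)) k), ((∀ t, ∑ i, α t i + β t = m) ∧ (∀ t, (b t).IsHomogeneous (d * β t)) ∧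
      LinearIndependent k (fun t => Ideal.Quotient.mk I ((∏ i, f (z.2 i) ^ α t i) * b t))) ∧
      ((∃ M, ∀ l, (X l : MvPolynomial (Fin (N + 1)) k) ^ M ∈ I ⊔ Ideal.span (Set.range fun l => f (z.2 l))) →
      ∀ i, (1 - ε) * (m * Eq n (θ z.1)) * hilb I (d * m) ≤ ∑ t, min (θ z.1 * m) (α t i : ℝ)) := by
    rintro ⟨b, j⟩
    by_cases hj : ∃ M, ∀ l, (X l : MvPolynomial (Fin (N + 1)) k) ^ M ∈ I ⊔ Ideal.span (Set.range fun l => f (j l))
    · obtain ⟨R, α, β, b', h1, h2, h3, h4⟩ := hm0 b j hj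
      exact ⟨R, α, β, b', ⟨h1, h2, h3⟩, fun _ => h4⟩
    · exact ⟨0, Fin.elim0, Fin.elim0, Fin.elim0, ⟨fun t => t.elim0, fun t => t.elim0, linearIndependent_empty_type⟩,
        fun h => absurd h hj⟩
  choose R α β b hfam hest using hfam
  let p : ∀ z, Fin (R z) → MvPolynomial (Fin (N + 1)) k := fun z t => (∏ i, f (z.2 i) ^ α z t i) * b z t
  have hph : ∀ z t, (p z t).IsHomogeneous (d * m) := by
    intro z t
    have h5 : (∏ i, f (z.2 i) ^ α z t i).IsHomogeneous (∑ i, d * α z t i) :=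
      IsHomogeneous.prod _ _ _ fun i _ => (hf _).pow _
    have h6 := h5.mul ((hfam z).2.1 t)
    have h7 : ∑ i, d * α z t i + d * β z t = d * m := by
      rw [← (hfam z).1 t, ← Finset.mul_sum, mul_add]
    rwa [h7] at h6
  obtain ⟨𝒬, h𝒬, hQ⟩ := Pool.Agent.ZS.hnp.{u, u} I ⟨X j0 ^ (d * m), by
      have := (isHomogeneous_X k j0).pow (d * m)
      rwa [one_mul] at this, fun h => hj0 (hIp.mem_of_pow_mem _ h)⟩ R p hph (fun z => (hfam z).2.2)
  refine ⟨m, ∏ q ∈ 𝒬, q, hmp, ?_, ⟨∑ q ∈ 𝒬, d * m, IsHomogeneous.prod _ _ _ fun q hq => (h𝒬 q hq).1⟩, ?_⟩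
  · intro h
    obtain ⟨q, hq, hq'⟩ := hIp.prod_mem_iff.1 h
    exact (h𝒬 q hq).2 hq'
  intro G _ _ D y hy hyI hyQ Λ _ T hT hgp hyf v g bb L hL0 hL κ hκ
  have hIv : I ≤ vanI D y := fun p hp => Eventually.of_forall fun a => hyI a p hp
  have hQv : ∀ q ∈ 𝒬, q ∉ vanI D y := by
    intro q hq h
    have h1 : ∀ᶠ a in (D.U : Filter ℕ), aeval (y a) q = 0 := h
    obtain ⟨a, ha⟩ := h1.exists
    refine hyQ a ?_
    rw [map_prod]
    exact Finset.prod_eq_zero hq ha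
  have hsel := fun l => sel_i y hy.1 hd I hI hyI f hf (T l) (hT l) (hgp l) (fun a => hyf a l) (v l) (g l) (L l) (hL0 l) (hL l)
  choose j hjT hjf hjL using hsel
  have hP0 : ∀ l, ∀ l', 0 ≤ L l (j l l') := fun l l' => hL0 l _ (hjT l l')
  have hS0 : ∀ l, 0 ≤ ∑ i ∈ T l, L l i := fun l => Finset.sum_nonneg fun i hi => hL0 l i hi
  -- the values
  let s₁ : ∀ l, Fin (R (bb l, j l)) → ℝ := fun l t => ∑ i, α (bb l, j l) t i * L l (j l i)
  have hs₁ : ∀ l t, 0 ≤ s₁ l t := fun l t => Finset.sum_nonneg fun i _ => mul_nonneg (Nat.cast_nonneg _) (hP0 l i)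
  let s : ∀ l, Fin (R (bb l, j l)) → ℝ := fun l t => min (m * θ (bb l) * ∑ i ∈ T l, L l i) (s₁ l t)
  have hs0 : ∀ l t, 0 ≤ s l t := fun l t =>
    le_min (mul_nonneg (mul_nonneg (Nat.cast_nonneg _) (hθ _)) (hS0 l)) (hs₁ l t)
  have hss₁ : ∀ l t, s l t ≤ s₁ l t := fun l t => min_le_right _ _
  obtain ⟨V', hV', hpos, n', e, σ, heh, heV, heI, heS, hσ, hmain⟩ := hQ (vanI D y) hIv hQv (fun l => (bb l, j l)) κ s hs0
  refine ⟨V', hV', hpos, n', e, σ, heh, heV, heI, fun l i => ?_, fun l i => ?_, ?_⟩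
  · refine Submodule.span_mono ?_ (heS l i)
    rintro _ ⟨t, rfl, ht⟩
    refine ⟨hph _ t, ?_⟩
    by_cases hpv : p (bb l, j l) t ∈ vanI D y
    · exact Or.inl hpv
    · refine Or.inr ?_
      have h1 := lb_prod y (fun i => f (j l i)) (fun a i => hyf a l _ (hjT l i)) (v l) (g l) (fun i => L l (j l i))
        (fun i => hL l _ (hjT l i)) (α (bb l, j l) t) (b (bb l, j l) t) ((hfam _).2.1 t) ((hfam _).1 t) hpv
      intro η hη
      filter_upwards [h1 η hη, D.H1.eventually_gt_atTop 0] with a h2 h3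
      refine le_trans (mul_le_mul_of_nonneg_right ?_ h3.le) h2
      have h4 : σ l i ≤ s₁ l t := ht.trans (hss₁ l t)
      exact sub_le_sub_right h4 η
  · obtain ⟨t, ht⟩ := hσ l i
    rw [ht]
    exact min_le_left _ _
  · -- the estimate
    obtain ⟨Dm, hDm⟩ : ∃ Dm : ℝ, Dm = hilb I (d * m) := ⟨_, rfl⟩
    have hDm0 : 0 < Dm := by
      rw [hDm]
      have hfd := Pool.Agent.ZS.fd_hom (k := k) (N := N) (d * m)
      have h3 : Nontrivial (HQ I (d * m)) := by
        refine ⟨⟨⟨Ideal.Quotient.mk I (X j0 ^ (d * m)), mem_HQ (by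
          have := (isHomogeneous_X k j0).pow (d * m)
          rwa [one_mul] at this)⟩, 0, fun h => hj0 (hIp.mem_of_pow_mem (d * m) ?_)⟩⟩
        exact Ideal.Quotient.eq_zero_iff_mem.1 (congrArg Subtype.val h)
      have h4 : 0 < finrank k (HQ I (d * m)) := finrank_pos
      exact_mod_cast h4
    have hest' : ∀ l, Dm * (m * ((1 - ε) * Eq n (θ (bb l)) * ∑ i ∈ T l, L l i)) ≤ ∑ t, s l t := by
      intro l
      have h1 := hest (bb l, j l) (hjf l)
      rw [← hDm] at h1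
      have h2 : ∑ i, L l (j l i) * ((1 - ε) * (m * Eq n (θ (bb l))) * Dm) ≤
          ∑ i, L l (j l i) * ∑ t, min ((θ (bb l)) * m) (α (bb l, j l) t i : ℝ) :=
        Finset.sum_le_sum fun i _ => mul_le_mul_of_nonneg_left (h1 i) (hP0 l i)
      have h3 : Dm * (m * ((1 - ε) * Eq n (θ (bb l)) * ∑ i ∈ T l, L l i)) =
          ∑ i, L l (j l i) * ((1 - ε) * (m * Eq n (θ (bb l))) * Dm) := by
        rw [hjL l, ← Finset.sum_mul]
        ring
      rw [h3]
      refine h2.trans ?_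
      simp only [Finset.mul_sum]
      rw [Finset.sum_comm]
      refine Finset.sum_le_sum fun t _ => ?_
      have h4 : ∑ i, L l (j l i) * min ((θ (bb l)) * m) (α (bb l, j l) t i : ℝ) ≤ s₁ l t := by
        refine Finset.sum_le_sum fun i _ => ?_
        rw [mul_comm]
        exact mul_le_mul_of_nonneg_right (min_le_right _ _) (hP0 l i)
      refine le_min ?_ h4
      rw [hjL l, Finset.mul_sum]
      refine Finset.sum_le_sum fun i _ => ?_
      rw [mul_comm]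
      refine mul_le_mul_of_nonneg_right ?_ (hP0 l i)
      refine (min_le_left _ _).trans (le_of_eq ?_)
      ring
    rw [← hDm] at hmain
    have h5 : (finrank k V' : ℝ) * ∑ l, κ l * (Dm * (m * ((1 - ε) * Eq n (θ (bb l)) * ∑ i ∈ T l, L l i))) ≤
        finrank k V' * ∑ l, κ l * ∑ t, s l t :=
      mul_le_mul_of_nonneg_left (Finset.sum_le_sum fun l _ => mul_le_mul_of_nonneg_left (hest' l) (hκ l)) (Nat.cast_nonneg _)
    have h6 := h5.trans hmain
    refine le_of_mul_le_mul_left (le_trans (le_of_eq ?_) h6) hDm0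
    simp only [Finset.mul_sum]
    exact Finset.sum_congr rfl fun l _ => by ring

end

end Pool.Agent.SQ
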