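import Pool.Agent.Helper68.ZS.FINi
import Pool.Agent.Helper80.LD.COEw
import Pool.Agent.Helper80.LD.SEQld
import Pool.Agent.Helper80.LD.NUMw

/-!
# The final theorem with the local degrees

After `fin_i` of `Pool/Agent/Helper68/ZS/FINi.lean` (helper68, helper67).
-/

set_option autoImplicit false
set_option linter.unusedSectionVars false

namespace Pool.Agent.SQ

open NumberField Filter Module MvPolynomial
open Pool.Agent.Helper64.Vojta (Pl nv sn above)
open Pool.Agent.Helper52.Vojta (ldeg)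
open Pool.Agent.V2
open Pool.Agent.Chart (fld dg crd hgt)

universe u

section

variable {k : Type u} [Field k] [NumberField k]

/-! ### points -/

private theorem val_crd_80 {N : ℕ} (x : Fin (N + 1) → AlgebraicClosure k) (f : MvPolynomial (Fin (N + 1)) k) :
    ((aeval (crd x) f : fld x) : AlgebraicClosure k) = aeval x f := by
  have h1 := MvPolynomial.comp_aeval_apply (f := crd x) (fld x).val f
  exact h1

private theorem val_y_80 {N : ℕ} (x : Fin (N + 1) → AlgebraicClosure k) (y : Fin (N + 1) → gal x)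
    (hy : ∀ j, (y j : AlgebraicClosure k) = x j) (f : MvPolynomial (Fin (N + 1)) k) :
    ((aeval y f : gal x) : AlgebraicClosure k) = aeval x f := by
  have h1 := MvPolynomial.comp_aeval_apply (f := y) (gal x).val f
  have h2 : (fun j => (gal x).val (y j)) = x := funext hy
  rw [h2] at h1
  exact h1

private theorem ne_iff_80 {N : ℕ} (x : Fin (N + 1) → AlgebraicClosure k) (y : Fin (N + 1) → gal x)
    (hy : ∀ j, (y j : AlgebraicClosure k) = x j) (f : MvPolynomial (Fin (N + 1)) k) : aeval y f = 0 ↔ aeval x f = 0 := by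
  rw [← val_y_80 x y hy f]
  exact ZeroMemClass.coe_eq_zero.symm

private theorem crd_iff_80 {N : ℕ} (x : Fin (N + 1) → AlgebraicClosure k) (f : MvPolynomial (Fin (N + 1)) k) :
    aeval (crd x) f = 0 ↔ aeval x f = 0 := by
  rw [← val_crd_80 x f]
  exact ZeroMemClass.coe_eq_zero.symm

/-! ### representatives -/

private theorem exists_rep80 {G : Type} [Group G] [Fintype G] (Hs : Subgroup G) :
    ∃ ρ : Fin Hs.index → G, ∀ g, ∃! j, (ρ j)⁻¹ * g ∈ Hs := by
  classical
  have hf : Finite (G ⧸ Hs) := inferInstance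
  have e : (G ⧸ Hs) ≃ Fin Hs.index := Finite.equivFinOfCardEq (by rw [Subgroup.index_eq_card])
  refine ⟨fun j => (e.symm j).out, fun g => ⟨e (QuotientGroup.mk g), ?_, ?_⟩⟩
  · simp only [Equiv.symm_apply_apply]
    rw [← QuotientGroup.eq, QuotientGroup.out_eq']
  · intro j hj
    simp only at hj
    rw [← QuotientGroup.eq, QuotientGroup.out_eq'] at hj
    rw [← hj, Equiv.apply_symm_apply]

/-- the elements over a set of cosets -/
private theorem card_rep80 {G : Type} [Group G] [Fintype G] (Hs : Subgroup G) {r : ℕ} (ρ : Fin r → G)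
    (hρ : ∀ g, ∃! j, (ρ j)⁻¹ * g ∈ Hs) {P : Type*} (p : G → P) (hp : ∀ g, ∀ h ∈ Hs, p (g * h) = p g) (w : P)
    [DecidableEq P] :
    Nat.card {g // p g = w} = Nat.card Hs * (Finset.univ.filter fun j => p (ρ j) = w).card := by
  classical
  have e : {g // p g = w} ≃ {j // p (ρ j) = w} × Hs :=
    { toFun := fun g => (⟨(hρ g.1).choose, by
          have h1 := (hρ g.1).choose_spec.1
          have h2 := hp (ρ (hρ g.1).choose) _ h1
          rw [mul_inv_cancel_left] at h2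
          rw [← h2]
          exact g.2⟩, ⟨(ρ (hρ g.1).choose)⁻¹ * g.1, (hρ g.1).choose_spec.1⟩)
      invFun := fun q => ⟨ρ q.1.1 * q.2.1, by
          rw [hp _ _ q.2.2]
          exact q.1.2⟩
      left_inv := fun g => Subtype.ext (mul_inv_cancel_left _ _)
      right_inv := fun q => by
        obtain ⟨⟨j, hj⟩, h⟩ := q
        have h1 : (hρ (ρ j * h.1)).choose = j := by
          refine ((hρ (ρ j * h.1)).choose_spec.2 j ?_).symm
          show (ρ j)⁻¹ * (ρ j * h.1) ∈ Hs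
          rw [inv_mul_cancel_left]
          exact h.2
        ext
        · simp only [h1]
        · simp only [h1, inv_mul_cancel_left] }
  rw [Nat.card_congr e, Nat.card_prod, mul_comm]
  congr 1
  rw [Nat.card_eq_fintype_card, Fintype.card_subtype]

end

/-- The maximum form, with the local degrees. The form `Q` does not depend on the finite set `S` of places nor on the
subfamilies `T0 v`. -/
theorem fin_ld {k : Type u} [Field k] [NumberField k] {N n d q r : ℕ} (hd : 0 < d) (hr : 0 < r)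
    (I : Ideal (MvPolynomial (Fin (N + 1)) k)) [I.IsPrime] (hI : ∀ p ∈ I, ∀ m, homogeneousComponent m p ∈ I)
    (hdim : Algebra.trdeg k (MvPolynomial (Fin (N + 1)) k ⧸ I) = n + 1)
    (f : Fin q → MvPolynomial (Fin (N + 1)) k) (hf : ∀ i, (f i).IsHomogeneous d)
    {ε : ℝ} (hε : 0 < ε) :
    ∃ Q : MvPolynomial (Fin (N + 1)) k, Q ∉ I ∧ (∃ e, Q.IsHomogeneous e) ∧
      ∀ (S : Finset (Pl k)) (T0 : Pl k → Finset (Fin q)), (∀ v ∈ S, n + 1 ≤ (T0 v).card) →
      (∀ v ∈ S, ∀ J ⊆ T0 v, J.card = n + 1 → ∀ x : Fin (N + 1) → AlgebraicClosure k, (∀ p ∈ I, aeval x p = 0) →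
        (∀ i ∈ J, aeval x (f i) = 0) → x = 0) → ∃ C : ℝ,
      ∀ x : Fin (N + 1) → AlgebraicClosure k, (∃ j, x j = 1) → (∀ p ∈ I, aeval x p = 0) → dg x ≤ r →
        (∀ v ∈ S, ∀ i ∈ T0 v, aeval (crd x) (f i) ≠ 0) → aeval x Q ≠ 0 →
        ∀ w : Pl k → Pl (fld x), (∀ v, w v ∈ above (fld x) v) →
        ∑ ν ∈ S, max (∑ w ∈ above (fld x) ν, cnq n (dg x / ldeg ν w) * ∑ i ∈ T0 ν, lamW d (f i) x w)
          (max ((∑ i ∈ T0 ν, lamW d (f i) x (w ν)) / (dg x * (n + 1)))
            ((∑ i ∈ T0 ν, lamP d (f i) ν x) / (gfam x ν * (n + 1)))) ≤ (d + ε) * hgt x + C := by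
  classical
  have hrR : (0 : ℝ) < r := by exact_mod_cast hr
  have hn1 : (0 : ℝ) < n + 1 := by positivity
  -- the truncations
  have hth : ∀ z : Option (Fin (r + 1) × Fin (r + 1)), ∃ θ : ℝ, 0 ≤ θ ∧ θ ≤ 1 ∧ (z = none → θ = 1) ∧
      ∀ z', z = some z' → 0 < (z'.1 : ℕ) → (z'.1 : ℕ) ≤ z'.2 → Eq n θ - (1 - ((z'.1 : ℕ) : ℝ) / (z'.2 : ℕ)) * θ =
        cnq n (((z'.2 : ℕ) : ℝ) / (z'.1 : ℕ)) / (((z'.2 : ℕ) : ℝ) / (z'.1 : ℕ)) := by
    intro z
    cases z with
    | none => exact ⟨1, zero_le_one, le_rfl, fun _ => rfl, fun z' h => absurd h (by simp)⟩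
    | some z =>
      by_cases hz : 0 < (z.1 : ℕ) ∧ (z.1 : ℕ) ≤ z.2
      · have h1 : (0 : ℝ) < (z.1 : ℕ) := by exact_mod_cast hz.1
        have h2 : ((z.1 : ℕ) : ℝ) ≤ (z.2 : ℕ) := by exact_mod_cast hz.2
        obtain ⟨θ, h3, h4, h5⟩ := cnq_ex n (s := ((z.2 : ℕ) : ℝ) / (z.1 : ℕ)) (by rwa [le_div_iff₀ h1, one_mul])
        refine ⟨θ, h3, h4, fun h => absurd h (by simp), fun z' h _ _ => ?_⟩
        obtain rfl : z = z' := Option.some_injective _ h
        rw [one_div_div] at h5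
        exact h5
      · refine ⟨1, zero_le_one, le_rfl, fun _ => rfl, fun z' h h1 h2 => ?_⟩
        obtain rfl : z = z' := Option.some_injective _ h
        exact absurd ⟨h1, h2⟩ hz
  choose θ hθ hθ1 hθn hθs using hth
  obtain ⟨A₀, hA0, hA1, hA⟩ : ∃ A₀ : ℝ, 0 < A₀ ∧ A₀ ≤ 1 ∧ ∀ z : Fin (r + 1) × Fin (r + 1), 0 < (z.1 : ℕ) →
      (z.1 : ℕ) ≤ z.2 → A₀ ≤ cnq n (((z.2 : ℕ) : ℝ) / (z.1 : ℕ)) / (((z.2 : ℕ) : ℝ) / (z.1 : ℕ)) := by
    obtain ⟨F, hF⟩ : ∃ F : Fin (r + 1) × Fin (r + 1) → ℝ, F = fun z => if 0 < (z.1 : ℕ) ∧ (z.1 : ℕ) ≤ z.2 then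
      cnq n (((z.2 : ℕ) : ℝ) / (z.1 : ℕ)) / (((z.2 : ℕ) : ℝ) / (z.1 : ℕ)) else 1 := ⟨_, rfl⟩
    have hpos : ∀ z, 0 < F z := by
      intro z
      rw [hF]
      show 0 < if 0 < (z.1 : ℕ) ∧ (z.1 : ℕ) ≤ z.2 then
        cnq n (((z.2 : ℕ) : ℝ) / (z.1 : ℕ)) / (((z.2 : ℕ) : ℝ) / (z.1 : ℕ)) else 1
      split_ifs with hz
      · have h1 : (0 : ℝ) < (z.1 : ℕ) := by exact_mod_cast hz.1
        have h2 : ((z.1 : ℕ) : ℝ) ≤ (z.2 : ℕ) := by exact_mod_cast hz.2
        have h3 : 1 ≤ ((z.2 : ℕ) : ℝ) / (z.1 : ℕ) := by rwa [le_div_iff₀ h1, one_mul]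
        exact div_pos (cnq_pos h3) (by linarith)
      · exact one_pos
    obtain ⟨z₀, -, hz₀⟩ := Finset.exists_min_image Finset.univ F ⟨(0, 0), Finset.mem_univ _⟩
    refine ⟨min 1 (F z₀), lt_min one_pos (hpos z₀), min_le_left _ _, fun z h1 h2 => ?_⟩
    refine (min_le_right _ _).trans ((hz₀ z (Finset.mem_univ z)).trans (le_of_eq ?_))
    rw [hF]
    exact if_pos ⟨h1, h2⟩
  obtain ⟨Q, hQ, hQh, hcoreQ⟩ := core_ew hd I hI hdim f hf hθ hθ1 (ξ₁ := none) (hθn none rfl) hA0 hA1 hε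
  refine ⟨Q, hQ, hQh, fun S T0 hT0 hgp => ?_⟩
  by_contra hcon
  have hbad : ∀ C : ℝ, ∃ x : Fin (N + 1) → AlgebraicClosure k, (∃ j, x j = 1) ∧ (∀ p ∈ I, aeval x p = 0) ∧ dg x ≤ r ∧
        (∀ v ∈ S, ∀ i ∈ T0 v, aeval (crd x) (f i) ≠ 0) ∧ aeval x Q ≠ 0 ∧
        ∃ w : Pl k → Pl (fld x), (∀ v, w v ∈ above (fld x) v) ∧
        (d + ε) * hgt x + C < ∑ ν ∈ S,
          max (∑ w ∈ above (fld x) ν, cnq n (dg x / ldeg ν w) * ∑ i ∈ T0 ν, lamW d (f i) x w)
          (max ((∑ i ∈ T0 ν, lamW d (f i) x (w ν)) / (dg x * (n + 1)))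
            ((∑ i ∈ T0 ν, lamP d (f i) ν x) / (gfam x ν * (n + 1)))) := by
    intro C
    by_contra h
    apply hcon
    refine ⟨C, fun x h1 h2 h3 h4 h5 w hw => ?_⟩
    by_contra h6
    exact h ⟨x, h1, h2, h3, h4, h5, w, hw, not_le.1 h6⟩
  choose x hx1 hxI hxr hxf hxQ w hw hbig using fun m : ℕ => hbad m
  obtain ⟨G, gG, fG, Hs, R, g₁, φ, hφ, hHd, hKd, y, M, s, p, hy, hQ', hH, hHy, hRp, hpg₁, hpa, hpc, hph, hpM, hlW⟩ :=
    exists_seq_ld x hx1 hxr w hw S
  set c : ℝ := (Fintype.card G : ℝ) with hc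
  have hc0 : 0 < c := by
    rw [hc]
    exact_mod_cast Fintype.card_pos
  have hφa : ∀ a, a ≤ φ a := fun a => hφ.le_apply
  have hy1 : ∀ a, ∃ j, y a j = 1 := by
    intro a
    obtain ⟨j, hj⟩ := hx1 (φ a)
    refine ⟨j, Subtype.ext ?_⟩
    rw [hy a j, hj]
    rfl
  have hyx : ∀ a (p : MvPolynomial (Fin (N + 1)) k), aeval (y a) p = 0 ↔ aeval (x (φ a)) p = 0 :=
    fun a p => ne_iff_80 _ _ (hy a) p
  have hyf : ∀ a, ∀ v ∈ S, ∀ i ∈ T0 v, aeval (y a) (f i) ≠ 0 := by
    intro a v hv i hi h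
    exact hxf (φ a) v hv i hi ((crd_iff_80 _ _).2 ((hyx a _).1 h))
  -- the index
  have hHs0 : 0 < Nat.card Hs := Nat.card_pos
  have hHi : Nat.card Hs * Hs.index = Fintype.card G := by
    rw [Subgroup.card_mul_index, Nat.card_eq_fintype_card]
  have hdg : ∀ a, dg (x (φ a)) = Hs.index := by
    intro a
    exact Nat.eq_of_mul_eq_mul_left hHs0 ((hHd a).trans hHi.symm)
  set r' : ℕ := Hs.index with hr'
  have hr'r : r' ≤ r := by
    rw [← hdg 0]
    exact hxr _
  have hr'0 : 0 < r' := by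
    rcases Nat.eq_zero_or_pos r' with h | h
    · rw [h, mul_zero] at hHi
      exact absurd hHi.symm Fintype.card_ne_zero
    · exact h
  have hr'R0 : (0 : ℝ) < r' := by exact_mod_cast hr'0
  have hr'R1 : (1 : ℝ) ≤ r' := by exact_mod_cast hr'0
  have hη0 : (0 : ℝ) < Nat.card Hs := by exact_mod_cast hHs0
  have hHR : (Nat.card Hs : ℝ) * r' = c := by
    rw [hc]
    exact_mod_cast hHi
  -- local degrees
  have hl0 : ∀ (a : ℕ) (v : Pl k), ∀ w ∈ above (fld (x (φ a))) v, (0 : ℝ) < ldeg v w := by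
    intro a v w hw
    exact_mod_cast Nat.pos_of_ne_zero (Pool.Agent.QP.ldeg_ne_zero hw)
  have hlsum : ∀ (a : ℕ) (v : Pl k), ∑ w ∈ above (fld (x (φ a))) v, (ldeg v w : ℝ) = r' := by
    intro a v
    have h1 := Pool.Agent.Helper52.Vojta.sum_ldeg (L' := fld (x (φ a))) v
    have h2 : finrank k (fld (x (φ a))) = r' := hdg a
    rw [h2] at h1
    exact_mod_cast h1
  have hl1 : ∀ (a : ℕ) (v : Pl k), ∀ w ∈ above (fld (x (φ a))) v, (ldeg v w : ℝ) ≤ r' := by
    intro a v w hw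
    rw [← hlsum a v]
    exact Finset.single_le_sum (f := fun w => (ldeg v w : ℝ)) (fun w _ => Nat.cast_nonneg _) hw
  have hq1 : ∀ (a : ℕ) (v : Pl k), ∀ w ∈ above (fld (x (φ a))) v, (1 : ℝ) ≤ r' / ldeg v w := by
    intro a v w hw
    rw [le_div_iff₀ (hl0 a v w hw), one_mul]
    exact hl1 a v w hw
  -- the local values
  obtain ⟨Γ, hΓ⟩ : ∃ Γ : ℕ → Pl k → G → ℝ, Γ = fun a v g => ∑ i ∈ T0 v, gam (s a) (M a) (y a) d (f i) v g := ⟨_, rfl⟩
  have hΓ' : ∀ a v g, ∑ i ∈ T0 v, gam (s a) (M a) (y a) d (f i) v g = Γ a v g := fun a v g => by rw [hΓ]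
  let W : ∀ a, ∀ v : Pl k, Pl (fld (x (φ a))) → ℝ := fun a v w => ∑ i ∈ T0 v, lamW d (f i) (x (φ a)) w
  let X : ℕ → Pl k → ℝ := fun a v => ∑ i ∈ T0 v, lamP d (f i) v (x (φ a))
  have hXW : ∀ a v, X a v = ∑ w ∈ above (fld (x (φ a))) v, W a v w := by
    intro a v
    show ∑ i ∈ T0 v, lamP d (f i) v (x (φ a)) = ∑ w ∈ above (fld (x (φ a))) v, ∑ i ∈ T0 v, lamW d (f i) (x (φ a)) w
    rw [Finset.sum_comm]
    refine Finset.sum_congr rfl fun i _ => ?_
    exact Finset.sum_div _ _ _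
  have hWΓ : ∀ a, ∀ v ∈ S, ∀ g, r' * W a v (p a v g) = ldeg v (p a v g) * Γ a v g := by
    intro a v hv g
    show (r' : ℝ) * ∑ i ∈ T0 v, lamW d (f i) (x (φ a)) (p a v g) = _
    rw [hΓ, Finset.mul_sum, Finset.mul_sum]
    refine Finset.sum_congr rfl fun i hi => ?_
    have h1 := hlW a v g d (f i) (hxf _ v hv i hi)
    rw [hdg a] at h1
    exact h1
  have hsurj : ∀ a v, ∀ w ∈ above (fld (x (φ a))) v, ∃ g, p a v g = w := by
    intro a v w hw
    have h11 : 0 < Nat.card {g // p a v g = w} := by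
      rw [hpc a v w hw]
      exact Nat.mul_pos hHs0 (Nat.pos_of_ne_zero (Pool.Agent.QP.ldeg_ne_zero hw))
    obtain ⟨⟨g, hg⟩⟩ := (Nat.card_pos_iff.1 h11).1
    exact ⟨g, hg⟩
  have hpc' : ∀ a v, ∀ w ∈ above (fld (x (φ a))) v, ((Finset.univ.filter fun g => p a v g = w).card : ℝ) =
      Nat.card Hs * ldeg v w := by
    intro a v w hw
    have h1 := hpc a v w hw
    rw [Nat.card_eq_fintype_card, Fintype.card_subtype] at h1
    exact_mod_cast h1
  have hGX : ∀ a, ∀ v ∈ S, c * X a v = ∑ g, Γ a v g := by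
    intro a v hv
    have hmap : ∀ g ∈ (Finset.univ : Finset G), p a v g ∈ above (fld (x (φ a))) v := fun g _ => hpa a v g
    rw [← Finset.sum_fiberwise_of_maps_to hmap, hXW, Finset.mul_sum]
    refine Finset.sum_congr rfl fun w hw => ?_
    have h1 : ∀ g ∈ Finset.univ.filter (fun g => p a v g = w), Γ a v g = r' * W a v w / ldeg v w := by
      intro g hg
      have h2 := hWΓ a v hv g
      rw [(Finset.mem_filter.1 hg).2] at h2
      rw [h2, mul_div_cancel_left₀ _ (hl0 a v w hw).ne']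
    rw [Finset.sum_congr rfl h1, Finset.sum_const, nsmul_eq_mul, hpc' a v w hw, ← hHR]
    have := (hl0 a v w hw).ne'
    field_simp
  -- the constants
  have hg0 : ∀ v i, ∃ C : ℝ, 0 ≤ C ∧ (v ∈ S → i ∈ T0 v → ∀ a g, -C ≤ gam (s a) (M a) (y a) d (f i) v g) := by
    intro v i
    obtain ⟨C, h1, h2⟩ := gam_ge G (f i) (hf i) S
    exact ⟨C, h1, fun hv hi a g => h2 _ (s a) (M a) (hQ' a) (y a) (hyf a v hv i hi) v hv g⟩
  choose C0 hC00 hC0 using hg0
  set K0 : ℝ := ∑ v ∈ S, ∑ i, C0 v i with hK0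
  have hK00 : 0 ≤ K0 := Finset.sum_nonneg fun v _ => Finset.sum_nonneg fun i _ => hC00 v i
  have hgk : ∀ a, ∀ v ∈ S, ∀ g, -K0 ≤ Γ a v g := by
    intro a v hv g
    have h1 : ∑ i ∈ T0 v, C0 v i ≤ K0 :=
      (Finset.sum_le_sum_of_subset_of_nonneg (Finset.subset_univ _) fun i _ _ => hC00 v i).trans
        (Finset.single_le_sum (f := fun v => ∑ i, C0 v i) (fun v _ => Finset.sum_nonneg fun i _ => hC00 v i) hv)
    have h2 : ∑ i ∈ T0 v, -C0 v i ≤ ∑ i ∈ T0 v, gam (s a) (M a) (y a) d (f i) v g :=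
      Finset.sum_le_sum fun i hi => hC0 v i hv hi a g
    rw [Finset.sum_neg_distrib, hΓ'] at h2
    linarith
  have hWk : ∀ a, ∀ v ∈ S, ∀ w ∈ above (fld (x (φ a))) v, -(ldeg v w / r' * K0) ≤ W a v w := by
    intro a v hv w hw
    obtain ⟨g, rfl⟩ := hsurj a v w hw
    have h1 := hWΓ a v hv g
    have h2 : W a v (p a v g) = ldeg v (p a v g) / r' * Γ a v g := by
      rw [div_mul_eq_mul_div, ← h1, mul_div_cancel_left₀ _ hr'R0.ne']
    rw [h2, ← mul_neg]
    exact mul_le_mul_of_nonneg_left (hgk a v hv g) (div_nonneg (Nat.cast_nonneg _) hr'R0.le)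
  have hsumK : ∀ (a : ℕ) (v : Pl k), ∑ w ∈ above (fld (x (φ a))) v, ldeg v w / r' * K0 = K0 := by
    intro a v
    rw [← Finset.sum_mul, ← Finset.sum_div, hlsum, div_self hr'R0.ne', one_mul]
  have hXk : ∀ a, ∀ v ∈ S, -K0 ≤ X a v := by
    intro a v hv
    rw [hXW, ← hsumK a v, ← Finset.sum_neg_distrib]
    exact Finset.sum_le_sum fun w hw => hWk a v hv w hw
  have hgf1 : ∀ a, ∀ v ∈ S, (1 : ℝ) ≤ gfam (x (φ a)) v := by
    intro a v hv
    have h1 := hKd a v hv
    rcases Nat.eq_zero_or_pos (gfam (x (φ a)) v) with h | h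
    · rw [h, mul_zero] at h1
      exact absurd h1.symm Fintype.card_ne_zero
    · exact_mod_cast h
  -- the terms
  set T : ℕ → Pl k → ℝ := fun a v =>
    max (∑ w ∈ above (fld (x (φ a))) v, cnq n (dg (x (φ a)) / ldeg v w) * W a v w)
      (max (W a v (w (φ a) v) / (dg (x (φ a)) * (n + 1))) (X a v / (gfam (x (φ a)) v * (n + 1)))) with hT
  have hbig' : ∀ a, (d + ε) * hgt (x (φ a)) + φ a < ∑ v ∈ S, T a v := fun a => hbig (φ a)
  set K1 : ℝ := K0 / (n + 1) with hK1
  have hTX : ∀ a, ∀ v ∈ S, T a v ≤ X a v / (n + 1) + K1 := by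
    intro a v hv
    have e0 : X a v / (n + 1) + K1 = (X a v + K0) / (n + 1) := by
      rw [hK1, add_div]
    have hX0 : 0 ≤ X a v + K0 := by linarith [hXk a v hv]
    have e2 : X a v + K0 = ∑ w ∈ above (fld (x (φ a))) v, (W a v w + ldeg v w / r' * K0) := by
      rw [Finset.sum_add_distrib, hsumK, ← hXW]
    rw [e0]
    refine max_le ?_ (max_le ?_ ?_)
    · rw [e2, Finset.sum_div]
      refine Finset.sum_le_sum fun w hw => ?_
      rw [hdg a]
      have h1 := cnq_le (n := n) (hq1 a v w hw)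
      have h2 := cnq_pos (n := n) (hq1 a v w hw)
      have h3 := hWk a v hv w hw
      have h4 : 0 ≤ (ldeg v w : ℝ) / r' * K0 := mul_nonneg (div_nonneg (Nat.cast_nonneg _) hr'R0.le) hK00
      have h5 : cnq n (r' / ldeg v w) * W a v w ≤ cnq n (r' / ldeg v w) * (W a v w + ldeg v w / r' * K0) :=
        mul_le_mul_of_nonneg_left (by linarith) h2.le
      refine h5.trans ((mul_le_mul_of_nonneg_right h1 (by linarith)).trans (le_of_eq ?_))
      ring
    · have hw' := hw (φ a) v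
      have h1 : W a v (w (φ a) v) + ldeg v (w (φ a) v) / r' * K0 ≤ X a v + K0 := by
        rw [e2]
        exact Finset.single_le_sum (f := fun w => W a v w + ldeg v w / r' * K0)
          (fun w hw => by linarith [hWk a v hv w hw]) hw'
      have h4 : 0 ≤ (ldeg v (w (φ a) v) : ℝ) / r' * K0 := mul_nonneg (div_nonneg (Nat.cast_nonneg _) hr'R0.le) hK00
      rw [hdg a]
      refine (div_le_div_of_nonneg_right (show W a v (w (φ a) v) ≤ X a v + K0 by linarith) (by positivity)).trans ?_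
      refine div_le_div_of_nonneg_left hX0 hn1 ?_
      nlinarith
    · refine (div_le_div_of_nonneg_right (show X a v ≤ X a v + K0 by linarith) ?_).trans ?_
      · exact mul_nonneg (Nat.cast_nonneg _) hn1.le
      · refine div_le_div_of_nonneg_left hX0 hn1 ?_
        have := hgf1 a v hv
        nlinarith
  have hh0 : ∀ a, 0 ≤ hgt (x a) := fun a => by
    unfold hgt
    exact div_nonneg (Height.logHeight_nonneg _) (Nat.cast_nonneg _)
  obtain ⟨K3, hkey⟩ : ∃ K3 : ℝ, ∀ a : ℕ,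
      (a : ℝ) + (d + ε) * hgt (x (φ a)) ≤ (S.card * q : ℝ) * d / (n + 1) * hgt (x (φ a)) + K3 := by
    have hL : ∀ v i, ∃ C : ℝ, 0 ≤ C ∧ (v ∈ S → i ∈ T0 v → ∀ a, ∑ g, gam (s a) (M a) (y a) d (f i) v g ≤
        d * Hg (s a) (M a) (y a) + C) := by
      intro v i
      obtain ⟨C, h1⟩ := gam_sum G (f i) (hf i) {v}
      refine ⟨max 0 C, le_max_left _ _, fun hv hi a => ?_⟩
      have h2 := h1 _ (s a) (M a) (hQ' a) (y a) (hy1 a) (hyf a v hv i hi)
      rw [Finset.sum_singleton] at h2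
      exact h2.trans (add_le_add le_rfl (le_max_right _ _))
    choose C2 hC20 hC2 using hL
    have hSX : ∀ a, c * ∑ v ∈ S, X a v ≤ (S.card * q : ℝ) * d * (c * hgt (x (φ a))) + ∑ v ∈ S, ∑ i, C2 v i := by
      intro a
      rw [Finset.mul_sum, Finset.sum_congr rfl fun v hv => hGX a v hv]
      have h1 : ∀ v ∈ S, ∑ g, Γ a v g ≤ q * (d * (c * hgt (x (φ a)))) + ∑ i, C2 v i := by
        intro v hv
        rw [hΓ, Finset.sum_comm]
        refine (Finset.sum_le_sum fun i hi => hC2 v i hv hi a).trans ?_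
        rw [← hH a]
        refine (Finset.sum_le_sum_of_subset_of_nonneg (Finset.subset_univ _) fun i _ _ => ?_).trans (le_of_eq ?_)
        · exact add_nonneg (mul_nonneg (Nat.cast_nonneg _) (mul_nonneg hc0.le (hh0 _))) (hC20 v i)
        rw [Finset.sum_add_distrib, Finset.sum_const, Finset.card_univ, Fintype.card_fin, nsmul_eq_mul]
      refine (Finset.sum_le_sum h1).trans (le_of_eq ?_)
      rw [Finset.sum_add_distrib, Finset.sum_const, nsmul_eq_mul]
      ring
    refine ⟨(∑ v ∈ S, ∑ i, C2 v i) / c / (n + 1) + S.card * K1, fun a => ?_⟩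
    have h1 := Finset.sum_le_sum fun v hv => hTX a v hv
    rw [Finset.sum_add_distrib, Finset.sum_const, nsmul_eq_mul, ← Finset.sum_div] at h1
    have h2 : ∑ v ∈ S, X a v ≤ (S.card * q : ℝ) * d * hgt (x (φ a)) + (∑ v ∈ S, ∑ i, C2 v i) / c := by
      refine le_of_mul_le_mul_left ((hSX a).trans (le_of_eq ?_)) hc0
      field_simp
    have h3 := div_le_div_of_nonneg_right h2 hn1.le
    rw [add_div] at h3
    have h4 : (S.card * q : ℝ) * d * hgt (x (φ a)) / ((n : ℝ) + 1) = (S.card * q : ℝ) * d / (n + 1) * hgt (x (φ a)) := by ring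
    rw [h4] at h3
    have h5 := (hbig' a).le
    have h6 : (a : ℝ) ≤ φ a := by exact_mod_cast hφa a
    linarith
  have hH1 : Tendsto (fun a => Hg (s a) (M a) (y a)) atTop atTop := by
    have h1 : ∀ a : ℕ, c * (((a : ℝ) - K3) / ((S.card * q : ℝ) * d / (n + 1) + 1)) ≤ Hg (s a) (M a) (y a) := by
      intro a
      rw [← hH a]
      refine mul_le_mul_of_nonneg_left ?_ hc0.le
      have hq0 : (0 : ℝ) < (S.card * q : ℝ) * d / (n + 1) + 1 := by positivity
      rw [div_le_iff₀ hq0]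
      have h2 := hkey a
      have h3 : 0 ≤ (d + ε) * hgt (x (φ a)) := mul_nonneg (by positivity) (hh0 _)
      have h4 := hh0 (φ a)
      have h5 : hgt (x (φ a)) * ((S.card * q : ℝ) * d / (n + 1) + 1) =
          (S.card * q : ℝ) * d / (n + 1) * hgt (x (φ a)) + hgt (x (φ a)) := by ring
      linarith
    refine tendsto_atTop_mono h1 ?_
    refine Tendsto.const_mul_atTop hc0 ?_
    refine Tendsto.atTop_div_const (by positivity) ?_
    exact tendsto_atTop_add_const_right _ _ tendsto_natCast_atTop_atTop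
  -- the data
  let D : SqG k G :=
    { U := hyperfilter ℕ
      L := fun a => gal (x (φ a))
      fL := fun a => inferInstance
      aL := fun a => inferInstance
      s := s
      N := M
      qs := hQ'
      H := fun a => Hg (s a) (M a) (y a)
      H1 := hH1.mono_left Nat.hyperfilter_le_atTop }
  let y' : ∀ a, Fin (N + 1) → D.L a := y
  have hPt : Ptg D y' := ⟨hy1, fun a => rfl⟩
  have hyI : ∀ a, ∀ p ∈ I, aeval (y' a) p = 0 := fun a p hp => (hyx a p).2 (hxI _ p hp)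
  have hyQ : ∀ a, aeval (y' a) Q ≠ 0 := fun a h => hxQ (φ a) ((hyx a Q).1 h)
  obtain ⟨ρ, hρ⟩ := exists_rep80 Hs
  -- the classes
  have hne : Nonempty (Fin r') := ⟨⟨0, hr'0⟩⟩
  let cl : Pl k → Fin r' → Fin r' := fun v j => Function.invFun (fun j => p 0 v (ρ j)) (p 0 v (ρ j))
  have hcl1 : ∀ v j, p 0 v (ρ (cl v j)) = p 0 v (ρ j) := fun v j =>
    Function.invFun_eq (f := fun j => p 0 v (ρ j)) ⟨j, rfl⟩
  have hcl2 : ∀ v j, cl v (cl v j) = cl v j := by
    intro v j
    show Function.invFun _ (p 0 v (ρ (cl v j))) = Function.invFun _ _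
    rw [hcl1]
  have hcl3 : ∀ a, ∀ v ∈ S, ∀ j j', cl v j = cl v j' ↔ p a v (ρ j) = p a v (ρ j') := by
    intro a v hv j j'
    rw [← hRp a v hv, hRp 0 v hv]
    constructor
    · intro h
      rw [← hcl1 v j, h, hcl1]
    · intro h
      show Function.invFun _ (p 0 v (ρ j)) = Function.invFun _ (p 0 v (ρ j'))
      rw [h]
  have hcl4 : ∀ a, ∀ v ∈ S, ∀ j, p a v (ρ (cl v j)) = p a v (ρ j) := fun a v hv j => (hcl3 a v hv _ _).1 (hcl2 v j)
  obtain ⟨nj, hnj⟩ : ∃ nj : Pl k → Fin r' → ℕ, nj = fun v j => (Finset.univ.filter fun j' => cl v j' = j).card := ⟨_, rfl⟩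
  have hnj' : ∀ v j, (Finset.univ.filter fun j' => cl v j' = j).card = nj v j := fun v j => by rw [hnj]
  have hnjr : ∀ v j, nj v j ≤ r' := by
    intro v j
    rw [← hnj']
    have h1 := Finset.card_le_univ (Finset.univ.filter fun j' => cl v j' = j)
    rwa [Fintype.card_fin] at h1
  have hnj0 : ∀ v j, 0 < nj v (cl v j) := by
    intro v j
    rw [← hnj']
    exact Finset.card_pos.2 ⟨j, Finset.mem_filter.2 ⟨Finset.mem_univ _, rfl⟩⟩
  -- the local degrees
  have hnjl : ∀ a, ∀ v ∈ S, ∀ j, nj v (cl v j) = ldeg v (p a v (ρ (cl v j))) := by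
    intro a v hv j
    have h1 := card_rep80 Hs ρ hρ (p a v) (fun g h hh => hph a v g h hh) (p a v (ρ (cl v j)))
    rw [hpc a v _ (hpa a v _)] at h1
    have h2 := Nat.eq_of_mul_eq_mul_left hHs0 h1
    rw [h2, ← hnj']
    congr 1
    ext j'
    simp only [Finset.mem_filter, Finset.mem_univ, true_and]
    rw [hcl4 a v hv j, ← hcl3 a v hv]
  let ξ : Pl k → Fin r' → Option (Fin (r + 1) × Fin (r + 1)) := fun v j =>
    some (⟨nj v (cl v j), Nat.lt_succ_of_le ((hnjr v _).trans hr'r)⟩, ⟨r', Nat.lt_succ_of_le hr'r⟩)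
  have hξ : ∀ v j, ξ v (cl v j) = ξ v j := by
    intro v j
    simp only [ξ, hcl2]
  have hRpm : ∀ v j, j ∈ Finset.univ.image (cl v) → cl v j = j := by
    intro v j hj
    obtain ⟨j', -, rfl⟩ := Finset.mem_image.1 hj
    exact hcl2 v j'
  have hval : ∀ v, ∀ j ∈ Finset.univ.image (cl v), Eq n (θ (ξ v j)) - (1 - (nj v j : ℝ) / r') * θ (ξ v j) =
      cnq n ((r' : ℝ) / nj v j) / ((r' : ℝ) / nj v j) := by
    intro v j hj
    have h1 := hθs (ξ v j) _ rfl (hnj0 v j) (hnjr v _)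
    simp only [hRpm v j hj] at h1
    exact h1
  -- the types
  have hty : ∀ v, ∃ t : Fin 3, v ∈ S → ∀ᶠ a in (D.U : Filter ℕ), T a v =
      if t = 0 then ∑ w ∈ above (fld (x (φ a))) v, cnq n (dg (x (φ a)) / ldeg v w) * W a v w
      else if t = 1 then W a v (w (φ a) v) / (dg (x (φ a)) * (n + 1)) else X a v / (gfam (x (φ a)) v * (n + 1)) := by
    intro v
    by_cases hv : v ∈ S
    · have h1 : ∀ a, ∃ t : Fin 3, T a v =
          if t = 0 then ∑ w ∈ above (fld (x (φ a))) v, cnq n (dg (x (φ a)) / ldeg v w) * W a v w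
          else if t = 1 then W a v (w (φ a) v) / (dg (x (φ a)) * (n + 1)) else X a v / (gfam (x (φ a)) v * (n + 1)) := by
        intro a
        rcases max_choice (∑ w ∈ above (fld (x (φ a))) v, cnq n (dg (x (φ a)) / ldeg v w) * W a v w)
          (max (W a v (w (φ a) v) / (dg (x (φ a)) * (n + 1))) (X a v / (gfam (x (φ a)) v * (n + 1)))) with h | h
        · exact ⟨0, by simp only [if_true]; exact h⟩
        · rcases max_choice (W a v (w (φ a) v) / (dg (x (φ a)) * (n + 1))) (X a v / (gfam (x (φ a)) v * (n + 1))) with h' | h'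
          · exact ⟨1, by simp only [one_ne_zero, if_false, if_true]; exact h.trans h'⟩
          · refine ⟨2, ?_⟩
            have e1 : (2 : Fin 3) ≠ 0 := by decide
            have e2 : (2 : Fin 3) ≠ 1 := by decide
            rw [if_neg e1, if_neg e2]
            exact h.trans h'
      have h2 : ∀ᶠ a in (D.U : Filter ℕ), ∃ t : Fin 3, T a v =
          if t = 0 then ∑ w ∈ above (fld (x (φ a))) v, cnq n (dg (x (φ a)) / ldeg v w) * W a v w
          else if t = 1 then W a v (w (φ a) v) / (dg (x (φ a)) * (n + 1)) else X a v / (gfam (x (φ a)) v * (n + 1)) :=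
        Eventually.of_forall h1
      obtain ⟨t, ht⟩ := Ultrafilter.eventually_exists_iff.1 h2
      exact ⟨t, fun _ => ht⟩
    · exact ⟨0, fun h => absurd h hv⟩
  choose ty hty using hty
  have hty' : ∀ᶠ a in (D.U : Filter ℕ), ∀ v ∈ S, T a v =
      if ty v = 0 then ∑ w ∈ above (fld (x (φ a))) v, cnq n (dg (x (φ a)) / ldeg v w) * W a v w
      else if ty v = 1 then W a v (w (φ a) v) / (dg (x (φ a)) * (n + 1)) else X a v / (gfam (x (φ a)) v * (n + 1)) := by
    rw [Filter.eventually_all_finset]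
    exact fun v hv => hty v hv
  have hcore := hcoreQ y' hPt hyI hyQ S T0 hT0 hgp hyf Hs hHy g₁
    (fun v => Finset.univ.filter fun u => R v (u * g₁ v) (g₁ v)) (fun v => Finset.univ.filter fun u => ∀ g, R v (u * g) g)
    (fun a v hv u hu z hz => hpM a v _ _ ((hRp a v hv _ _).1 (Finset.mem_filter.1 hu).2) z hz)
    (fun a v hv u hu g z hz => hpM a v _ _ ((hRp a v hv _ _).1 ((Finset.mem_filter.1 hu).2 g)) z hz)
    ρ hρ (fun v => Finset.univ.image (cl v)) cl ξ (fun v _ j => ⟨Finset.mem_image_of_mem _ (Finset.mem_univ j), hξ v j⟩)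
    (fun v _ j hj => by
      rw [hnj', hval v j hj]
      have h1 := hA (⟨nj v j, Nat.lt_succ_of_le ((hnjr v _).trans hr'r)⟩, ⟨r', Nat.lt_succ_of_le hr'r⟩)
      refine h1 ?_ (hnjr v j)
      show 0 < nj v j
      rw [← hRpm v j hj]
      exact hnj0 v j)
    (fun a v hv j z hz => hpM a v _ _ (hcl4 a v hv j) z hz) ty
  obtain ⟨a, hcore, hty''⟩ := (hcore.and hty').exists
  have hHa : D.H a = c * hgt (x (φ a)) := (hH a).symm
  have hterm : ∀ v ∈ S, c ^ 2 * T a v =
      (if ty v = 0 then (Fintype.card G : ℝ) ^ 2 * ∑ j ∈ Finset.univ.image (cl v), ((Eq n (θ (ξ v j)) -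
                (1 - ((Finset.univ.filter fun j' => cl v j' = j).card : ℝ) / r') * θ (ξ v j)) *
                ∑ i ∈ T0 v, gam (D.s a) (D.N a) (y' a) d (f i) v (ρ j))
        else if ty v = 1 then (Finset.univ.filter fun u => R v (u * g₁ v) (g₁ v)).card * Nat.card Hs / (n + 1) *
          ∑ i ∈ T0 v, gam (D.s a) (D.N a) (y' a) d (f i) v (g₁ v)
        else (Finset.univ.filter fun u => ∀ g, R v (u * g) g).card / (n + 1) *
          ∑ g, ∑ i ∈ T0 v, gam (D.s a) (D.N a) (y' a) d (f i) v g) := by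
    intro v hv
    rw [hty'' v hv]
    have hΓa : ∀ g, ∑ i ∈ T0 v, gam (D.s a) (D.N a) (y' a) d (f i) v g = Γ a v g := fun g => hΓ' a v g
    simp only [hΓa]
    split_ifs with h0 h1
    · rw [← hc]
      congr 1
      symm
      refine Finset.sum_bij (fun j _ => p a v (ρ j)) (fun j _ => hpa a v _) ?_ ?_ ?_
      · intro j hj j' hj' h
        rw [← hRpm v j hj, ← hRpm v j' hj']
        exact (hcl3 a v hv j j').2 h
      · intro w hw
        obtain ⟨g, rfl⟩ := hsurj a v w hw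
        obtain ⟨j, hj, -⟩ := hρ g
        refine ⟨cl v j, Finset.mem_image_of_mem _ (Finset.mem_univ j), ?_⟩
        rw [hcl4 a v hv]
        have h2 := hph a v (ρ j) _ hj
        rw [mul_inv_cancel_left] at h2
        exact h2.symm
      · intro j hj
        rw [hnj', hval v j hj, hdg a]
        have h2 := hnjl a v hv j
        rw [hRpm v j hj] at h2
        rw [h2]
        have h3 := hWΓ a v hv (ρ j)
        have h4 := (hl0 a v _ (hpa a v (ρ j))).ne'
        have h5 : Γ a v (ρ j) = r' * W a v (p a v (ρ j)) / ldeg v (p a v (ρ j)) := by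
          rw [h3, mul_div_cancel_left₀ _ h4]
        rw [h5]
        field_simp
    · have h2 : ((Finset.univ.filter fun u => R v (u * g₁ v) (g₁ v)).card : ℝ) = Nat.card Hs * ldeg v (p a v (g₁ v)) := by
        rw [← hpc' a v _ (hpa a v (g₁ v))]
        congr 1
        refine Finset.card_bij' (fun u _ => u * g₁ v) (fun g _ => g * (g₁ v)⁻¹) ?_ ?_ ?_ ?_
        · intro u hu
          rw [Finset.mem_filter] at hu ⊢
          exact ⟨Finset.mem_univ _, (hRp a v hv _ _).1 hu.2⟩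
        · intro g hg
          rw [Finset.mem_filter] at hg ⊢
          refine ⟨Finset.mem_univ _, ?_⟩
          rw [inv_mul_cancel_right]
          exact (hRp a v hv _ _).2 hg.2
        · intro u _
          exact mul_inv_cancel_right _ _
        · intro g _
          exact inv_mul_cancel_right _ _
      have h3 := hWΓ a v hv (g₁ v)
      have h4 := (hl0 a v _ (hpa a v (g₁ v))).ne'
      have h5 : Γ a v (g₁ v) = r' * W a v (p a v (g₁ v)) / ldeg v (p a v (g₁ v)) := by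
        rw [h3, mul_div_cancel_left₀ _ h4]
      rw [h2, h5, hpg₁ a v hv, hdg a, ← hHR]
      rw [hpg₁ a v hv] at h4
      field_simp
    · rw [← hGX a v hv]
      have h2 : ((Finset.univ.filter fun u => ∀ g, R v (u * g) g).card : ℝ) * gfam (x (φ a)) v = c := by
        have h3 := hKd a v hv
        rw [Nat.card_eq_fintype_card, Fintype.card_subtype] at h3
        rw [hc]
        exact_mod_cast h3
      have h6 := hgf1 a v hv
      have h7 : ((Finset.univ.filter fun u => ∀ g, R v (u * g) g).card : ℝ) = c / gfam (x (φ a)) v := by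
        rw [← h2]
        field_simp
      rw [h7]
      field_simp
  have hfinal := Finset.sum_congr (rfl : S = S) hterm
  rw [← Finset.mul_sum] at hfinal
  have h2 := hfinal.le.trans hcore
  rw [hHa, ← hc] at h2
  have h3 := mul_lt_mul_of_pos_left (hbig' a) (pow_pos hc0 2)
  have h4 : 0 ≤ c ^ 2 * (φ a : ℝ) := mul_nonneg (pow_nonneg hc0.le 2) (Nat.cast_nonneg _)
  have h5 : c * (d + ε) * (c * hgt (x (φ a))) = c ^ 2 * ((d + ε) * hgt (x (φ a))) := by ring
  rw [h5] at h2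
  rw [mul_add] at h3
  linarith

end Pool.Agent.SQ
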